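import Pool.Agent.V11300.PR.Meas

set_option linter.unusedSectionVars false

namespace Pool.Agent.V11300.PR

open Filter Topology

section

variable {α : Type*} [Fintype α] [DecidableEq α]

lemma summable_surv {p : α → ℝ} (hp : ∀ a, 0 < p a) (hs : ∑ a, p a = 1) (T : List α) :
    Summable (surv p T) := by
  have hp' : ∀ a, 0 ≤ p a := fun a => (hp a).le
  have hw := wt_pos hp T
  refine summable_of_sum_range_le (c := T.length / wt p T) (fun n => surv_nonneg hp' T n)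
    fun N => ?_
  rw [le_div_iff₀ hw]
  have h1 : ∑ n ∈ Finset.range N, surv p T (n + T.length) ≤
      ∑ n ∈ Finset.range N, surv p T n * (1 - wt p T) :=
    Finset.sum_le_sum fun n _ => surv_step hp' hs T n
  rw [← Finset.sum_mul] at h1
  have h2 : ∑ n ∈ Finset.range (T.length + N), surv p T n =
      ∑ n ∈ Finset.range T.length, surv p T n +
        ∑ n ∈ Finset.range N, surv p T (T.length + n) := Finset.sum_range_add _ _ _
  have h3 : ∑ n ∈ Finset.range N, surv p T n ≤ ∑ n ∈ Finset.range (T.length + N), surv p T n :=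
    Finset.sum_le_sum_of_subset_of_nonneg (Finset.range_mono (by omega))
      (fun n _ _ => surv_nonneg hp' T n)
  have h4 : ∑ n ∈ Finset.range T.length, surv p T n ≤ T.length := by
    have := Finset.sum_le_card_nsmul (Finset.range T.length) (fun n => surv p T n) 1
      (fun n _ => surv_le_one hp' hs T n)
    simpa using this
  have h5 : ∑ n ∈ Finset.range N, surv p T (T.length + n) =
      ∑ n ∈ Finset.range N, surv p T (n + T.length) :=
    Finset.sum_congr rfl fun n _ => by rw [add_comm]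
  nlinarith [h1, h2, h3, h4, h5]

/-- The renewal recursion for the pattern `aba`. -/
lemma surv_aba (p : α → ℝ) (hs : ∑ a, p a = 1) {a b : α} (hab : a ≠ b) (n : ℕ) :
    surv p [a, b, a] (n + 3) = surv p [a, b, a] (n + 2) - (p a * p b) * surv p [a, b, a] (n + 1) +
      (p a * p b - p a * p a * p b) * surv p [a, b, a] n := by
  have h := surv_renewal p hs [a, b, a] (by simp) n
  have hf : (Finset.Icc 1 [a, b, a].length).filter
      (fun k => [a, b, a].take k = [a, b, a].drop ([a, b, a].length - k)) = {1, 3} := by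
    ext k
    simp only [List.length_cons, List.length_nil, Finset.mem_filter, Finset.mem_Icc,
      Finset.mem_insert, Finset.mem_singleton]
    constructor
    · rintro ⟨⟨h1, h2⟩, h3⟩
      interval_cases k
      · left; rfl
      · exfalso; simp at h3; exact hab h3.1
      · right; rfl
    · rintro (rfl | rfl)
      · simp
      · simp
  rw [hf, Finset.sum_pair (by norm_num)] at h
  simp only [wt, List.map_cons, List.map_nil, List.prod_cons, List.prod_nil, mul_one,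
    List.drop_succ_cons, List.drop_zero, one_mul, Nat.add_sub_cancel] at h
  rw [show n + 3 - 1 = n + 2 by omega] at h
  linarith

end

/-- Denominator of the closed form of the race between `aba` and `cdc`. -/
def Dn (x y X Y : ℝ) : ℝ :=
  X + x + y * X + x * Y - 5 * x * X - 2 * y * X * Y + 2 * x * X * Y - 2 * x * y * Y +
  2 * x * y * X - 2 * y ^ 2 * X * Y + 2 * y ^ 2 * X ^ 2 - 2 * x * y * Y ^ 2 +
  10 * x * y * X * Y - 7 * x * y * X ^ 2 + 2 * x ^ 2 * Y ^ 2 - 7 * x ^ 2 * X * Y +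
  5 * x ^ 2 * X ^ 2 + y ^ 2 * X * Y ^ 2 - 2 * x * y * X * Y ^ 2 + x * y ^ 2 * Y ^ 2 -
  2 * x * y ^ 2 * X * Y + x * y ^ 2 * X ^ 2 + x ^ 2 * X * Y ^ 2 + y ^ 3 * X * Y ^ 2 -
  2 * y ^ 3 * X ^ 2 * Y + y ^ 3 * X ^ 3 + x * y ^ 2 * Y ^ 3 - 5 * x * y ^ 2 * X * Y ^ 2 +
  7 * x * y ^ 2 * X ^ 2 * Y - 3 * x * y ^ 2 * X ^ 3 - 2 * x ^ 2 * y * Y ^ 3 +
  7 * x ^ 2 * y * X * Y ^ 2 - 8 * x ^ 2 * y * X ^ 2 * Y + 3 * x ^ 2 * y * X ^ 3 +
  x ^ 3 * Y ^ 3 - 3 * x ^ 3 * X * Y ^ 2 + 3 * x ^ 3 * X ^ 2 * Y - x ^ 3 * X ^ 3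

/-- Numerator of the closed form of the race between `aba` and `cdc`. -/
def Nm (x y X Y : ℝ) : ℝ :=
  -X + x - y * X + x * Y + 2 * y * X * Y - 2 * x * X * Y - 2 * x * y * Y +
  2 * x * y * X + 2 * y ^ 2 * X * Y - 2 * y ^ 2 * X ^ 2 - 2 * x * y * Y ^ 2 +
  3 * x * y * X ^ 2 + 2 * x ^ 2 * Y ^ 2 - 3 * x ^ 2 * X * Y - y ^ 2 * X * Y ^ 2 +
  2 * x * y * X * Y ^ 2 + x * y ^ 2 * Y ^ 2 - 2 * x * y ^ 2 * X * Y +
  x * y ^ 2 * X ^ 2 - x ^ 2 * X * Y ^ 2 - y ^ 3 * X * Y ^ 2 + 2 * y ^ 3 * X ^ 2 * Y -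
  y ^ 3 * X ^ 3 + x * y ^ 2 * Y ^ 3 - 3 * x * y ^ 2 * X ^ 2 * Y +
  2 * x * y ^ 2 * X ^ 3 - 2 * x ^ 2 * y * Y ^ 3 + 3 * x ^ 2 * y * X * Y ^ 2 -
  x ^ 2 * y * X ^ 3 + x ^ 3 * Y ^ 3 - 2 * x ^ 3 * X * Y ^ 2 + x ^ 3 * X ^ 2 * Y

/-- The Casorati sum of two sequences satisfying the recursion of patterns of type `aba`. -/
theorem casorati_sum {S T : ℕ → ℝ} {x y X Y : ℝ}
    (hS : ∀ n, S (n + 3) = S (n + 2) - y * S (n + 1) + (y - x) * S n)
    (hT : ∀ n, T (n + 3) = T (n + 2) - Y * T (n + 1) + (Y - X) * T n)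
    (S0 : S 0 = 1) (S1 : S 1 = 1) (S2 : S 2 = 1) (T0 : T 0 = 1) (T1 : T 1 = 1) (T2 : T 2 = 1)
    (hsum : ∀ i j, Summable fun n => S (n + i) * T (n + j)) :
    Dn x y X Y * ((∑' n, S n * T (n + 1)) - ∑' n, S (n + 1) * T n) = Nm x y X Y := by
  set F : ℕ → ℕ → ℝ := fun i j => ∑' n, S (n + i) * T (n + j) with hF
  have shift : ∀ i j, F i j = S i * T j + F (i + 1) (j + 1) := by
    intro i j
    simp only [hF]
    rw [(hsum i j).tsum_eq_zero_add]
    simp only [Nat.zero_add]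
    congr 1
    refine tsum_congr fun n => ?_
    rw [show n + 1 + i = n + (i + 1) by ring, show n + 1 + j = n + (j + 1) by ring]
  have recS : ∀ j, F 3 j = F 2 j - y * F 1 j + (y - x) * F 0 j := by
    intro j
    simp only [hF]
    rw [← tsum_mul_left, ← tsum_mul_left, ← (hsum 2 j).tsum_sub ((hsum 1 j).mul_left y),
      ← Summable.tsum_add ((hsum 2 j).sub ((hsum 1 j).mul_left y)) ((hsum 0 j).mul_left (y - x))]
    refine tsum_congr fun n => ?_
    rw [hS n, Nat.add_zero]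
    ring
  have recT : ∀ i, F i 3 = F i 2 - Y * F i 1 + (Y - X) * F i 0 := by
    intro i
    simp only [hF]
    rw [← tsum_mul_left, ← tsum_mul_left, ← (hsum i 2).tsum_sub ((hsum i 1).mul_left Y),
      ← Summable.tsum_add ((hsum i 2).sub ((hsum i 1).mul_left Y)) ((hsum i 0).mul_left (Y - X))]
    refine tsum_congr fun n => ?_
    rw [hT n, Nat.add_zero]
    ring
  have e00 := shift 0 0
  have e01 := shift 0 1
  have e10 := shift 1 0
  have e11 := shift 1 1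
  have e02 := shift 0 2
  have e20 := shift 2 0
  have e12 := shift 1 2
  have e21 := shift 2 1
  have e22 := shift 2 2
  norm_num only at e00 e01 e10 e11 e02 e20 e12 e21 e22
  rw [S0, T0] at e00
  rw [S0, T1] at e01
  rw [S1, T0] at e10
  rw [S1, T1] at e11
  rw [S0, T2] at e02
  rw [S2, T0] at e20
  rw [S1, T2] at e12
  rw [S2, T1] at e21
  rw [S2, T2] at e22
  have r1 := recS 1
  have r2 := recS 2
  have r3 := recT 1
  have r4 := recT 2
  have r5 := recS 3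
  have r6 := recT 0
  -- express everything through u0 u1 u2 v1 v2
  have f11 : F 1 1 = F 0 0 - 1 := by linarith
  have f12 : F 1 2 = F 0 1 - 1 := by linarith
  have f21 : F 2 1 = F 1 0 - 1 := by linarith
  have f22 : F 2 2 = F 0 0 - 2 := by linarith
  have f13 : F 1 3 = F 0 2 - 1 := by linarith
  have f31 : F 3 1 = F 2 0 - 1 := by linarith
  have f23 : F 2 3 = F 0 1 - 2 := by linarith
  have f32 : F 3 2 = F 1 0 - 2 := by linarith
  have f33 : F 3 3 = F 0 0 - 3 := by linarith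
  rw [f31, f21, f11] at r1
  rw [f32, f22, f12] at r2
  rw [f13, f12, f11] at r3
  rw [f23, f22, f21] at r4
  rw [f33, f23, f13, r6] at r5
  have goal1 : (∑' n, S n * T (n + 1)) = F 0 1 := rfl
  have goal2 : (∑' n, S (n + 1) * T n) = F 1 0 := rfl
  rw [goal1, goal2]
  generalize F 0 0 = u0 at *
  generalize F 0 1 = u1 at *
  generalize F 0 2 = u2 at *
  generalize F 1 0 = v1 at *
  generalize F 2 0 = v2 at *
  unfold Dn Nm
  linear_combination
    (2 * x * Y - 2 * x * X + 2 * y * X * Y - 2 * y * X ^ 2 - 3 * x * X * Y + 3 * x * X ^ 2 - 2 * x * y * Y ^ 2 + 3 * x * y * X * Y - 1 * x * y * X ^ 2 + 1 * x ^ 2 * Y ^ 2 - 2 * x ^ 2 * X * Y + 1 * x ^ 2 * X ^ 2 - 2 * y ^ 2 * X * Y ^ 2 + 3 * y ^ 2 * X ^ 2 * Y - 1 * y ^ 2 * X ^ 3 + 4 * x * y * X * Y ^ 2 - 6 * x * y * X ^ 2 * Y + 2 * x * y * X ^ 3 - 2 * x ^ 2 * X * Y ^ 2 + 3 * x ^ 2 * X ^ 2 * Y - 1 * x ^ 2 * X ^ 3) * r1 +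
    (-1 * X - 1 * x - 1 * y * X - 1 * x * Y + 3 * x * X + 1 * y * X * Y - 1 * y * X ^ 2 + 1 * x * X ^ 2 + 1 * x * y * Y - 1 * x * y * X + 1 * y ^ 2 * X * Y - 1 * y ^ 2 * X ^ 2 + 1 * x * y * Y ^ 2 - 4 * x * y * X * Y + 3 * x * y * X ^ 2 + 1 * x ^ 2 * X * Y - 1 * x ^ 2 * X ^ 2) * r2 +
    (-1 * y * X + 2 * x * X - 1 * x * y - 1 * y ^ 2 * X - 1 * x * y * Y + 3 * x * y * X + 2 * x ^ 2 * Y - 3 * x ^ 2 * X + 1 * y ^ 2 * X * Y - 1 * y ^ 2 * X ^ 2 - 2 * x * y * X * Y + 2 * x * y * X ^ 2 + 1 * x * y ^ 2 * Y - 1 * x * y ^ 2 * X + 1 * x ^ 2 * X * Y - 1 * x ^ 2 * X ^ 2 + 1 * y ^ 3 * X * Y - 1 * y ^ 3 * X ^ 2 + 1 * x * y ^ 2 * Y ^ 2 - 4 * x * y ^ 2 * X * Y + 3 * x * y ^ 2 * X ^ 2 - 2 * x ^ 2 * y * Y ^ 2 + 5 * x ^ 2 * y * X * Y - 3 * x ^ 2 * y * X ^ 2 + 1 * x ^ 3 * Y ^ 2 - 2 * x ^ 3 * X * Y + 1 * x ^ 3 * X ^ 2) * r3 +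
    (2 * x + 2 * y * X - 3 * x * X - 2 * x * y * Y + 1 * x * y * X + 1 * x ^ 2 * Y - 1 * x ^ 2 * X - 2 * y ^ 2 * X * Y + 1 * y ^ 2 * X ^ 2 + 4 * x * y * X * Y - 2 * x * y * X ^ 2 - 2 * x ^ 2 * X * Y + 1 * x ^ 2 * X ^ 2) * r4 +
    (-1 * X + 1 * x + 1 * y * X - 1 * x * Y + 1 * y * X * Y - 1 * x * X * Y - 1 * x * y * Y + 1 * x * y * X - 1 * y ^ 2 * X * Y + 1 * y ^ 2 * X ^ 2 + 1 * x * y * Y ^ 2 - 1 * x * y * X ^ 2 - 1 * x ^ 2 * Y ^ 2 + 1 * x ^ 2 * X * Y) * r5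

section

variable {α : Type*} [Fintype α] [DecidableEq α] [MeasurableSpace α] [MeasurableSingletonClass α]

/-- Closed form of the race between `aba` and `cdc`. -/
theorem winProb_aba (v : ProbVec α) (hv : ∀ a, 0 < v.p a) {a b c d : α} (hab : a ≠ b)
    (hcd : c ≠ d) :
    Dn (v.p a * v.p a * v.p b) (v.p a * v.p b) (v.p c * v.p c * v.p d) (v.p c * v.p d) *
      (2 * winProb v [a, b, a] [c, d, c] - 1) =
    Nm (v.p a * v.p a * v.p b) (v.p a * v.p b) (v.p c * v.p c * v.p d) (v.p c * v.p d) := by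
  set S := surv v.p [a, b, a] with hSdef
  set T := surv v.p [c, d, c] with hTdef
  have hp' : ∀ a, 0 ≤ v.p a := fun a => (hv a).le
  have hsumS : Summable S := summable_surv hv v.sum_eq _
  have hsum : ∀ i j, Summable fun n => S (n + i) * T (n + j) := by
    intro i j
    refine Summable.of_nonneg_of_le (fun n => ?_) (fun n => ?_)
      ((summable_nat_add_iff i).mpr hsumS)
    · exact mul_nonneg (surv_nonneg hp' _ _) (surv_nonneg hp' _ _)
    · exact mul_le_of_le_one_right (surv_nonneg hp' _ _) (surv_le_one hp' v.sum_eq _ _)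
  have hS0 : S 0 = 1 := surv_eq_one v.sum_eq _ 0 (by simp)
  have hS1 : S 1 = 1 := surv_eq_one v.sum_eq _ 1 (by simp)
  have hS2 : S 2 = 1 := surv_eq_one v.sum_eq _ 2 (by simp)
  have hT0 : T 0 = 1 := surv_eq_one v.sum_eq _ 0 (by simp)
  have hT1 : T 1 = 1 := surv_eq_one v.sum_eq _ 1 (by simp)
  have hT2 : T 2 = 1 := surv_eq_one v.sum_eq _ 2 (by simp)
  have h := casorati_sum (surv_aba v.p v.sum_eq hab) (surv_aba v.p v.sum_eq hcd)
    hS0 hS1 hS2 hT0 hT1 hT2 hsum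
  have hcas : HasSum (cas v.p [a, b, a] [c, d, c])
      ((∑' n, S n * T (n + 1)) - ∑' n, S (n + 1) * T n) := by
    have h1 := (hsum 0 1).hasSum.sub (hsum 1 0).hasSum
    exact h1
  have hlim := winProb_tendsto v hv [a, b, a] [c, d, c] (by simp) (by simp)
  rw [← tendsto_nhds_unique hlim hcas.tendsto_sum_nat] at h
  exact h

end

end Pool.Agent.V11300.PR
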