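import Pool.Agent.V11300.PR.Types

set_option linter.unusedSectionVars false
set_option linter.unusedVariables false

namespace Pool.Agent.V11300.PR

open Finset MeasureTheory

/-- the gap function -/
noncomputable def kap (s : ℝ) (m : ℕ) : ℝ := 5 * (4 / s) ^ m

/-- bad parameters for a pair of types -/
def Bad (s : ℝ) (m : ℕ) (w w' : List Bool) (B B' : Finset ℕ) : Set ℝ :=
  {θ | θ ∈ Set.Icc (1 / 4 : ℝ) (1 / 2) ∧
    |ee s θ w B - ee s θ w' B'| < kap s m * max (ee s θ w B) (ee s θ w' B')}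

/-- admissible types -/
structure Adm (w : List Bool) (B : Finset ℕ) : Prop where
  pos : 0 < w.length
  sub : B ⊆ range w.length
  top : w.length - 1 ∈ B

lemma kap_pos {s : ℝ} (hs : 0 < s) (m : ℕ) : 0 < kap s m := by unfold kap; positivity

lemma kap_le {s : ℝ} (hs : 1000000 ≤ s) {m : ℕ} (hm : 0 < m) : kap s m ≤ 1 / 50000 := by
  unfold kap
  have hs0 : 0 < s := by linarith
  have h1 : 4 / s ≤ 1 / 250000 := by rw [div_le_div_iff₀ hs0 (by norm_num)]; linarith
  have h2 : (4 / s) ^ m ≤ (4 / s) ^ 1 :=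
    pow_le_pow_of_le_one (by positivity) (by linarith) hm
  rw [pow_one] at h2
  linarith

lemma Bad_close {s : ℝ} (hs : 1000000 ≤ s) {m : ℕ} (hm : 0 < m) {w w' : List Bool}
    {B B' : Finset ℕ} (hA : Adm w B) (hA' : Adm w' B')
    (hct : w'.count true < w.count true) (hcf : w.count false < w'.count false)
    {θ θ' : ℝ} (hθ : θ ∈ Bad s m w w' B B') (hθ' : θ' ∈ Bad s m w w' B B') (hle : θ ≤ θ') :
    θ' - θ ≤ 4 * kap s m := by
  obtain ⟨⟨a1, a2⟩, a3⟩ := hθ
  obtain ⟨⟨b1, b2⟩, b3⟩ := hθ'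
  have hs0 : 0 < s := by linarith
  have hk0 := kap_pos hs0 m
  have hk1 := kap_le hs hm
  have hmono := ratio_mono (by linarith : (1000:ℝ) ≤ s) (by linarith) b2 hle hA.pos hA'.pos
    hA.sub hA'.sub hA.top hA'.top hct hcf
  have x0 := ee_pos hs0 (by linarith) a2 hA.pos hA.top
  have x1 := ee_pos hs0 (by linarith) a2 hA'.pos hA'.top
  have y0 := ee_pos hs0 (by linarith) b2 hA.pos hA.top
  have y1 := ee_pos hs0 (by linarith) b2 hA'.pos hA'.top
  set e := ee s θ w B
  set e' := ee s θ w' B'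
  set f := ee s θ' w B
  set f' := ee s θ' w' B'
  set k := kap s m
  -- bounds of the ratios
  have hr1 : (1 - k) * e ≤ e' := by
    rcases le_total e e' with h | h
    · nlinarith
    · rw [max_eq_left h] at a3
      have := (abs_lt.mp a3).2
      linarith
  have hr2 : (1 - k) * f' ≤ f := by
    rcases le_total f f' with h | h
    · rw [max_eq_right h] at b3
      have := (abs_lt.mp b3).1
      linarith
    · nlinarith
  -- f e' ≤ (1 - Δ/2) e f'
  by_contra hcon
  push Not at hcon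
  have h1k : 0 < 1 - k := by linarith
  have h3 : (1 - k) * f' * ((1 - k) * e) ≤ f * e' :=
    mul_le_mul hr2 hr1 (by positivity) y0.le
  have h4 : (1 - k) * f' * ((1 - k) * e) ≤ (1 - (θ' - θ) / 2) * (e * f') := h3.trans hmono
  have h5 : 0 < e * f' := by positivity
  have h6 : (1 - k) * f' * ((1 - k) * e) = (1 - k) ^ 2 * (e * f') := by ring
  rw [h6] at h4
  have h7 : (1 - k) ^ 2 ≤ 1 - (θ' - θ) / 2 := le_of_mul_le_mul_right h4 h5
  nlinarith

lemma Bad_empty {s : ℝ} (hs : 1000000 ≤ s) {m : ℕ} (hm : 0 < m) {w w' : List Bool}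
    {B B' : Finset ℕ} (hA : Adm w B) (hA' : Adm w' B')
    (hct : w'.count true ≤ w.count true) (hcf : w'.count false ≤ w.count false)
    (hne : w'.count true ≠ w.count true ∨ w'.count false ≠ w.count false) :
    Bad s m w w' B B' = ∅ := by
  ext θ
  simp only [Set.mem_empty_iff_false, iff_false]
  rintro ⟨⟨a1, a2⟩, a3⟩
  have hs0 : 0 < s := by linarith
  have h0 : (0:ℝ) ≤ θ := by linarith
  have hk0 := kap_pos hs0 m
  have hk1 := kap_le hs hm
  have x0 := ee_pos hs0 h0 a2 hA.pos hA.top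
  have x1 := ee_pos hs0 h0 a2 hA'.pos hA'.top
  have p1 := wB_pos hs0 h0 a2 w
  have p2 := wB_pos hs0 h0 a2 w'
  have hC := CC_ge_one hs0 h0 a2 hA.pos hA.top
  have hC' := CC_le (by linarith : (6:ℝ) ≤ s) h0 a2 hA'.sub
  have hs3 : 3 / s ≤ 1 := by rw [div_le_one hs0]; linarith
  -- wB w ≤ (3/(2s)) wB w'
  have hW : wB s θ w ≤ 3 / (2 * s) * wB s θ w' := by
    rw [wB_eq_count s θ w, wB_eq_count s θ w']
    obtain ⟨x, hx⟩ : ∃ x, w.count true = w'.count true + x := ⟨_, (Nat.add_sub_cancel' hct).symm⟩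
    obtain ⟨y, hy⟩ : ∃ y, w.count false = w'.count false + y :=
      ⟨_, (Nat.add_sub_cancel' hcf).symm⟩
    have hxy : 0 < x + y := by
      rcases hne with h | h <;> omega
    rw [hx, hy, pow_add, pow_add]
    set u : ℝ := (1 + θ) / s with hu
    set v : ℝ := (1 - θ) / s with hv
    have hu0 : 0 < u := div_pos (by linarith) hs0
    have hv0 : 0 < v := div_pos (by linarith) hs0
    set x3 : ℝ := 3 / (2 * s) with hx3
    have hx30 : 0 < x3 := by positivity
    have hx31 : x3 ≤ 1 := by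
      rw [hx3, div_le_one (by positivity)]; linarith
    have hux : u ≤ x3 := by
      rw [hu, hx3, div_le_div_iff₀ hs0 (by positivity)]; nlinarith
    have hvx : v ≤ x3 := by
      rw [hv, hx3, div_le_div_iff₀ hs0 (by positivity)]; nlinarith
    have h2 : u ^ x * v ^ y ≤ x3 := by
      calc u ^ x * v ^ y ≤ x3 ^ x * x3 ^ y :=
            mul_le_mul (pow_le_pow_left₀ hu0.le hux _) (pow_le_pow_left₀ hv0.le hvx _)
              (by positivity) (by positivity)
        _ = x3 ^ (x + y) := (pow_add _ _ _).symm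
        _ ≤ x3 ^ 1 := pow_le_pow_of_le_one hx30.le hx31 hxy
        _ = x3 := pow_one _
    have h3 : 0 ≤ u ^ w'.count true * v ^ w'.count false := by positivity
    nlinarith [mul_le_mul_of_nonneg_left h2 h3]
  have hlarge : 2 * ee s θ w' B' ≤ ee s θ w B := by
    rw [ee_eq hs0 h0 a2, ee_eq hs0 h0 a2, ← mul_div_assoc, div_le_div_iff₀ p2 p1]
    have h5 : 3 / (2 * s) ≤ 1 / 4 := by
      rw [div_le_div_iff₀ (by positivity) (by norm_num)]; linarith
    have h6 : wB s θ w ≤ 1 / 4 * wB s θ w' := hW.trans (mul_le_mul_of_nonneg_right h5 p2.le)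
    calc 2 * CC s θ w' B' * wB s θ w ≤ 2 * 2 * (1 / 4 * wB s θ w') := by
          refine mul_le_mul ?_ h6 p1.le (by norm_num)
          linarith
      _ = 1 * wB s θ w' := by ring
      _ ≤ CC s θ w B * wB s θ w' := mul_le_mul_of_nonneg_right hC p2.le
  rw [max_eq_left (by linarith)] at a3
  have := (abs_lt.mp a3).2
  nlinarith

lemma Bad_swap (s : ℝ) (m : ℕ) (w w' : List Bool) (B B' : Finset ℕ) :
    Bad s m w w' B B' = Bad s m w' w B' B := by
  ext θ
  simp only [Bad, Set.mem_ofPred_eq]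
  rw [abs_sub_comm, max_comm]

lemma Bad_volume {s : ℝ} (hs : 1000000 ≤ s) {m : ℕ} (hm : 0 < m) {w w' : List Bool}
    {B B' : Finset ℕ} (hA : Adm w B) (hA' : Adm w' B')
    (hne : w'.count true ≠ w.count true ∨ w'.count false ≠ w.count false) :
    volume (Bad s m w w' B B') ≤ ENNReal.ofReal (4 * kap s m) := by
  have hs0 : 0 < s := by linarith
  have key : ∀ (w w' : List Bool) (B B' : Finset ℕ), Adm w B → Adm w' B' →
      w'.count true < w.count true → w.count false < w'.count false →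
      volume (Bad s m w w' B B') ≤ ENNReal.ofReal (4 * kap s m) := by
    intro w w' B B' hA hA' h1 h2
    refine (Real.volume_le_diam _).trans ?_
    refine Metric.ediam_le fun x hx y hy => ?_
    rw [edist_dist]
    apply ENNReal.ofReal_le_ofReal
    rw [Real.dist_eq]
    rcases le_total x y with h | h
    · rw [abs_sub_comm, abs_of_nonneg (by linarith)]
      exact Bad_close hs hm hA hA' h1 h2 hx hy h
    · rw [abs_of_nonneg (by linarith)]
      exact Bad_close hs hm hA hA' h1 h2 hy hx h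
  rcases lt_trichotomy (w'.count true) (w.count true) with h1 | h1 | h1
  · rcases Nat.lt_or_ge (w.count false) (w'.count false) with h2 | h2
    · exact key w w' B B' hA hA' h1 h2
    · rw [Bad_empty hs hm hA hA' h1.le h2 hne]; simp
  · rcases Nat.lt_or_ge (w.count false) (w'.count false) with h2 | h2
    · rw [Bad_swap, Bad_empty hs hm hA' hA h1.ge h2.le (by
        rcases hne with h | h
        · exact absurd h1 h
        · exact Or.inr (Ne.symm h))]
      simp
    · rw [Bad_empty hs hm hA hA' h1.le h2 hne]; simp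
  · rcases Nat.lt_or_ge (w'.count false) (w.count false) with h2 | h2
    · rw [Bad_swap]; exact key w' w B' B hA' hA h1 h2
    · rw [Bad_swap, Bad_empty hs hm hA' hA h1.le h2 (by
        rcases hne with h | h
        · exact Or.inl (Ne.symm h)
        · exact Or.inr (Ne.symm h))]
      simp

/-! ### The union bound -/

/-- index type of the types of length at most `m` -/
abbrev Idx (m : ℕ) := (Fin m → Bool) × Finset (Fin m) × Fin (m + 1)

def Idx.w {m : ℕ} (i : Idx m) : List Bool := (List.ofFn i.1).take i.2.2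

def Idx.B {m : ℕ} (i : Idx m) : Finset ℕ := i.2.1.map Fin.valEmbedding

lemma card_Idx (m : ℕ) : Fintype.card (Idx m) ≤ 8 ^ m := by
  simp only [Idx, Fintype.card_prod, Fintype.card_fun, Fintype.card_bool, Fintype.card_fin,
    Fintype.card_finset]
  have h1 : m + 1 ≤ 2 ^ m := Nat.lt_two_pow_self
  calc 2 ^ m * (2 ^ m * (m + 1)) ≤ 2 ^ m * (2 ^ m * 2 ^ m) := by gcongr
    _ = 8 ^ m := by rw [← mul_pow, ← mul_pow]; norm_num

open Classical in
/-- the exceptional set at level `m` -/
noncomputable def BadLevel (s : ℝ) (m : ℕ) : Set ℝ :=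
  ⋃ ij : Idx m × Idx m, if Adm ij.1.w ij.1.B ∧ Adm ij.2.w ij.2.B ∧
    (ij.2.w.count true ≠ ij.1.w.count true ∨ ij.2.w.count false ≠ ij.1.w.count false)
    then Bad s m ij.1.w ij.2.w ij.1.B ij.2.B else ∅

lemma BadLevel_volume {s : ℝ} (hs : 1000000 ≤ s) {m : ℕ} (hm : 0 < m) :
    volume (BadLevel s m) ≤ ENNReal.ofReal (20 * (256 / s) ^ m) := by
  classical
  have hs0 : 0 < s := by linarith
  unfold BadLevel
  refine (measure_iUnion_le _).trans ?_
  rw [tsum_fintype]
  have h1 : ∀ ij : Idx m × Idx m, volume (if Adm ij.1.w ij.1.B ∧ Adm ij.2.w ij.2.B ∧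
      (ij.2.w.count true ≠ ij.1.w.count true ∨ ij.2.w.count false ≠ ij.1.w.count false)
      then Bad s m ij.1.w ij.2.w ij.1.B ij.2.B else ∅) ≤ ENNReal.ofReal (4 * kap s m) := by
    intro ij
    split_ifs with h
    · exact Bad_volume hs hm h.1 h.2.1 h.2.2
    · simp
  refine (Finset.sum_le_sum fun ij _ => h1 ij).trans ?_
  rw [Finset.sum_const, Finset.card_univ, Fintype.card_prod, nsmul_eq_mul]
  have h2 : Fintype.card (Idx m) * Fintype.card (Idx m) ≤ 64 ^ m := by
    calc Fintype.card (Idx m) * Fintype.card (Idx m) ≤ 8 ^ m * 8 ^ m :=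
          Nat.mul_le_mul (card_Idx m) (card_Idx m)
      _ = 64 ^ m := by rw [← mul_pow]; norm_num
  calc ((Fintype.card (Idx m) * Fintype.card (Idx m) : ℕ) : ENNReal) *
        ENNReal.ofReal (4 * kap s m) ≤ ((64 ^ m : ℕ) : ENNReal) * ENNReal.ofReal (4 * kap s m) := by
        gcongr
    _ = ENNReal.ofReal ((64 ^ m : ℕ) * (4 * kap s m)) := by
        rw [ENNReal.ofReal_mul (show (0:ℝ) ≤ ((64 ^ m : ℕ) : ℝ) by positivity),
          ENNReal.ofReal_natCast]
    _ = ENNReal.ofReal (20 * (256 / s) ^ m) := by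
        congr 1
        unfold kap
        push_cast
        have : (256 / s : ℝ) ^ m = 64 ^ m * (4 / s) ^ m := by rw [← mul_pow]; congr 1; ring
        rw [this]; ring

/-- There is a parameter outside all the exceptional sets. -/
theorem exists_good {s : ℝ} (hs : 1000000 ≤ s) :
    ∃ θ ∈ Set.Icc (1 / 4 : ℝ) (1 / 2), ∀ m : ℕ, 0 < m → θ ∉ BadLevel s m := by
  have hs0 : 0 < s := by linarith
  have hx : 256 / s ≤ 1 / 3000 := by rw [div_le_div_iff₀ hs0 (by norm_num)]; linarith
  have hx0 : 0 < 256 / s := by positivity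
  have hvol : volume (⋃ n : ℕ, BadLevel s (n + 1)) ≤ ENNReal.ofReal (1 / 8) := by
    refine (measure_iUnion_le _).trans ?_
    have h1 : ∀ n : ℕ, volume (BadLevel s (n + 1)) ≤ ENNReal.ofReal (1 / 16 * (1 / 2) ^ n) := by
      intro n
      refine (BadLevel_volume hs (Nat.succ_pos n)).trans (ENNReal.ofReal_le_ofReal ?_)
      have h2 : (256 / s) ^ n ≤ (1 / 2 : ℝ) ^ n := pow_le_pow_left₀ hx0.le (by linarith) n
      rw [pow_succ]
      have h3 : (256 / s) ^ n * (256 / s) ≤ (1 / 2 : ℝ) ^ n * (1 / 3000) :=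
        mul_le_mul h2 hx hx0.le (by positivity)
      have h4 : (0:ℝ) < (1 / 2) ^ n := by positivity
      linarith
    have hsummable : Summable fun n : ℕ => (1 / 16 : ℝ) * (1 / 2) ^ n :=
      (summable_geometric_of_lt_one (by norm_num) (by norm_num)).mul_left _
    calc ∑' n, volume (BadLevel s (n + 1)) ≤ ∑' n : ℕ, ENNReal.ofReal (1 / 16 * (1 / 2) ^ n) :=
          ENNReal.tsum_le_tsum h1
      _ = ENNReal.ofReal (∑' n : ℕ, 1 / 16 * (1 / 2) ^ n) :=
          (ENNReal.ofReal_tsum_of_nonneg (fun n => by positivity) hsummable).symm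
      _ = ENNReal.ofReal (1 / 8) := by
          rw [tsum_mul_left, tsum_geometric_of_lt_one (by norm_num) (by norm_num)]
          norm_num
  by_contra hcon
  push Not at hcon
  have hsub : Set.Icc (1 / 4 : ℝ) (1 / 2) ⊆ ⋃ n : ℕ, BadLevel s (n + 1) := by
    intro θ hθ
    obtain ⟨m, hm, hmem⟩ := hcon θ hθ
    rw [Set.mem_iUnion]
    exact ⟨m - 1, by rwa [Nat.sub_add_cancel hm]⟩
  have h2 := (measure_mono hsub).trans hvol
  rw [Real.volume_Icc] at h2
  have h3 := (ENNReal.ofReal_le_ofReal_iff (by norm_num)).mp h2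
  norm_num at h3

/-- Genericity: two admissible types with different contents have well separated means. -/
theorem generic_sep {s θ : ℝ} (hθ : θ ∈ Set.Icc (1 / 4 : ℝ) (1 / 2))
    (hgood : ∀ m : ℕ, 0 < m → θ ∉ BadLevel s m) {w w' : List Bool} {B B' : Finset ℕ}
    (hA : Adm w B) (hA' : Adm w' B')
    (hne : w'.count true ≠ w.count true ∨ w'.count false ≠ w.count false) {m : ℕ}
    (hm : w.length ≤ m) (hm' : w'.length ≤ m) :
    kap s m * max (ee s θ w B) (ee s θ w' B') ≤ |ee s θ w B - ee s θ w' B'| := by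
  classical
  have hmpos : 0 < m := lt_of_lt_of_le hA.pos hm
  by_contra hcon
  push Not at hcon
  apply hgood m hmpos
  unfold BadLevel
  rw [Set.mem_iUnion]
  have hrep : ∀ (w : List Bool) (B : Finset ℕ), Adm w B → w.length ≤ m →
      ∃ i : Idx m, i.w = w ∧ i.B = B := by
    intro w B hA hm
    refine ⟨⟨fun i => w.getD i false, Finset.univ.filter (fun i : Fin m => (i : ℕ) ∈ B),
      ⟨w.length, by omega⟩⟩, ?_, ?_⟩
    · apply List.ext_getElem
      · simp [Idx.w, hm]
      · intro i h1 h2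
        simp [Idx.w, List.getD_eq_getElem?_getD, h2]
    · ext k
      simp only [Idx.B, Finset.mem_map, Finset.mem_filter, Finset.mem_univ, true_and,
        Fin.valEmbedding_apply]
      constructor
      · rintro ⟨i, hi, rfl⟩; exact hi
      · intro hk
        have := Finset.mem_range.mp (hA.sub hk)
        exact ⟨⟨k, by omega⟩, hk, rfl⟩
  obtain ⟨i, hi1, hi2⟩ := hrep w B hA hm
  obtain ⟨j, hj1, hj2⟩ := hrep w' B' hA' hm'
  refine ⟨⟨i, j⟩, ?_⟩
  simp only [hi1, hi2, hj1, hj2]
  rw [if_pos ⟨hA, hA', hne⟩]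
  exact ⟨hθ, hcon⟩

end Pool.Agent.V11300.PR
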