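import Pool.Agent.V11300.PR.Refined
import Pool.Agent.V11300.PR.Generic

set_option linter.unusedSectionVars false
set_option linter.unusedVariables false

namespace Pool.Agent.V11300.PR

open Finset Filter Topology

section words

variable {α : Type*} [Fintype α] [DecidableEq α]

/-- coefficient data of a word -/
noncomputable def cc (p : α → ℝ) (A : List α) (k : ℕ) : ℝ :=
  if A.take (k + 1) = A.drop (A.length - (k + 1)) then (wt p (A.take (k + 1)))⁻¹ else 0

/-- the mean waiting time -/
noncomputable def EE (p : α → ℝ) (A : List α) : ℝ := ∑ k ∈ range A.length, cc p A k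

lemma wt_append (p : α → ℝ) (u w : List α) : wt p (u ++ w) = wt p u * wt p w := by
  simp [wt]

lemma cc_nonneg {p : α → ℝ} (hp : ∀ a, 0 < p a) (A : List α) (k : ℕ) : 0 ≤ cc p A k := by
  unfold cc
  split_ifs
  · exact inv_nonneg.mpr (wt_pos hp _).le
  · exact le_rfl

lemma cc_top {p : α → ℝ} (A : List α) (hA : A ≠ []) : cc p A (A.length - 1) = (wt p A)⁻¹ := by
  have h : 0 < A.length := List.length_pos_of_ne_nil hA
  unfold cc
  rw [Nat.sub_add_cancel h, List.take_length, Nat.sub_self, List.drop_zero, if_pos rfl]

lemma survSys_word {p : α → ℝ} (hp : ∀ a, 0 < p a) (hs : ∑ a, p a = 1) (A : List α)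
    (hA : A ≠ []) : SurvSys (surv p A) A.length (cc p A) (wt p A) where
  Lpos := List.length_pos_of_ne_nil hA
  nonneg := surv_nonneg (fun a => (hp a).le) A
  anti := surv_anti (fun a => (hp a).le) hs A
  one := fun n hn => surv_eq_one hs A n hn
  summ := summable_surv hp hs A
  cnonneg := cc_nonneg hp A
  rec_eq := by
    intro n
    have h := surv_renewal p hs A hA n
    have hw := wt_pos hp A
    have h2 : surv p A n = ∑ k ∈ (Finset.Icc 1 A.length).filter
        (fun k => A.take k = A.drop (A.length - k)),
        (wt p (A.take k))⁻¹ * (surv p A (n + k - 1) - surv p A (n + k)) := by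
      have h3 : ∀ k ∈ (Finset.Icc 1 A.length).filter
          (fun k => A.take k = A.drop (A.length - k)),
          wt p (A.drop k) * (surv p A (n + k - 1) - surv p A (n + k)) =
          wt p A * ((wt p (A.take k))⁻¹ * (surv p A (n + k - 1) - surv p A (n + k))) := by
        intro k _
        have h4 : wt p A = wt p (A.take k) * wt p (A.drop k) := by
          rw [← wt_append, List.take_append_drop]
        have h5 := (wt_pos hp (A.take k)).ne'
        rw [h4]
        field_simp
      rw [Finset.sum_congr rfl h3, ← Finset.mul_sum] at h
      exact mul_left_cancel₀ hw.ne' h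
    rw [h2, Finset.sum_filter, ← Finset.sum_subset (s₁ := Finset.Icc 1 A.length) (by rfl)
      (by intro x hx hx'; exact absurd hx hx')]
    rw [Finset.range_eq_Ico, Finset.sum_bij (fun (k : ℕ) (_ : k ∈ Finset.Icc 1 A.length) => k - 1)]
    · intro k hk
      rw [Finset.mem_Icc] at hk
      rw [Finset.mem_Ico]
      omega
    · intro a ha b hb hab
      rw [Finset.mem_Icc] at ha hb
      omega
    · intro b hb
      rw [Finset.mem_Ico] at hb
      exact ⟨b + 1, by rw [Finset.mem_Icc]; omega, by omega⟩
    · intro k hk
      rw [Finset.mem_Icc] at hk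
      obtain ⟨j, rfl⟩ : ∃ j, k = j + 1 := ⟨k - 1, by omega⟩
      unfold cc
      simp only [Nat.add_sub_cancel]
      rw [show n + (j + 1) - 1 = n + j by omega, show n + (j + 1) = n + j + 1 by omega]
      split_ifs <;> ring
  ρpos := wt_pos hp A
  top := cc_top A hA

lemma cc_take {p : α → ℝ} {A : List α} {j : ℕ} (hj : j < A.length)
    (hb : A.take (j + 1) = A.drop (A.length - (j + 1))) {k : ℕ} (hk : k ≤ j) :
    cc p (A.take (j + 1)) k = cc p A k := by
  unfold cc
  have e1 : (A.take (j + 1)).take (k + 1) = A.take (k + 1) := by
    rw [List.take_take, Nat.min_eq_left (by omega)]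
  have e2 : (A.take (j + 1)).drop ((A.take (j + 1)).length - (k + 1)) =
      A.drop (A.length - (k + 1)) := by
    rw [List.length_take, Nat.min_eq_left (by omega), hb, List.drop_drop]
    congr 1
    omega
  rw [e1, e2]

lemma EE_take {p : α → ℝ} {A : List α} {j : ℕ} (hj : j < A.length)
    (hb : A.take (j + 1) = A.drop (A.length - (j + 1))) :
    EE p (A.take (j + 1)) = ∑ k ∈ range (j + 1), cc p A k := by
  unfold EE
  rw [List.length_take, Nat.min_eq_left (by omega)]
  refine Finset.sum_congr rfl fun k hk => ?_
  rw [mem_range] at hk
  exact cc_take hj hb (by omega)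

lemma top_border (p : α → ℝ) (A : List α) (l : ℕ) (hl : l ≤ A.length) :
    (∀ k < l, cc p A k = 0) ∨ ∃ j < l, A.take (j + 1) = A.drop (A.length - (j + 1)) ∧
      (∀ k, j < k → k < l → cc p A k = 0) ∧
      ∑ k ∈ range l, cc p A k = EE p (A.take (j + 1)) := by
  induction l with
  | zero => left; intro k hk; omega
  | succ l ih =>
    by_cases hb : A.take (l + 1) = A.drop (A.length - (l + 1))
    · right
      exact ⟨l, Nat.lt_succ_self l, hb, fun k h1 h2 => by omega, (EE_take (by omega) hb).symm⟩
    · have hc : cc p A l = 0 := by unfold cc; rw [if_neg hb]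
      rcases ih (by omega) with h | ⟨j, hj, h1, h2, h3⟩
      · left
        intro k hk
        rcases Nat.lt_or_ge k l with h4 | h4
        · exact h k h4
        · rw [show k = l by omega]; exact hc
      · right
        refine ⟨j, by omega, h1, fun k h4 h5 => ?_, ?_⟩
        · rcases Nat.lt_or_ge k l with h6 | h6
          · exact h2 k h4 h6
          · rw [show k = l by omega]; exact hc
        · rw [Finset.sum_range_succ, hc, add_zero, h3]

end words

section two

variable {α : Type*} [Fintype α] [DecidableEq α] {s θ : ℝ} {p : α → ℝ} {cl : α → Bool}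

/-- border positions -/
def BB (A : List α) : Finset ℕ :=
  (range A.length).filter fun k => A.take (k + 1) = A.drop (A.length - (k + 1))

lemma wt_eq (hp : ∀ a, p a = q s θ (cl a)) (A : List α) : wt p A = wB s θ (A.map cl) := by
  unfold wt wB
  rw [List.map_map]
  congr 1
  exact List.map_congr_left fun a _ => hp a

lemma EE_eq (hp : ∀ a, p a = q s θ (cl a)) (A : List α) :
    EE p A = ee s θ (A.map cl) (BB A) := by
  unfold EE ee BB
  rw [Finset.sum_filter]
  refine Finset.sum_congr rfl fun k _ => ?_
  unfold cc
  rw [wt_eq hp, List.map_take]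

lemma adm_word (A : List α) (hA : A ≠ []) : Adm (A.map cl) (BB A) := by
  have h : 0 < A.length := List.length_pos_of_ne_nil hA
  refine ⟨by simpa using h, ?_, ?_⟩
  · rw [List.length_map]; exact Finset.filter_subset _ _
  · rw [List.length_map]
    unfold BB
    rw [Finset.mem_filter, mem_range]
    refine ⟨by omega, ?_⟩
    rw [Nat.sub_add_cancel h, List.take_length, Nat.sub_self, List.drop_zero]

lemma count_add (w : List Bool) : w.count true + w.count false = w.length := by
  induction w with
  | nil => simp
  | cons b w ih => cases b <;> simp <;> omega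

/-- The order of the means decides every race. -/
theorem adv_nonpos (hs : 1000000 ≤ s) (hθ : θ ∈ Set.Icc (1 / 4 : ℝ) (1 / 2))
    (hgood : ∀ m : ℕ, 0 < m → θ ∉ BadLevel s m) (hp : ∀ a, p a = q s θ (cl a))
    (hsum : ∑ a, p a = 1) {A B : List α} (hA : A ≠ []) (hB : B ≠ []) (hAB : EE p B ≤ EE p A) :
    adv (surv p A) (surv p B) ≤ 0 := by
  have hs0 : 0 < s := by linarith
  have h0 : (0:ℝ) ≤ θ := by linarith [hθ.1]
  have h1 : θ ≤ 1 / 2 := hθ.2
  have hpos : ∀ a, 0 < p a := fun a => by rw [hp a]; exact q_pos hs0 h0 h1 _
  have sA := survSys_word hpos hsum A hA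
  have sB := survSys_word hpos hsum B hB
  have aA : Adm (A.map cl) (BB A) := adm_word A hA
  have aB : Adm (B.map cl) (BB B) := adm_word B hB
  have hEA := EE_eq hp A
  have hEB := EE_eq hp B
  have hwA := wt_eq hp A
  have hwB := wt_eq hp B
  have hLA : (A.map cl).length = A.length := List.length_map _
  have hLB : (B.map cl).length = B.length := List.length_map _
  -- normalised means
  have hρE : ∀ (C : List α), C ≠ [] → wt p C * EE p C ≤ 1 + 3 / s := by
    intro C hC
    have aC : Adm (C.map cl) (BB C) := adm_word C hC
    rw [wt_eq hp C, EE_eq hp C, ee_eq hs0 h0 h1]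
    rw [mul_div_cancel₀ _ (wB_pos hs0 h0 h1 _).ne']
    exact CC_le (by linarith) h0 h1 aC.sub
  have h3s : 3 / s ≤ 1 / 100 := by rw [div_le_div_iff₀ hs0 (by norm_num)]; linarith
  have hEpos : ∀ (C : List α), C ≠ [] → 0 < EE p C := by
    intro C hC
    have aC : Adm (C.map cl) (BB C) := adm_word C hC
    rw [EE_eq hp C]
    exact ee_pos hs0 h0 h1 aC.pos aC.top
  have hElarge : ∀ (C : List α), C ≠ [] → (2 * s / 3) ^ C.length ≤ EE p C := by
    intro C hC
    have aC : Adm (C.map cl) (BB C) := adm_word C hC
    rw [EE_eq hp C, ee_eq hs0 h0 h1]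
    have h4 := CC_ge_one hs0 h0 h1 aC.pos aC.top
    have h5 := wB_le hs0 h0 h1 (C.map cl)
    have h6 := wB_pos hs0 h0 h1 (C.map cl)
    rw [List.length_map] at h5
    rw [le_div_iff₀ h6]
    have h7 : (2 * s / 3) ^ C.length * (3 / (2 * s)) ^ C.length = 1 := by
      rw [← mul_pow]
      have : 2 * s / 3 * (3 / (2 * s)) = 1 := by field_simp
      rw [this, one_pow]
    have h8 : (2 * s / 3) ^ C.length * wB s θ (C.map cl) ≤
        (2 * s / 3) ^ C.length * (3 / (2 * s)) ^ C.length :=
      mul_le_mul_of_nonneg_left h5 (by positivity)
    linarith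
  by_cases hcont : (B.map cl).count true ≠ (A.map cl).count true ∨
      (B.map cl).count false ≠ (A.map cl).count false
  · -- different contents
    set m : ℕ := max A.length B.length with hm
    have hsep := generic_sep hθ hgood aA aB hcont (m := m) (by rw [hLA]; exact le_max_left _ _)
      (by rw [hLB]; exact le_max_right _ _)
    rw [← hEA, ← hEB, max_eq_left hAB, abs_of_nonneg (by linarith)] at hsep
    have hEm : (2 * s / 3) ^ m ≤ EE p A := by
      rcases le_total A.length B.length with h | h
      · rw [hm, max_eq_right h]; exact (hElarge B hB).trans hAB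
      · rw [hm, max_eq_left h]; exact hElarge A hA
    have hkE : 5 * ((m : ℝ) + 1) ≤ kap s m * EE p A := by
      have h2 : kap s m * (2 * s / 3) ^ m = 5 * (8 / 3) ^ m := by
        unfold kap
        rw [mul_assoc, ← mul_pow]
        congr 2
        field_simp
        norm_num
      have h3 : kap s m * (2 * s / 3) ^ m ≤ kap s m * EE p A :=
        mul_le_mul_of_nonneg_left hEm (kap_pos hs0 m).le
      have h4 : ((m : ℝ) + 1) ≤ 2 ^ m := by exact_mod_cast Nat.lt_two_pow_self (n := m)
      have h5 : (2:ℝ) ^ m ≤ (8 / 3) ^ m := pow_le_pow_left₀ (by norm_num) (by norm_num) m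
      linarith
    refine (adv_neg_of_gap sA sB ?_ ?_).le
    · have := hρE B hB
      unfold EE at this
      linarith
    · have hBm : (B.length : ℝ) ≤ m := by exact_mod_cast le_max_right _ _
      have : 4 * (B.length : ℝ) < EE p A - EE p B := by linarith
      exact this
  · -- same contents
    push Not at hcont
    obtain ⟨hc1, hc2⟩ := hcont
    have hL : A.length = B.length := by
      have e1 := count_add (A.map cl)
      have e2 := count_add (B.map cl)
      rw [hLA] at e1
      rw [hLB] at e2
      omega
    have hρ : wt p A = wt p B := by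
      rw [hwA, hwB, wB_eq_count, wB_eq_count, hc1, hc2]
    set L : ℕ := A.length with hLdef
    have hLpos : 0 < L := List.length_pos_of_ne_nil hA
    set ρ : ℝ := wt p A with hρdef
    have hρ0 : 0 < ρ := wt_pos hpos A
    have sB' : SurvSys (surv p B) L (cc p B) ρ := by
      rw [hρ, hL]; exact sB
    by_cases hall : ∀ k < L, cc p A k = cc p B k
    · have := surv_eq_of_same sA sB' hall
      unfold adv
      rw [this]
      have hz : ∀ n, surv p B n * surv p B (n + 1) - surv p B (n + 1) * surv p B n = 0 :=
        fun n => by ring
      simp [hz]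
    · push Not at hall
      obtain ⟨k0, hk0, hne0⟩ := hall
      -- the largest difference
      classical
      set P : ℕ → Prop := fun k => k < L ∧ cc p A k ≠ cc p B k with hP
      have hPex : P k0 := ⟨hk0, hne0⟩
      set ks := Nat.findGreatest P L with hks
      have hks1 : P ks := Nat.findGreatest_spec (P := P) (by omega) hPex
      have hks2 : ∀ k, ks < k → k < L → cc p A k = cc p B k := by
        intro k h2 h3
        by_contra h4
        have := Nat.le_findGreatest (P := P) h3.le ⟨h3, h4⟩
        omega
      obtain ⟨hksL, hksne⟩ := hks1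
      have htop : cc p A (L - 1) = cc p B (L - 1) := by rw [sA.top, sB'.top]
      have hksL1 : ks < L - 1 := by
        rcases Nat.lt_or_ge ks (L - 1) with h | h
        · exact h
        · exfalso; apply hksne; rw [show ks = L - 1 by omega]; exact htop
      set l : ℕ := ks + 1 with hl
      have hlL : l ≤ L - 1 := by omega
      have hlpos : 0 < l := by omega
      -- split sums
      have hsplit : ∀ (f : ℕ → ℝ), ∑ k ∈ range L, f k =
          ∑ k ∈ range l, f k + ∑ k ∈ Finset.Ico l L, f k := fun f =>
        (Finset.sum_range_add_sum_Ico f (by omega)).symm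
      have hdiff : EE p A - EE p B =
          ∑ k ∈ range l, cc p A k - ∑ k ∈ range l, cc p B k := by
        have e1 : EE p A = ∑ k ∈ range L, cc p A k := rfl
        have e2 : EE p B = ∑ k ∈ range L, cc p B k := by unfold EE; rw [← hL]
        rw [e1, e2, hsplit (cc p A), hsplit (cc p B)]
        have e3 : ∑ k ∈ Finset.Ico l L, cc p A k = ∑ k ∈ Finset.Ico l L, cc p B k := by
          refine Finset.sum_congr rfl fun k hk => ?_
          rw [Finset.mem_Ico] at hk
          exact hks2 k (by omega) hk.2
        rw [e3]; ring
      set a : ℝ := ∑ k ∈ range l, cc p A k with ha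
      set b : ℝ := ∑ k ∈ range l, cc p B k with hb
      have ha0 : 0 ≤ a := Finset.sum_nonneg fun k _ => cc_nonneg hpos A k
      have hb0 : 0 ≤ b := Finset.sum_nonneg fun k _ => cc_nonneg hpos B k
      have hδ : ∑ k ∈ range (L - 1), |cc p A k - cc p B k| ≤ a + b := by
        have e1 : ∑ k ∈ range (L - 1), |cc p A k - cc p B k| =
            ∑ k ∈ range l, |cc p A k - cc p B k| := by
          symm
          refine Finset.sum_subset (Finset.range_mono hlL) fun k h2 h3 => ?_
          rw [mem_range] at h2 h3
          rw [hks2 k (by omega) (by omega), sub_self, abs_zero]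
        rw [e1, ha, hb, ← Finset.sum_add_distrib]
        refine Finset.sum_le_sum fun k _ => ?_
        rw [abs_le]
        constructor <;> linarith [cc_nonneg hpos A k, cc_nonneg hpos B k]
      -- the key lower bound
      have hk1 := kap_le hs hlpos
      have hsepab : kap s l * max a b ≤ |a - b| ∧ 0 < max a b := by
        rcases top_border p A l (by omega) with hA' | ⟨i, hi, bi, mi, Ei⟩
        · rcases top_border p B l (by omega) with hB' | ⟨j, hj, bj, mj, Ej⟩
          · exfalso; apply hksne; rw [hA' ks (by omega), hB' ks (by omega)]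
          · have haz : a = 0 := Finset.sum_eq_zero fun k hk => hA' k (mem_range.mp hk)
            have hbp : 0 < b := by
              rw [hb, Ej]; exact hEpos _ (by
                intro h; have := congrArg List.length h
                rw [List.length_take, List.length_nil] at this; omega)
            rw [haz, max_eq_right hb0, zero_sub, abs_neg, abs_of_nonneg hb0]
            exact ⟨by nlinarith, hbp⟩
        · rcases top_border p B l (by omega) with hB' | ⟨j, hj, bj, mj, Ej⟩
          · have hbz : b = 0 := Finset.sum_eq_zero fun k hk => hB' k (mem_range.mp hk)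
            have hap : 0 < a := by
              rw [ha, Ei]; exact hEpos _ (by
                intro h; have := congrArg List.length h
                rw [List.length_take, List.length_nil] at this; omega)
            rw [hbz, max_eq_left ha0, sub_zero, abs_of_nonneg ha0]
            exact ⟨by nlinarith, hap⟩
          · have hu : A.take (i + 1) ≠ [] := by
              intro h; have := congrArg List.length h
              rw [List.length_take, List.length_nil] at this; omega
            have hv : B.take (j + 1) ≠ [] := by
              intro h; have := congrArg List.length h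
              rw [List.length_take, List.length_nil] at this; omega
            have hul : (A.take (i + 1)).length = i + 1 := by rw [List.length_take]; omega
            have hvl : (B.take (j + 1)).length = j + 1 := by rw [List.length_take]; omega
            have hne : ((B.take (j + 1)).map cl).count true ≠
                ((A.take (i + 1)).map cl).count true ∨
                ((B.take (j + 1)).map cl).count false ≠
                ((A.take (i + 1)).map cl).count false := by
              by_contra hcon
              push Not at hcon
              obtain ⟨q1, q2⟩ := hcon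
              have e1 := count_add ((A.take (i + 1)).map cl)
              have e2 := count_add ((B.take (j + 1)).map cl)
              rw [List.length_map, hul] at e1
              rw [List.length_map, hvl] at e2
              have hij : i = j := by omega
              subst hij
              rcases Nat.lt_or_ge i ks with h2 | h2
              · apply hksne; rw [mi ks h2 (by omega), mj ks h2 (by omega)]
              · have hik : i = ks := by omega
                apply hksne
                rw [← hik]
                unfold cc
                rw [if_pos bi, if_pos bj, wt_eq hp, wt_eq hp, wB_eq_count, wB_eq_count, q1, q2]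
            have hsep := generic_sep hθ hgood (adm_word (cl := cl) _ hu)
              (adm_word (cl := cl) _ hv) hne (m := l)
              (by rw [List.length_map, hul]; omega) (by rw [List.length_map, hvl]; omega)
            rw [← EE_eq hp, ← EE_eq hp, ← Ei, ← Ej] at hsep
            refine ⟨hsep, lt_max_of_lt_left ?_⟩
            rw [ha, Ei]; exact hEpos _ hu
      obtain ⟨hsep, hmax0⟩ := hsepab
      have hab : 0 ≤ a - b := by rw [← hdiff]; linarith
      rw [abs_of_nonneg hab] at hsep
      -- smallness of ρ
      have hρle : ρ ≤ (3 / (2 * s)) ^ L := by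
        rw [hwA]
        have := wB_le hs0 h0 h1 (A.map cl)
        rwa [hLA] at this
      have hkey : 68 * L * ρ < kap s l := by
        obtain ⟨n, hn⟩ : ∃ n, L = n + 1 := ⟨L - 1, by omega⟩
        have e1 : kap s (L - 1) ≤ kap s l := by
          unfold kap
          have : (4 / s) ^ (L - 1) ≤ (4 / s) ^ l :=
            pow_le_pow_of_le_one (by positivity) (by rw [div_le_one hs0]; linarith) hlL
          linarith
        refine lt_of_lt_of_le ?_ e1
        have e2 : (L : ℝ) * ρ ≤ L * (3 / (2 * s)) ^ L :=
          mul_le_mul_of_nonneg_left hρle (Nat.cast_nonneg _)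
        have e3 : (L : ℝ) * (3 / (2 * s)) ^ L ≤ (4 / s) ^ n * (3 / (2 * s)) := by
          rw [hn, pow_succ]
          push_cast
          have e4 : (3 / (2 * s)) ^ n = (3 / 8) ^ n * (4 / s) ^ n := by
            rw [← mul_pow]; congr 1; field_simp; norm_num
          have e5 : ((n : ℝ) + 1) * (3 / 8) ^ n ≤ 1 := by
            have e6 : ((n : ℝ) + 1) ≤ 2 ^ n := by exact_mod_cast Nat.lt_two_pow_self (n := n)
            calc ((n : ℝ) + 1) * (3 / 8) ^ n ≤ 2 ^ n * (3 / 8) ^ n :=
                  mul_le_mul_of_nonneg_right e6 (by positivity)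
              _ = (3 / 4) ^ n := by rw [← mul_pow]; norm_num
              _ ≤ 1 := pow_le_one₀ (by norm_num) (by norm_num)
          rw [e4]
          calc ((n : ℝ) + 1) * ((3 / 8) ^ n * (4 / s) ^ n * (3 / (2 * s))) =
              (((n : ℝ) + 1) * (3 / 8) ^ n) * ((4 / s) ^ n * (3 / (2 * s))) := by ring
            _ ≤ 1 * ((4 / s) ^ n * (3 / (2 * s))) :=
                mul_le_mul_of_nonneg_right e5 (by positivity)
            _ = _ := one_mul _
        have e7 : 3 / (2 * s) ≤ 1 / 100 := by
          rw [div_le_div_iff₀ (by positivity) (by norm_num)]; linarith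
        have e8 : (0:ℝ) < (4 / s) ^ n := by positivity
        have e9 : (4 / s) ^ n * (3 / (2 * s)) ≤ (4 / s) ^ n * (1 / 100) :=
          mul_le_mul_of_nonneg_left e7 e8.le
        rw [show L - 1 = n by omega]
        unfold kap
        nlinarith
      have hEA2 := hρE A hA
      have hEB2 := hρE B hB
      have hρEA : ρ * ∑ k ∈ range L, cc p A k ≤ 1 + 3 / s := hEA2
      have hρEB : ρ * ∑ k ∈ range L, cc p B k ≤ 1 + 3 / s := by
        have : ∑ k ∈ range L, cc p B k = EE p B := by unfold EE; rw [← hL]
        rw [this, hρ]; exact hEB2
      have hρ1 : ρ ≤ 1 := wt_le_one (fun a => (hpos a).le) hsum A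
      have hsmall : ρ * L + 2 * (ρ * ∑ k ∈ range (L - 1), cc p A k) ≤ 1 / 2 := by
        have e1 : ρ * ∑ k ∈ range (L - 1), cc p A k ≤ 3 / s := by
          obtain ⟨n, hn⟩ : ∃ n, L = n + 1 := ⟨L - 1, by omega⟩
          have e2 := sA.top
          rw [hn] at hρEA e2 ⊢
          rw [Nat.add_sub_cancel] at e2 ⊢
          rw [Finset.sum_range_succ, e2, mul_add, mul_inv_cancel₀ hρ0.ne'] at hρEA
          linarith
        have e3 : 68 * (L : ℝ) * ρ < 1 := by linarith
        linarith
      refine (adv_neg_of_refined sA sB' hρ1 hsmall (by linarith) (by linarith) ?_).le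
      have hEBL : ∑ k ∈ range L, cc p B k = EE p B := by unfold EE; rw [← hL]
      have hEAL : ∑ k ∈ range L, cc p A k = EE p A := rfl
      rw [hEBL, hEAL, hdiff]
      have hab2 : a + b ≤ 2 * max a b := by linarith [le_max_left a b, le_max_right a b]
      calc 34 * (L : ℝ) * ρ * ∑ k ∈ range (L - 1), |cc p A k - cc p B k| ≤
          34 * L * ρ * (2 * max a b) :=
            mul_le_mul_of_nonneg_left (hδ.trans hab2) (by positivity)
        _ = (68 * L * ρ) * max a b := by ring
        _ < kap s l * max a b := mul_lt_mul_of_pos_right hkey hmax0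
        _ ≤ a - b := hsep

end two

section final

variable {α : Type*} [Fintype α] [DecidableEq α] [MeasurableSpace α] [MeasurableSingletonClass α]

lemma winProb_eq_adv (v : ProbVec α) (hv : ∀ a, 0 < v.p a) (A B : List α) (hA : A ≠ [])
    (hB : B ≠ []) : 2 * winProb v A B - 1 = adv (surv v.p A) (surv v.p B) := by
  have sA := survSys_word hv v.sum_eq A hA
  have sB := survSys_word hv v.sum_eq B hB
  have h1 := (summ_mul sA sB 0 1).sub (summ_mul sA sB 1 0)
  have h2 := h1.hasSum.tendsto_sum_nat
  have h3 := winProb_tendsto v hv A B hA hB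
  exact tendsto_nhds_unique h3 h2

end final

end Pool.Agent.V11300.PR
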