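import Mathlib

/-!
# Pattern races between two independent copies of an i.i.d. source

Definitions and the basic toolbox: waiting times of patterns, the winning probability of a race,
survival sequences and their renewal recursion.
-/

namespace Pool.Agent.V11300.PR

open MeasureTheory

/-- A probability vector on the finite alphabet `α`. -/
structure ProbVec (α : Type*) [Fintype α] where
  /-- the weights -/
  p : α → ℝ
  nonneg : ∀ a, 0 ≤ p a
  sum_eq : ∑ a, p a = 1

section Defs

variable {α : Type*} [Fintype α] [MeasurableSpace α]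

/-- The law of one letter. -/
noncomputable def letterLaw (v : ProbVec α) : Measure α :=
  ∑ a, ENNReal.ofReal (v.p a) • Measure.dirac a

instance (v : ProbVec α) : IsProbabilityMeasure (letterLaw v) := by
  constructor
  simp only [letterLaw, Measure.finsetSum_apply, Measure.smul_apply, smul_eq_mul,
    measure_univ, mul_one]
  rw [← ENNReal.ofReal_sum_of_nonneg (fun a _ => v.nonneg a), v.sum_eq, ENNReal.ofReal_one]

/-- The i.i.d. source: the law of `(X₁, X₂, …)`, where `X_{i+1}` is the coordinate `x i`. -/
noncomputable def source (v : ProbVec α) : Measure (ℕ → α) :=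
  Measure.infinitePi (fun _ : ℕ => letterLaw v)

instance (v : ProbVec α) : IsProbabilityMeasure (source v) := by
  unfold source; infer_instance

/-- The pattern `T` is the block `X_{n-|T|+1} ⋯ X_n` (recall that `X_{i+1} = x i`). -/
def EndsAt (T : List α) (x : ℕ → α) (n : ℕ) : Prop :=
  T.length ≤ n ∧ ∀ (i : ℕ) (h : i < T.length), x (n - T.length + i) = T[i]

/-- The waiting time `τ_T`: the first index `n` at which the pattern is completed
(`⊤` if it never is). -/
noncomputable def tau (T : List α) (x : ℕ → α) : ℕ∞ :=
  ⨅ (n : ℕ) (_ : EndsAt T x n), (n : ℕ∞)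

/-- The probability that `A` beats `B`: each pattern is watched on its own copy of the source, the
two copies are independent, and a tie is decided by a fair coin. -/
noncomputable def winProb (v : ProbVec α) (A B : List α) : ℝ :=
  ((source v).prod (source v)).real {z | tau A z.1 < tau B z.2} +
    (1 / 2) * ((source v).prod (source v)).real {z | tau A z.1 = tau B z.2}

end Defs

/-! ### Words and expectations -/

section Words

variable {α : Type*} [Fintype α]

/-- Expectation of a function of the first `n` letters. -/
noncomputable def Ex (p : α → ℝ) : ℕ → (List α → ℝ) → ℝ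
  | 0, F => F []
  | n + 1, F => ∑ a, p a * Ex p n (fun w => F (a :: w))

lemma Ex_add (p : α → ℝ) (m n : ℕ) (F : List α → ℝ) :
    Ex p (m + n) F = Ex p m (fun u => Ex p n (fun w => F (u ++ w))) := by
  induction m generalizing F with
  | zero => simp [Ex]
  | succ m ih =>
    rw [show m + 1 + n = (m + n) + 1 by ring]
    simp only [Ex]
    refine Finset.sum_congr rfl fun a _ => ?_
    rw [ih]
    simp

lemma Ex_congr (p : α → ℝ) (n : ℕ) (F G : List α → ℝ)
    (h : ∀ w : List α, w.length = n → F w = G w) : Ex p n F = Ex p n G := by
  induction n generalizing F G with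
  | zero => exact h [] rfl
  | succ n ih =>
    simp only [Ex]
    refine Finset.sum_congr rfl fun a _ => ?_
    rw [ih (fun w => F (a :: w)) (fun w => G (a :: w)) (fun w hw => h _ (by simp [hw]))]

lemma Ex_const {p : α → ℝ} (hp : ∑ a, p a = 1) (n : ℕ) (c : ℝ) : Ex p n (fun _ => c) = c := by
  induction n with
  | zero => rfl
  | succ n ih => simp only [Ex, ih]; rw [← Finset.sum_mul, hp, one_mul]

lemma Ex_mul_const (p : α → ℝ) (n : ℕ) (F : List α → ℝ) (c : ℝ) :
    Ex p n (fun w => F w * c) = Ex p n F * c := by
  induction n generalizing F with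
  | zero => rfl
  | succ n ih =>
    simp only [Ex]
    rw [Finset.sum_mul]
    refine Finset.sum_congr rfl fun a _ => ?_
    rw [ih (fun w => F (a :: w))]; ring

lemma Ex_const_mul (p : α → ℝ) (n : ℕ) (F : List α → ℝ) (c : ℝ) :
    Ex p n (fun w => c * F w) = c * Ex p n F := by
  rw [mul_comm c, ← Ex_mul_const]
  exact Ex_congr _ _ _ _ fun w _ => mul_comm _ _

lemma Ex_sub (p : α → ℝ) (n : ℕ) (F G : List α → ℝ) :
    Ex p n (fun w => F w - G w) = Ex p n F - Ex p n G := by
  induction n generalizing F G with
  | zero => rfl
  | succ n ih =>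
    simp only [Ex]
    rw [← Finset.sum_sub_distrib]
    refine Finset.sum_congr rfl fun a _ => ?_
    rw [ih (fun w => F (a :: w)) (fun w => G (a :: w))]; ring

lemma Ex_sum (p : α → ℝ) (n : ℕ) {ι : Type*} (s : Finset ι) (F : ι → List α → ℝ) :
    Ex p n (fun w => ∑ i ∈ s, F i w) = ∑ i ∈ s, Ex p n (F i) := by
  induction n generalizing F with
  | zero => rfl
  | succ n ih =>
    simp only [Ex]
    rw [Finset.sum_comm]
    refine Finset.sum_congr rfl fun a _ => ?_
    rw [ih (fun i w => F i (a :: w)), Finset.mul_sum]

lemma Ex_mono {p : α → ℝ} (hp : ∀ a, 0 ≤ p a) (n : ℕ) (F G : List α → ℝ)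
    (h : ∀ w : List α, w.length = n → F w ≤ G w) : Ex p n F ≤ Ex p n G := by
  induction n generalizing F G with
  | zero => exact h [] rfl
  | succ n ih =>
    simp only [Ex]
    refine Finset.sum_le_sum fun a _ => ?_
    exact mul_le_mul_of_nonneg_left
      (ih (fun w => F (a :: w)) (fun w => G (a :: w)) (fun w hw => h _ (by simp [hw]))) (hp a)

lemma Ex_nonneg {p : α → ℝ} (hp : ∀ a, 0 ≤ p a) (n : ℕ) (F : List α → ℝ)
    (h : ∀ w : List α, w.length = n → 0 ≤ F w) : 0 ≤ Ex p n F := by
  induction n generalizing F with
  | zero => exact h [] rfl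
  | succ n ih =>
    simp only [Ex]
    refine Finset.sum_nonneg fun a _ => mul_nonneg (hp a) ?_
    exact ih (fun w => F (a :: w)) (fun w hw => h _ (by simp [hw]))

/-- The probability of the word `T`. -/
def wt (p : α → ℝ) (T : List α) : ℝ := (T.map p).prod

lemma Ex_single [DecidableEq α] (p : α → ℝ) (T : List α) :
    Ex p T.length (fun w => if w = T then 1 else 0) = wt p T := by
  induction T with
  | nil => simp [Ex, wt]
  | cons b T ih =>
    simp only [List.length_cons, Ex, wt, List.map_cons, List.prod_cons]
    rw [Finset.sum_eq_single b]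
    · simp only [List.cons.injEq, true_and]
      rw [ih]; rfl
    · intro a _ hab
      simp only [List.cons.injEq, hab, false_and, if_false]
      have : Ex p T.length (fun _ => (0:ℝ)) = 0 := by
        have := Ex_const_mul p T.length (fun _ => (0:ℝ)) 0
        simpa using this
      rw [this, mul_zero]
    · intro h; exact absurd (Finset.mem_univ b) h

/-- Indicator that the word avoids the pattern. -/
def av [DecidableEq α] (T w : List α) : ℝ := if T <:+: w then 0 else 1

/-- The survival sequence `S(n) = P(τ_T > n)`. -/
noncomputable def surv [DecidableEq α] (p : α → ℝ) (T : List α) (n : ℕ) : ℝ := Ex p n (av T)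

end Words

end Pool.Agent.V11300.PR
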