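import Pool.Agent.V11300.PR.ABA

set_option linter.unusedSectionVars false

/-!
# A Conway type identity for races between independent copies, and its consequences
-/

namespace Pool.Agent.V11300.PR

open Filter Topology Finset

/-- Abstract survival sequence of a pattern of length `L` with coefficients `c`, `ρ` being the
probability of the pattern. -/
structure SurvSys (S : ℕ → ℝ) (L : ℕ) (c : ℕ → ℝ) (ρ : ℝ) : Prop where
  Lpos : 0 < L
  nonneg : ∀ n, 0 ≤ S n
  anti : Antitone S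
  one : ∀ n, n < L → S n = 1
  summ : Summable S
  cnonneg : ∀ k, 0 ≤ c k
  rec_eq : ∀ n, S n = ∑ k ∈ range L, c k * (S (n + k) - S (n + k + 1))
  ρpos : 0 < ρ
  top : c (L - 1) = ρ⁻¹

namespace SurvSys

variable {S : ℕ → ℝ} {L : ℕ} {c : ℕ → ℝ} {ρ : ℝ}

lemma le_one (h : SurvSys S L c ρ) (n : ℕ) : S n ≤ 1 := by
  have := h.anti (Nat.zero_le n)
  rwa [h.one 0 h.Lpos] at this

lemma zero_eq (h : SurvSys S L c ρ) : S 0 = 1 := h.one 0 h.Lpos

/-- the first passage probabilities are nonnegative -/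
lemma f_nonneg (h : SurvSys S L c ρ) (n : ℕ) : 0 ≤ S n - S (n + 1) :=
  sub_nonneg.mpr (h.anti (Nat.le_succ n))

lemma f_zero (h : SurvSys S L c ρ) {n : ℕ} (hn : n + 1 < L) : S n - S (n + 1) = 0 := by
  rw [h.one n (by omega), h.one (n + 1) hn, sub_self]

lemma f_le (h : SurvSys S L c ρ) (n : ℕ) : S n - S (n + 1) ≤ ρ := by
  by_cases hn : n + 1 < L
  · rw [h.f_zero hn]; exact h.ρpos.le
  · obtain ⟨m, hm⟩ : ∃ m, n = m + (L - 1) := ⟨n - (L - 1), by omega⟩
    have h1 := h.rec_eq m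
    have h2 : c (L - 1) * (S (m + (L - 1)) - S (m + (L - 1) + 1)) ≤
        ∑ k ∈ range L, c k * (S (m + k) - S (m + k + 1)) := by
      refine Finset.single_le_sum (f := fun k => c k * (S (m + k) - S (m + k + 1)))
        (fun k _ => mul_nonneg (h.cnonneg k) (h.f_nonneg _)) ?_
      rw [mem_range]; have := h.Lpos; omega
    rw [← h1, h.top] at h2
    have h3 := h2.trans (h.le_one m)
    rw [← hm] at h3
    rwa [inv_mul_le_iff₀ h.ρpos, mul_one] at h3

lemma summ_f (h : SurvSys S L c ρ) (k : ℕ) : Summable fun n => S (n + k) - S (n + k + 1) := by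
  have h1 : Summable fun n => S (n + k) := (summable_nat_add_iff k).mpr h.summ
  have h2 : Summable fun n => S (n + (k + 1)) := (summable_nat_add_iff (k + 1)).mpr h.summ
  exact h1.sub h2

lemma tendsto_zero (h : SurvSys S L c ρ) : Tendsto S atTop (𝓝 0) := h.summ.tendsto_atTop_zero

lemma tsum_f (h : SurvSys S L c ρ) : ∑' n, (S n - S (n + 1)) = 1 := by
  have h1 := h.summ_f 0
  simp only [Nat.add_zero] at h1
  have h2 := h1.hasSum.tendsto_sum_nat
  have h3 : ∀ N, ∑ n ∈ range N, (S n - S (n + 1)) = S 0 - S N := fun N =>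
    Finset.sum_range_sub' _ _
  simp only [h3] at h2
  have h4 : Tendsto (fun N => S 0 - S N) atTop (𝓝 (S 0 - 0)) :=
    tendsto_const_nhds.sub h.tendsto_zero
  rw [tendsto_nhds_unique h2 h4, h.zero_eq, sub_zero]

lemma tsum_f_shift_le (h : SurvSys S L c ρ) (k : ℕ) :
    ∑' n, (S (n + k) - S (n + k + 1)) ≤ 1 := by
  have h1 := h.summ_f 0
  simp only [Nat.add_zero] at h1
  have h2 := h1.sum_add_tsum_nat_add k
  have h3 : 0 ≤ ∑ i ∈ range k, (S i - S (i + 1)) := Finset.sum_nonneg fun i _ => h.f_nonneg i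
  rw [h.tsum_f] at h2
  linarith

end SurvSys

/-- `P(τ_A < τ_B + k + 1)` for `k < |A|`. -/
noncomputable def Gk (S T : ℕ → ℝ) (k : ℕ) : ℝ := ∑' n, (S (n + k) - S (n + k + 1)) * T n

/-- `P(τ_A - τ_B = k)`. -/
noncomputable def ek (S T : ℕ → ℝ) (k : ℕ) : ℝ :=
  ∑' n, (S (n + k) - S (n + k + 1)) * (T n - T (n + 1))

section two

variable {S T : ℕ → ℝ} {L L' : ℕ} {c c' : ℕ → ℝ} {ρ ρ' : ℝ}

lemma summ_Gk (h : SurvSys S L c ρ) (h' : SurvSys T L' c' ρ') (k : ℕ) :
    Summable fun n => (S (n + k) - S (n + k + 1)) * T n := by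
  refine Summable.of_nonneg_of_le (fun n => mul_nonneg (h.f_nonneg _) (h'.nonneg _))
    (fun n => ?_) (h.summ_f k)
  exact mul_le_of_le_one_right (h.f_nonneg _) (h'.le_one _)

lemma summ_ek (h : SurvSys S L c ρ) (h' : SurvSys T L' c' ρ') (k : ℕ) :
    Summable fun n => (S (n + k) - S (n + k + 1)) * (T n - T (n + 1)) := by
  refine Summable.of_nonneg_of_le (fun n => mul_nonneg (h.f_nonneg _) (h'.f_nonneg _))
    (fun n => ?_) (h.summ_f k)
  refine mul_le_of_le_one_right (h.f_nonneg _) ?_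
  linarith [h'.le_one n, h'.nonneg (n + 1)]

lemma ek_nonneg (h : SurvSys S L c ρ) (h' : SurvSys T L' c' ρ') (k : ℕ) : 0 ≤ ek S T k :=
  tsum_nonneg fun n => mul_nonneg (h.f_nonneg _) (h'.f_nonneg _)

lemma ek_le (h : SurvSys S L c ρ) (h' : SurvSys T L' c' ρ') (k : ℕ) : ek S T k ≤ ρ := by
  have h1 := h'.summ_f 0
  simp only [Nat.add_zero] at h1
  have h2 : ek S T k ≤ ∑' n, ρ * (T n - T (n + 1)) :=
    (summ_ek h h' k).tsum_le_tsum (fun n => mul_le_mul_of_nonneg_right (h.f_le _) (h'.f_nonneg _))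
      (h1.mul_left ρ)
  rwa [tsum_mul_left, h'.tsum_f, mul_one] at h2

lemma Gk_succ (h : SurvSys S L c ρ) (h' : SurvSys T L' c' ρ') {k : ℕ} (hk : k + 1 < L) :
    Gk S T (k + 1) = Gk S T k + ek S T (k + 1) := by
  have h1 : Gk S T k = (S k - S (k + 1)) * T 0 +
      ∑' n, (S (n + 1 + k) - S (n + 1 + k + 1)) * T (n + 1) := by
    unfold Gk
    rw [(summ_Gk h h' k).tsum_eq_zero_add]
    simp
  rw [h.f_zero hk, zero_mul, zero_add] at h1
  have h2 : Summable fun n => (S (n + 1 + k) - S (n + 1 + k + 1)) * T (n + 1) :=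
    (summable_nat_add_iff 1).mpr (summ_Gk h h' k)
  rw [h1]
  unfold Gk ek
  rw [← h2.tsum_add (summ_ek h h' (k + 1))]
  refine tsum_congr fun n => ?_
  rw [show n + 1 + k = n + (k + 1) by ring]
  ring

lemma Gk_eq (h : SurvSys S L c ρ) (h' : SurvSys T L' c' ρ') {k : ℕ} (hk : k < L) :
    Gk S T k = Gk S T 0 + ∑ j ∈ range k, ek S T (j + 1) := by
  induction k with
  | zero => simp
  | succ k ih =>
    rw [Gk_succ h h' hk, ih (by omega), Finset.sum_range_succ]
    ring

/-- The Conway type identity, one side. -/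
lemma tsum_mul_eq (h : SurvSys S L c ρ) (h' : SurvSys T L' c' ρ') :
    ∑' n, S n * T n = ∑ k ∈ range L, c k * Gk S T k := by
  have h1 : ∀ n, S n * T n = ∑ k ∈ range L, c k * ((S (n + k) - S (n + k + 1)) * T n) := by
    intro n
    conv_lhs => rw [h.rec_eq n, Finset.sum_mul]
    refine Finset.sum_congr rfl fun k _ => by ring
  simp only [h1]
  rw [Summable.tsum_finsetSum (fun k _ => (summ_Gk h h' k).mul_left (c k))]
  refine Finset.sum_congr rfl fun k _ => ?_
  rw [tsum_mul_left]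
  rfl

/-- The Conway type identity for independent races. -/
theorem conway (h : SurvSys S L c ρ) (h' : SurvSys T L' c' ρ') :
    ∑ k ∈ range L, c k * Gk S T k = ∑ k ∈ range L', c' k * Gk T S k := by
  rw [← tsum_mul_eq h h', ← tsum_mul_eq h' h]
  exact tsum_congr fun n => mul_comm _ _

lemma summ_mul (h : SurvSys S L c ρ) (h' : SurvSys T L' c' ρ') (i j : ℕ) :
    Summable fun n => S (n + i) * T (n + j) := by
  refine Summable.of_nonneg_of_le (fun n => mul_nonneg (h.nonneg _) (h'.nonneg _))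
    (fun n => ?_) ((summable_nat_add_iff i).mpr h.summ)
  exact mul_le_of_le_one_right (h.nonneg _) (h'.le_one _)

/-- `2 W - 1`. -/
noncomputable def adv (S T : ℕ → ℝ) : ℝ := ∑' n, (S n * T (n + 1) - S (n + 1) * T n)

lemma adv_eq (h : SurvSys S L c ρ) (h' : SurvSys T L' c' ρ') :
    adv S T = Gk S T 0 - Gk T S 0 := by
  unfold adv Gk
  rw [← (summ_Gk h h' 0).tsum_sub (summ_Gk h' h 0)]
  refine tsum_congr fun n => ?_
  simp only [Nat.add_zero]
  ring

lemma Gk_zero_add (h : SurvSys S L c ρ) (h' : SurvSys T L' c' ρ') :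
    Gk S T 0 + Gk T S 0 = 1 + ek S T 0 := by
  unfold Gk ek
  rw [← (summ_Gk h h' 0).tsum_add (summ_Gk h' h 0)]
  have h1 : ∀ n, (S (n + 0) - S (n + 0 + 1)) * T n + (T (n + 0) - T (n + 0 + 1)) * S n =
      (S n * T n - S (n + 1) * T (n + 1)) + (S (n + 0) - S (n + 0 + 1)) * (T n - T (n + 1)) := by
    intro n
    simp only [Nat.add_zero]; ring
  simp only [h1]
  have hm0 := summ_mul h h' 0 0
  have hm1 := summ_mul h h' 1 1
  simp only [Nat.add_zero] at hm0
  rw [(hm0.sub hm1).tsum_add (summ_ek h h' 0)]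
  congr 1
  rw [hm0.tsum_sub hm1, hm0.tsum_eq_zero_add, h.zero_eq, h'.zero_eq]
  ring

/-- First order comparison: a race is lost by the pattern with the clearly larger mean. -/
theorem adv_neg_of_gap (h : SurvSys S L c ρ) (h' : SurvSys T L' c' ρ')
    (hρ' : ρ' * ∑ k ∈ range L', c' k ≤ 2)
    (hgap : 4 * L' < ∑ k ∈ range L, c k - ∑ k ∈ range L', c' k) : adv S T < 0 := by
  by_contra hcon
  push Not at hcon
  rw [adv_eq h h'] at hcon
  have hsum := Gk_zero_add h h'
  have h0 := ek_nonneg h h' 0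
  have hg : 1 / 2 ≤ Gk S T 0 := by linarith
  have hc := conway h h'
  have h1 : (∑ k ∈ range L, c k) * Gk S T 0 ≤ ∑ k ∈ range L, c k * Gk S T k := by
    rw [Finset.sum_mul]
    refine Finset.sum_le_sum fun k hk => mul_le_mul_of_nonneg_left ?_ (h.cnonneg k)
    rw [Gk_eq h h' (mem_range.mp hk)]
    linarith [Finset.sum_nonneg (s := range k) (fun j _ => ek_nonneg h h' (j + 1))]
  have h2 : ∑ k ∈ range L', c' k * Gk T S k ≤
      (∑ k ∈ range L', c' k) * Gk T S 0 + 2 * L' := by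
    have h3 : ∀ k ∈ range L', c' k * Gk T S k ≤ c' k * Gk T S 0 + c' k * (L' * ρ') := by
      intro k hk
      rw [← mul_add]
      refine mul_le_mul_of_nonneg_left ?_ (h'.cnonneg k)
      rw [Gk_eq h' h (mem_range.mp hk)]
      have h4 : ∑ j ∈ range k, ek T S (j + 1) ≤ ∑ j ∈ range k, ρ' :=
        Finset.sum_le_sum fun j _ => ek_le h' h (j + 1)
      rw [Finset.sum_const, card_range, nsmul_eq_mul] at h4
      have h5 : (k : ℝ) * ρ' ≤ L' * ρ' := by
        apply mul_le_mul_of_nonneg_right _ h'.ρpos.le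
        exact_mod_cast (mem_range.mp hk).le
      linarith
    refine (Finset.sum_le_sum h3).trans ?_
    rw [Finset.sum_add_distrib, ← Finset.sum_mul, ← Finset.sum_mul]
    have h6 : (∑ k ∈ range L', c' k) * (L' * ρ') = (ρ' * ∑ k ∈ range L', c' k) * L' := by ring
    rw [h6]
    have h7 : (0:ℝ) ≤ L' := Nat.cast_nonneg _
    nlinarith
  have hE' : 0 ≤ ∑ k ∈ range L', c' k := Finset.sum_nonneg fun k _ => h'.cnonneg k
  have h8 : (∑ k ∈ range L', c' k) * Gk T S 0 ≤ (∑ k ∈ range L', c' k) * Gk S T 0 :=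
    mul_le_mul_of_nonneg_left (by linarith) hE'
  nlinarith

end two

end Pool.Agent.V11300.PR
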