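import Mathlib

/-! Third order jets at `0` of polynomial expressions, computed over `ℚ` by the kernel. -/

namespace Pool.Agent.V11300.PR

/-- Jets of order three with rational coefficients. -/
structure Jet where
  c0 : ℚ
  c1 : ℚ
  c2 : ℚ
  c3 : ℚ
deriving DecidableEq

namespace Jet

def add (a b : Jet) : Jet := ⟨a.c0 + b.c0, a.c1 + b.c1, a.c2 + b.c2, a.c3 + b.c3⟩

def mul (a b : Jet) : Jet :=
  ⟨a.c0 * b.c0, a.c0 * b.c1 + a.c1 * b.c0, a.c0 * b.c2 + a.c1 * b.c1 + a.c2 * b.c0,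
    a.c0 * b.c3 + a.c1 * b.c2 + a.c2 * b.c1 + a.c3 * b.c0⟩

end Jet

/-- `f` has the jet `j` at `0`, with a continuous remainder. -/
def HasJet (f : ℝ → ℝ) (j : Jet) : Prop :=
  ∃ r : ℝ → ℝ, Continuous r ∧
    ∀ e, f e = j.c0 + j.c1 * e + j.c2 * e ^ 2 + j.c3 * e ^ 3 + e ^ 4 * r e

lemma HasJet.add {f g : ℝ → ℝ} {a b : Jet} (hf : HasJet f a) (hg : HasJet g b) :
    HasJet (fun e => f e + g e) (a.add b) := by
  obtain ⟨r, hr, h1⟩ := hf
  obtain ⟨s, hs, h2⟩ := hg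
  refine ⟨fun e => r e + s e, hr.add hs, fun e => ?_⟩
  simp only [h1 e, h2 e, Jet.add]
  push_cast
  ring

lemma HasJet.mul {f g : ℝ → ℝ} {a b : Jet} (hf : HasJet f a) (hg : HasJet g b) :
    HasJet (fun e => f e * g e) (a.mul b) := by
  obtain ⟨r, hr, h1⟩ := hf
  obtain ⟨s, hs, h2⟩ := hg
  refine ⟨fun e => (a.c1 * b.c3 + a.c2 * b.c2 + a.c3 * b.c1 : ℝ) +
      (a.c2 * b.c3 + a.c3 * b.c2 : ℝ) * e + (a.c3 * b.c3 : ℝ) * e ^ 2 +
      (a.c0 + a.c1 * e + a.c2 * e ^ 2 + a.c3 * e ^ 3) * s e +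
      r e * (b.c0 + b.c1 * e + b.c2 * e ^ 2 + b.c3 * e ^ 3) + e ^ 4 * (r e * s e), ?_,
      fun e => ?_⟩
  · fun_prop
  · simp only [h1 e, h2 e, Jet.mul]
    push_cast
    ring

lemma hasJet_const (q : ℚ) : HasJet (fun _ => (q : ℝ)) ⟨q, 0, 0, 0⟩ :=
  ⟨fun _ => 0, continuous_const, fun e => by simp⟩

lemma hasJet_poly (a b c d : ℚ) :
    HasJet (fun e => (a : ℝ) + b * e + c * e ^ 2 + d * e ^ 3) ⟨a, b, c, d⟩ :=
  ⟨fun _ => 0, continuous_const, fun e => by simp⟩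

/-- Polynomial expressions in four variables. -/
inductive PE where
  | v (i : Fin 4)
  | k (z : ℤ)
  | add (a b : PE)
  | mul (a b : PE)

namespace PE

def ev (ρ : Fin 4 → ℝ) : PE → ℝ
  | v i => ρ i
  | k z => (z : ℝ)
  | add a b => a.ev ρ + b.ev ρ
  | mul a b => a.ev ρ * b.ev ρ

def jet (ρ : Fin 4 → Jet) : PE → Jet
  | v i => ρ i
  | k z => ⟨z, 0, 0, 0⟩
  | add a b => (a.jet ρ).add (b.jet ρ)
  | mul a b => (a.jet ρ).mul (b.jet ρ)

theorem hasJet {f : Fin 4 → ℝ → ℝ} {ρ : Fin 4 → Jet} (h : ∀ i, HasJet (f i) (ρ i)) (t : PE) :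
    HasJet (fun e => t.ev (fun i => f i e)) (t.jet ρ) := by
  induction t with
  | v i => exact h i
  | k z =>
    have := hasJet_const (z : ℚ)
    simpa [ev, jet] using this
  | add a b iha ihb => exact iha.add ihb
  | mul a b iha ihb => exact iha.mul ihb

end PE

/-- A function with vanishing 2-jet and negative third coefficient is negative for small
positive arguments. -/
lemma HasJet.eventually_neg {f : ℝ → ℝ} {j : Jet} (h : HasJet f j) (h0 : j.c0 = 0)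
    (h1 : j.c1 = 0) (h2 : j.c2 = 0) (h3 : j.c3 < 0) :
    ∀ᶠ e in nhdsWithin (0:ℝ) (Set.Ioi 0), f e < 0 := by
  obtain ⟨r, hr, hf⟩ := h
  have hc : Continuous (fun e : ℝ => (j.c3 : ℝ) + e * r e) :=
    continuous_const.add (continuous_id.mul hr)
  have h4 : (j.c3 : ℝ) < 0 := by exact_mod_cast h3
  have hev : ∀ᶠ e in nhds (0:ℝ), (j.c3 : ℝ) + e * r e < 0 := by
    have := hc.tendsto 0
    simp only [zero_mul, add_zero] at this
    exact this.eventually (gt_mem_nhds h4)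
  filter_upwards [hev.filter_mono nhdsWithin_le_nhds, self_mem_nhdsWithin] with e he hpos
  have hpos' : (0:ℝ) < e := hpos
  rw [hf e, h0, h1, h2]
  have : ((0:ℚ):ℝ) + ((0:ℚ):ℝ) * e + ((0:ℚ):ℝ) * e ^ 2 + (j.c3 : ℝ) * e ^ 3 + e ^ 4 * r e =
      e ^ 3 * ((j.c3 : ℝ) + e * r e) := by push_cast; ring
  rw [this]
  exact mul_neg_of_pos_of_neg (by positivity) he

end Pool.Agent.V11300.PR
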