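import Pool.Agent.V11300.PR.ABA
import Pool.Agent.V11300.PR.Jets

set_option linter.unusedSectionVars false

namespace Pool.Agent.V11300.PR

open Filter Topology

/-- `Nm` as a polynomial expression. -/
def NmE : PE :=
  (.add (.add (.add (.add (.add (.add (.add (.add (.add (.add (.add (.add (.add (.add (.add (.add (.add (.add (.add (.add (.add (.add (.add (.add (.add (.add (.add (.add (.add (.add (.add (.mul (.k (-1)) (.v 2))
  (.mul (.k (1)) (.v 0)))
  (.mul (.mul (.k (-1)) (.v 1)) (.v 2)))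
  (.mul (.mul (.k (1)) (.v 0)) (.v 3)))
  (.mul (.mul (.mul (.k (2)) (.v 1)) (.v 2)) (.v 3)))
  (.mul (.mul (.mul (.k (-2)) (.v 0)) (.v 2)) (.v 3)))
  (.mul (.mul (.mul (.k (-2)) (.v 0)) (.v 1)) (.v 3)))
  (.mul (.mul (.mul (.k (2)) (.v 0)) (.v 1)) (.v 2)))
  (.mul (.mul (.mul (.mul (.k (2)) (.v 1)) (.v 1)) (.v 2)) (.v 3)))
  (.mul (.mul (.mul (.mul (.k (-2)) (.v 1)) (.v 1)) (.v 2)) (.v 2)))
  (.mul (.mul (.mul (.mul (.k (-2)) (.v 0)) (.v 1)) (.v 3)) (.v 3)))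
  (.mul (.mul (.mul (.mul (.k (3)) (.v 0)) (.v 1)) (.v 2)) (.v 2)))
  (.mul (.mul (.mul (.mul (.k (2)) (.v 0)) (.v 0)) (.v 3)) (.v 3)))
  (.mul (.mul (.mul (.mul (.k (-3)) (.v 0)) (.v 0)) (.v 2)) (.v 3)))
  (.mul (.mul (.mul (.mul (.mul (.k (-1)) (.v 1)) (.v 1)) (.v 2)) (.v 3)) (.v 3)))
  (.mul (.mul (.mul (.mul (.mul (.k (2)) (.v 0)) (.v 1)) (.v 2)) (.v 3)) (.v 3)))
  (.mul (.mul (.mul (.mul (.mul (.k (1)) (.v 0)) (.v 1)) (.v 1)) (.v 3)) (.v 3)))
  (.mul (.mul (.mul (.mul (.mul (.k (-2)) (.v 0)) (.v 1)) (.v 1)) (.v 2)) (.v 3)))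
  (.mul (.mul (.mul (.mul (.mul (.k (1)) (.v 0)) (.v 1)) (.v 1)) (.v 2)) (.v 2)))
  (.mul (.mul (.mul (.mul (.mul (.k (-1)) (.v 0)) (.v 0)) (.v 2)) (.v 3)) (.v 3)))
  (.mul (.mul (.mul (.mul (.mul (.mul (.k (-1)) (.v 1)) (.v 1)) (.v 1)) (.v 2)) (.v 3)) (.v 3)))
  (.mul (.mul (.mul (.mul (.mul (.mul (.k (2)) (.v 1)) (.v 1)) (.v 1)) (.v 2)) (.v 2)) (.v 3)))
  (.mul (.mul (.mul (.mul (.mul (.mul (.k (-1)) (.v 1)) (.v 1)) (.v 1)) (.v 2)) (.v 2)) (.v 2)))
  (.mul (.mul (.mul (.mul (.mul (.mul (.k (1)) (.v 0)) (.v 1)) (.v 1)) (.v 3)) (.v 3)) (.v 3)))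
  (.mul (.mul (.mul (.mul (.mul (.mul (.k (-3)) (.v 0)) (.v 1)) (.v 1)) (.v 2)) (.v 2)) (.v 3)))
  (.mul (.mul (.mul (.mul (.mul (.mul (.k (2)) (.v 0)) (.v 1)) (.v 1)) (.v 2)) (.v 2)) (.v 2)))
  (.mul (.mul (.mul (.mul (.mul (.mul (.k (-2)) (.v 0)) (.v 0)) (.v 1)) (.v 3)) (.v 3)) (.v 3)))
  (.mul (.mul (.mul (.mul (.mul (.mul (.k (3)) (.v 0)) (.v 0)) (.v 1)) (.v 2)) (.v 3)) (.v 3)))
  (.mul (.mul (.mul (.mul (.mul (.mul (.k (-1)) (.v 0)) (.v 0)) (.v 1)) (.v 2)) (.v 2)) (.v 2)))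
  (.mul (.mul (.mul (.mul (.mul (.mul (.k (1)) (.v 0)) (.v 0)) (.v 0)) (.v 3)) (.v 3)) (.v 3)))
  (.mul (.mul (.mul (.mul (.mul (.mul (.k (-2)) (.v 0)) (.v 0)) (.v 0)) (.v 2)) (.v 3)) (.v 3)))
  (.mul (.mul (.mul (.mul (.mul (.mul (.k (1)) (.v 0)) (.v 0)) (.v 0)) (.v 2)) (.v 2)) (.v 3)))


lemma NmE_ev (ρ : Fin 4 → ℝ) : NmE.ev ρ = Nm (ρ 0) (ρ 1) (ρ 2) (ρ 3) := by
  simp only [NmE, PE.ev, Nm]
  push_cast
  ring

def ja : Jet := ⟨1 / 4, 222546302388156321, -369922203631479797269975973753895044,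
  141596318000000000000000000000000000000000000000000000⟩
def jb : Jet := ⟨1 / 4, -62321188480206943, -364766780790068513006853183061997700,
  345476321000000000000000000000000000000000000000000000⟩
def jc : Jet := ⟨1 / 4, 524681789125663649, 102332723270662012, 0⟩
def jd : Jet := ⟨1 / 4, -684906903033613027, 734688984421548310174496433545230732,
  -487072639000000000000000000000000000000000000000000000⟩

/-- The four letter probabilities as polynomials of the parameter. -/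
noncomputable def pf (j : Jet) (e : ℝ) : ℝ := j.c0 + j.c1 * e + j.c2 * e ^ 2 + j.c3 * e ^ 3

lemma hasJet_pf (j : Jet) : HasJet (pf j) j := hasJet_poly j.c0 j.c1 j.c2 j.c3

lemma continuous_pf (j : Jet) : Continuous (pf j) := by unfold pf; fun_prop

lemma pf_zero (j : Jet) : pf j 0 = j.c0 := by simp [pf]

lemma pf_sum (e : ℝ) : pf ja e + pf jb e + pf jc e + pf jd e = 1 := by
  simp only [pf, ja, jb, jc, jd]
  push_cast
  ring

/-- jets of the two parameters of the pattern `aba`. -/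
def jx (a b : Jet) : Jet := (a.mul a).mul b
def jy (a b : Jet) : Jet := a.mul b

lemma hasJet_Nm (a b c d : Jet) :
    HasJet (fun e => Nm (pf a e * pf a e * pf b e) (pf a e * pf b e)
      (pf c e * pf c e * pf d e) (pf c e * pf d e))
      (NmE.jet ![jx a b, jy a b, jx c d, jy c d]) := by
  have h := PE.hasJet (f := ![fun e => pf a e * pf a e * pf b e, fun e => pf a e * pf b e,
    fun e => pf c e * pf c e * pf d e, fun e => pf c e * pf d e])
    (ρ := ![jx a b, jy a b, jx c d, jy c d]) (by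
      intro i
      fin_cases i
      · exact ((hasJet_pf a).mul (hasJet_pf a)).mul (hasJet_pf b)
      · exact (hasJet_pf a).mul (hasJet_pf b)
      · exact ((hasJet_pf c).mul (hasJet_pf c)).mul (hasJet_pf d)
      · exact (hasJet_pf c).mul (hasJet_pf d)) NmE
  simpa only [NmE_ev, Matrix.cons_val_zero, Matrix.cons_val_one, Matrix.cons_val] using h

lemma neg_ab_bc : ∀ᶠ e in 𝓝[>] (0:ℝ), Nm (pf ja e * pf ja e * pf jb e) (pf ja e * pf jb e)
    (pf jb e * pf jb e * pf jc e) (pf jb e * pf jc e) < 0 :=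
  (hasJet_Nm ja jb jb jc).eventually_neg (by decide +kernel) (by decide +kernel)
    (by decide +kernel) (by decide +kernel)

lemma neg_bc_cd : ∀ᶠ e in 𝓝[>] (0:ℝ), Nm (pf jb e * pf jb e * pf jc e) (pf jb e * pf jc e)
    (pf jc e * pf jc e * pf jd e) (pf jc e * pf jd e) < 0 :=
  (hasJet_Nm jb jc jc jd).eventually_neg (by decide +kernel) (by decide +kernel)
    (by decide +kernel) (by decide +kernel)

lemma neg_cd_ab : ∀ᶠ e in 𝓝[>] (0:ℝ), Nm (pf jc e * pf jc e * pf jd e) (pf jc e * pf jd e)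
    (pf ja e * pf ja e * pf jb e) (pf ja e * pf jb e) < 0 :=
  (hasJet_Nm jc jd ja jb).eventually_neg (by decide +kernel) (by decide +kernel)
    (by decide +kernel) (by decide +kernel)

lemma pf_near (j : Jet) (hj : j.c0 = 1 / 4) {δ : ℝ} (hδ : 0 < δ) :
    ∀ᶠ e in 𝓝[>] (0:ℝ), |pf j e - 1 / 4| < δ := by
  have h1 : Tendsto (fun e => |pf j e - 1 / 4|) (𝓝 0) (𝓝 |pf j 0 - 1 / 4|) :=
    (((continuous_pf j).sub continuous_const).abs).tendsto 0
  have h2 : |pf j 0 - 1 / 4| = 0 := by rw [pf_zero, hj]; norm_num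
  rw [h2] at h1
  exact (h1.eventually (gt_mem_nhds hδ)).filter_mono nhdsWithin_le_nhds

lemma Dn_near (a b c d : Jet) (ha : a.c0 = 1 / 4) (hb : b.c0 = 1 / 4) (hc : c.c0 = 1 / 4)
    (hd : d.c0 = 1 / 4) :
    ∀ᶠ e in 𝓝[>] (0:ℝ), 0 < Dn (pf a e * pf a e * pf b e) (pf a e * pf b e)
      (pf c e * pf c e * pf d e) (pf c e * pf d e) := by
  have hcont : Continuous (fun e => Dn (pf a e * pf a e * pf b e) (pf a e * pf b e)
      (pf c e * pf c e * pf d e) (pf c e * pf d e)) := by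
    have h1 := continuous_pf a
    have h2 := continuous_pf b
    have h3 := continuous_pf c
    have h4 := continuous_pf d
    unfold Dn
    fun_prop
  have h1 := hcont.tendsto 0
  simp only [pf_zero, ha, hb, hc, hd] at h1
  have h2 : 0 < Dn (((1 / 4 : ℚ) : ℝ) * ((1 / 4 : ℚ) : ℝ) * ((1 / 4 : ℚ) : ℝ))
      (((1 / 4 : ℚ) : ℝ) * ((1 / 4 : ℚ) : ℝ))
      (((1 / 4 : ℚ) : ℝ) * ((1 / 4 : ℚ) : ℝ) * ((1 / 4 : ℚ) : ℝ))
      (((1 / 4 : ℚ) : ℝ) * ((1 / 4 : ℚ) : ℝ)) := by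
    unfold Dn; push_cast; norm_num
  exact (h1.eventually (lt_mem_nhds h2)).filter_mono nhdsWithin_le_nhds

lemma winProb_lt_of {α : Type*} [Fintype α] [DecidableEq α] [MeasurableSpace α]
    [MeasurableSingletonClass α] (v : ProbVec α) (hv : ∀ a, 0 < v.p a) {a b c d : α} (hab : a ≠ b)
    (hcd : c ≠ d)
    (hD : 0 < Dn (v.p a * v.p a * v.p b) (v.p a * v.p b) (v.p c * v.p c * v.p d) (v.p c * v.p d))
    (hN : Nm (v.p a * v.p a * v.p b) (v.p a * v.p b) (v.p c * v.p c * v.p d)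
      (v.p c * v.p d) < 0) :
    winProb v [a, b, a] [c, d, c] < 1 / 2 := by
  have h := winProb_aba v hv hab hcd
  rw [← h] at hN
  by_contra hcon
  push Not at hcon
  have : 0 ≤ 2 * winProb v [a, b, a] [c, d, c] - 1 := by linarith
  exact absurd hN (not_lt.mpr (mul_nonneg hD.le this))

section

variable {α : Type*} [Fintype α] [DecidableEq α] [MeasurableSpace α] [MeasurableSingletonClass α]

lemma cas_swap (p : α → ℝ) (A B : List α) (n : ℕ) : cas p B A n = -cas p A B n := by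
  unfold cas; ring

lemma winProb_swap (v : ProbVec α) (hv : ∀ a, 0 < v.p a) (A B : List α) (hA : A ≠ [])
    (hB : B ≠ []) : winProb v B A = 1 - winProb v A B := by
  have h1 := winProb_tendsto v hv A B hA hB
  have h2 := winProb_tendsto v hv B A hB hA
  have h3 : Tendsto (fun N => ∑ n ∈ Finset.range N, cas v.p B A n) atTop
      (𝓝 (-(2 * winProb v A B - 1))) := by
    refine h1.neg.congr fun N => ?_
    rw [← Finset.sum_neg_distrib]
    exact Finset.sum_congr rfl fun n _ => (cas_swap v.p A B n).symm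
  have := tendsto_nhds_unique h2 h3
  linarith

end

/-- Arbitrarily close to the uniform distribution on four letters there are full-support
probability vectors with a directed 3-cycle among words of length three. -/
theorem exists_cycle (ε : ℝ) (hε : 0 < ε) :
    ∃ v : ProbVec (Fin 4), (∀ i, 0 < v.p i) ∧ (∀ i, |v.p i - 1 / 4| < ε) ∧
      1 / 2 < winProb v [0, 1, 0] [2, 3, 2] ∧ 1 / 2 < winProb v [2, 3, 2] [1, 2, 1] ∧
      1 / 2 < winProb v [1, 2, 1] [0, 1, 0] := by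
  have hδ : 0 < min ε (1 / 8) := lt_min hε (by norm_num)
  obtain ⟨e, ha, hb, hc, hd, n1, n2, n3, d1, d2, d3⟩ :=
    ((pf_near ja rfl hδ).and ((pf_near jb rfl hδ).and ((pf_near jc rfl hδ).and
      ((pf_near jd rfl hδ).and (neg_ab_bc.and (neg_bc_cd.and (neg_cd_ab.and
        ((Dn_near ja jb jb jc rfl rfl rfl rfl).and ((Dn_near jb jc jc jd rfl rfl rfl rfl).and
          (Dn_near jc jd ja jb rfl rfl rfl rfl)))))))))).exists
  have hpos : ∀ t : ℝ, |t - 1 / 4| < min ε (1 / 8) → 0 < t := by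
    intro t ht
    have := (abs_lt.mp (lt_of_lt_of_le ht (min_le_right _ _))).1
    linarith
  have hp : ∀ i : Fin 4, 0 < ![pf ja e, pf jb e, pf jc e, pf jd e] i := by
    intro i
    fin_cases i
    · exact hpos _ ha
    · exact hpos _ hb
    · exact hpos _ hc
    · exact hpos _ hd
  let v : ProbVec (Fin 4) :=
    { p := ![pf ja e, pf jb e, pf jc e, pf jd e]
      nonneg := fun i => (hp i).le
      sum_eq := by
        rw [Fin.sum_univ_four]
        exact pf_sum e }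
  have hv : ∀ i, 0 < v.p i := hp
  refine ⟨v, hv, ?_, ?_, ?_, ?_⟩
  · intro i
    have hle := min_le_left ε (1 / 8)
    fin_cases i
    · exact lt_of_lt_of_le ha hle
    · exact lt_of_lt_of_le hb hle
    · exact lt_of_lt_of_le hc hle
    · exact lt_of_lt_of_le hd hle
  · have h := winProb_lt_of v hv (a := 2) (b := 3) (c := 0) (d := 1) (by decide) (by decide)
      d3 n3
    rw [winProb_swap v hv [2, 3, 2] [0, 1, 0] (by simp) (by simp)]
    linarith
  · have h := winProb_lt_of v hv (a := 1) (b := 2) (c := 2) (d := 3) (by decide) (by decide)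
      d2 n2
    rw [winProb_swap v hv [1, 2, 1] [2, 3, 2] (by simp) (by simp)]
    linarith
  · have h := winProb_lt_of v hv (a := 0) (b := 1) (c := 1) (d := 2) (by decide) (by decide)
      d1 n1
    rw [winProb_swap v hv [0, 1, 0] [1, 2, 1] (by simp) (by simp)]
    linarith

end Pool.Agent.V11300.PR
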