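import Pool.Agent.V11300.PR.Meas

set_option linter.unusedSectionVars false

namespace Pool.Agent.V11300.PR

open Filter Topology

/-- The biased coin: `true` is heads, with probability `p`. -/
noncomputable def coin (p : Set.Ioo (0:ℝ) 1) : ProbVec Bool where
  p := fun b => if b then (p : ℝ) else 1 - p
  nonneg := by
    intro b
    cases b
    · simpa using p.2.2.le
    · simpa using p.2.1.le
  sum_eq := by simp

/-- The winning probability as a function of the bias. -/
noncomputable def W (T₁ T₂ : List Bool) (p : Set.Ioo (0:ℝ) 1) : ℝ := winProb (coin p) T₁ T₂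

lemma coin_pos (p : Set.Ioo (0:ℝ) 1) : ∀ b, 0 < (coin p).p b := by
  intro b
  cases b
  · simpa [coin] using p.2.2
  · simpa [coin] using p.2.1

lemma surv_HT (p : Set.Ioo (0:ℝ) 1) (n : ℕ) :
    ((p:ℝ) * (1 - p)) * surv (coin p).p [true, false] n =
      surv (coin p).p [true, false] (n + 1) - surv (coin p).p [true, false] (n + 2) := by
  have h := surv_renewal (coin p).p (coin p).sum_eq [true, false] (by simp) n
  rw [show (Finset.Icc 1 [true, false].length).filter
    (fun k => [true, false].take k = [true, false].drop ([true, false].length - k)) = {2} by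
      decide] at h
  rw [Finset.sum_singleton] at h
  simp only [wt, coin, List.map_cons, List.map_nil, List.prod_cons, List.prod_nil, if_true,
    List.drop_succ_cons, List.drop_zero, one_mul, Bool.false_eq_true, if_false, mul_one] at h
  exact h

lemma surv_HHTT (p : Set.Ioo (0:ℝ) 1) (n : ℕ) :
    ((p:ℝ) * (1 - p)) ^ 2 * surv (coin p).p [true, true, false, false] n =
      surv (coin p).p [true, true, false, false] (n + 3) -
        surv (coin p).p [true, true, false, false] (n + 4) := by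
  have h := surv_renewal (coin p).p (coin p).sum_eq [true, true, false, false] (by simp) n
  rw [show (Finset.Icc 1 [true, true, false, false].length).filter
    (fun k => [true, true, false, false].take k =
      [true, true, false, false].drop ([true, true, false, false].length - k)) = {4} by
      decide] at h
  rw [Finset.sum_singleton] at h
  simp only [wt, coin, List.map_cons, List.map_nil, List.prod_cons, List.prod_nil, if_true,
    List.drop_succ_cons, List.drop_zero, one_mul, Bool.false_eq_true, if_false, mul_one] at h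
  have e : ((p:ℝ) * (1 - p)) ^ 2 = (p:ℝ) * (p * ((1 - p) * (1 - p))) := by ring
  rw [e]
  exact h

/-- The explicit rational function. -/
noncomputable def rat (x : ℝ) : ℝ :=
  (1 - x + 2 * x ^ 2 + x ^ 3) / (1 + x - 5 * x ^ 2 + 5 * x ^ 3 + x ^ 7)

lemma den_pos {x : ℝ} (h0 : 0 < x) (h1 : x ≤ 1 / 4) :
    0 < 1 + x - 5 * x ^ 2 + 5 * x ^ 3 + x ^ 7 := by
  have h2 : 0 ≤ x ^ 7 := by positivity
  have h3 : 0 ≤ x ^ 3 := by positivity
  nlinarith

theorem W_HT_HHTT (p : Set.Ioo (0:ℝ) 1) :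
    W [true, false] [true, true, false, false] p =
      1 / 2 + (1 / 2) * rat ((p:ℝ) * (1 - p)) := by
  set x : ℝ := (p:ℝ) * (1 - p) with hx
  have hx0 : 0 < x := mul_pos p.2.1 (by linarith [p.2.2])
  have hx1 : x ≤ 1 / 4 := by nlinarith [sq_nonneg ((p:ℝ) - 1 / 2)]
  set S := surv (coin p).p [true, false] with hS
  set T := surv (coin p).p [true, true, false, false] with hT
  have hrS : ∀ n, S (n + 2) = S (n + 1) - x * S n := fun n => by
    have := surv_HT p n
    rw [← hS, ← hx] at this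
    linarith
  have hrT : ∀ n, T (n + 4) = T (n + 3) - x ^ 2 * T n := fun n => by
    have := surv_HHTT p n
    rw [← hT, ← hx] at this
    linarith
  have hS0 : S 0 = 1 := surv_eq_one (coin p).sum_eq _ 0 (by simp)
  have hS1 : S 1 = 1 := surv_eq_one (coin p).sum_eq _ 1 (by simp)
  have hT0 : T 0 = 1 := surv_eq_one (coin p).sum_eq _ 0 (by simp)
  have hT1 : T 1 = 1 := surv_eq_one (coin p).sum_eq _ 1 (by simp)
  have hT2 : T 2 = 1 := surv_eq_one (coin p).sum_eq _ 2 (by simp)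
  have hT3 : T 3 = 1 := surv_eq_one (coin p).sum_eq _ 3 (by simp)
  let D : ℝ := x + x ^ 2 - 5 * x ^ 3 + 5 * x ^ 4 + x ^ 8
  have hD : D = x * (1 + x - 5 * x ^ 2 + 5 * x ^ 3 + x ^ 7) := by simp only [D]; ring
  have hDpos : 0 < D := by rw [hD]; exact mul_pos hx0 (den_pos hx0 hx1)
  let Ψ : ℕ → ℝ := fun n =>
    (2 * x ^ 4 - x ^ 5 - x ^ 7) * S n * T n +
    (x + 2 * x ^ 2 - 4 * x ^ 3 + 2 * x ^ 4 + 2 * x ^ 5) * S n * T (n + 1) +
    (x ^ 2 + x ^ 3 - 3 * x ^ 4 + x ^ 6) * S n * T (n + 2) +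
    (-2 * x ^ 2 + x ^ 4 - x ^ 5 - x ^ 6) * S n * T (n + 3) +
    (-x - x ^ 2 + 3 * x ^ 3 - 2 * x ^ 4 + x ^ 7) * S (n + 1) * T n +
    (-x - x ^ 2 + 3 * x ^ 3 - x ^ 5) * S (n + 1) * T (n + 1) +
    (x ^ 2 - x ^ 3 + 2 * x ^ 4 + x ^ 5) * S (n + 1) * T (n + 2) +
    (2 * x - x ^ 2 - x ^ 4) * S (n + 1) * T (n + 3)
  have hΨ : ∀ n, Ψ n - Ψ (n + 1) = D * cas (coin p).p [true, false] [true, true, false, false] n := by
    intro n
    unfold cas
    rw [← hS, ← hT]
    simp only [Ψ, D]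
    rw [show n + 1 + 1 = n + 2 by ring, show n + 1 + 2 = n + 3 by ring,
      show n + 1 + 3 = n + 4 by ring, hrS n, hrT n]
    ring
  have hsum : ∀ N, ∑ n ∈ Finset.range N, cas (coin p).p [true, false] [true, true, false, false] n =
      (Ψ 0 - Ψ N) / D := by
    intro N
    rw [eq_div_iff hDpos.ne']
    induction N with
    | zero => simp
    | succ N ih =>
      rw [Finset.sum_range_succ, add_mul, ih, mul_comm _ D, ← hΨ N]
      ring
  have hS' : Tendsto S atTop (𝓝 0) := tendsto_surv (coin_pos p) (coin p).sum_eq _ (by simp)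
  have hT' : Tendsto T atTop (𝓝 0) := tendsto_surv (coin_pos p) (coin p).sum_eq _ (by simp)
  have hSk : ∀ k, Tendsto (fun n => S (n + k)) atTop (𝓝 0) := fun k =>
    (tendsto_add_atTop_iff_nat k).mpr hS'
  have hTk : ∀ k, Tendsto (fun n => T (n + k)) atTop (𝓝 0) := fun k =>
    (tendsto_add_atTop_iff_nat k).mpr hT'
  have hΨ0 : Tendsto Ψ atTop (𝓝 0) := by
    have hprod : ∀ (c : ℝ) (i j : ℕ), Tendsto (fun n => c * S (n + i) * T (n + j)) atTop (𝓝 0) := by
      intro c i j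
      have := ((hSk i).const_mul c).mul (hTk j)
      simpa using this
    have := ((((((((hprod (2 * x ^ 4 - x ^ 5 - x ^ 7) 0 0).add
      (hprod (x + 2 * x ^ 2 - 4 * x ^ 3 + 2 * x ^ 4 + 2 * x ^ 5) 0 1)).add
      (hprod (x ^ 2 + x ^ 3 - 3 * x ^ 4 + x ^ 6) 0 2)).add
      (hprod (-2 * x ^ 2 + x ^ 4 - x ^ 5 - x ^ 6) 0 3)).add
      (hprod (-x - x ^ 2 + 3 * x ^ 3 - 2 * x ^ 4 + x ^ 7) 1 0)).add
      (hprod (-x - x ^ 2 + 3 * x ^ 3 - x ^ 5) 1 1)).add
      (hprod (x ^ 2 - x ^ 3 + 2 * x ^ 4 + x ^ 5) 1 2)).add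
      (hprod (2 * x - x ^ 2 - x ^ 4) 1 3))
    simp only [add_zero] at this
    exact this
  have hlim : Tendsto (fun N => ∑ n ∈ Finset.range N,
      cas (coin p).p [true, false] [true, true, false, false] n) atTop (𝓝 (Ψ 0 / D)) := by
    have h1 : Tendsto (fun N => (Ψ 0 - Ψ N) / D) atTop (𝓝 ((Ψ 0 - 0) / D)) :=
      (tendsto_const_nhds.sub hΨ0).div_const D
    rw [sub_zero] at h1
    exact h1.congr (fun N => (hsum N).symm)
  have huniq := tendsto_nhds_unique hlim
    (winProb_tendsto (coin p) (coin_pos p) [true, false] [true, true, false, false]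
      (by simp) (by simp))
  have hΨ00 : Ψ 0 = x * (1 - x + 2 * x ^ 2 + x ^ 3) := by
    simp only [Ψ, Nat.zero_add, hS0, hS1, hT0, hT1, hT2, hT3]
    ring
  have hfin : Ψ 0 / D = rat x := by
    rw [hΨ00, hD, rat, mul_div_mul_left _ _ hx0.ne']
  rw [hfin] at huniq
  unfold W
  linarith

lemma continuous_W : Continuous (W [true, false] [true, true, false, false]) := by
  have h : W [true, false] [true, true, false, false] =
      fun p : Set.Ioo (0:ℝ) 1 => 1 / 2 + (1 / 2) * rat ((p:ℝ) * (1 - p)) := by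
    funext p; exact W_HT_HHTT p
  rw [h]
  unfold rat
  have hx : Continuous (fun p : Set.Ioo (0:ℝ) 1 => (p:ℝ) * (1 - p)) :=
    continuous_subtype_val.mul (continuous_const.sub continuous_subtype_val)
  refine continuous_const.add (continuous_const.mul (Continuous.div ?_ ?_ ?_))
  · fun_prop
  · fun_prop
  · intro p
    refine (den_pos (mul_pos p.2.1 (by linarith [p.2.2])) ?_).ne'
    nlinarith [sq_nonneg ((p:ℝ) - 1 / 2)]

/-- `W` is maximal at `1/2` among `p` with `p (1 - p) ≥ 1/5`. -/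
lemma rat_le_quarter {x : ℝ} (h0 : 1 / 5 ≤ x) (h1 : x ≤ 1 / 4) : rat x ≤ rat (1 / 4) := by
  unfold rat
  rw [div_le_div_iff₀ (den_pos (by linarith) h1) (den_pos (by norm_num) le_rfl)]
  have key : (1 - x + 2 * x ^ 2 + x ^ 3) *
      (1 + 1 / 4 - 5 * (1 / 4) ^ 2 + 5 * (1 / 4) ^ 3 + (1 / 4) ^ 7) -
      (1 - 1 / 4 + 2 * (1 / 4) ^ 2 + (1 / 4) ^ 3) * (1 + x - 5 * x ^ 2 + 5 * x ^ 3 + x ^ 7) =
      -((1 / 4 - x) * ((-8196 + 92148 * x - 56376 * x ^ 2 - 228 * x ^ 3 - 912 * x ^ 4 -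
        3648 * x ^ 5 - 14592 * x ^ 6) / 16384)) := by ring
  have h2 : x ^ 2 ≤ 1 / 16 := by nlinarith
  have h3 : x ^ 3 ≤ 1 / 64 := by
    have : x ^ 3 = x * x ^ 2 := by ring
    nlinarith
  have h4 : x ^ 4 ≤ 1 / 16 := by
    have : x ^ 4 = x ^ 2 * x ^ 2 := by ring
    nlinarith [sq_nonneg x]
  have h5 : x ^ 5 ≤ 1 / 16 := by
    have : x ^ 5 = x * x ^ 4 := by ring
    have h6 : 0 ≤ x ^ 4 := by positivity
    nlinarith
  have h6 : x ^ 6 ≤ 1 / 64 := by
    have : x ^ 6 = x * x ^ 5 := by ring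
    have h7 : 0 ≤ x ^ 5 := by positivity
    nlinarith
  have h7 : 0 ≤ (1 / 4 - x) * ((-8196 + 92148 * x - 56376 * x ^ 2 - 228 * x ^ 3 - 912 * x ^ 4 -
        3648 * x ^ 5 - 14592 * x ^ 6) / 16384) := by
    apply mul_nonneg (by linarith)
    apply div_nonneg _ (by norm_num)
    linarith
  linarith

/-- An interior point where a continuous function beats the two end points yields a local
minimum. -/
lemma exists_localMin {f : Set.Ioo (0:ℝ) 1 → ℝ} (hf : Continuous f) {a b c : Set.Ioo (0:ℝ) 1}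
    (hab : a < b) (hbc : b < c) (h1 : f b < f a) (h2 : f b < f c) :
    ∃ d, a < d ∧ d < c ∧ IsLocalMin f d := by
  have hcomp : IsCompact (Set.Icc a c) := by
    rw [Subtype.isCompact_iff]
    have : (Subtype.val '' (Set.Icc a c) : Set ℝ) = Set.Icc (a:ℝ) (c:ℝ) := by
      ext x
      constructor
      · rintro ⟨y, hy, rfl⟩
        exact ⟨hy.1, hy.2⟩
      · intro hx
        exact ⟨⟨x, lt_of_lt_of_le a.2.1 hx.1, lt_of_le_of_lt hx.2 c.2.2⟩, ⟨hx.1, hx.2⟩, rfl⟩
    rw [this]
    exact isCompact_Icc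
  obtain ⟨d, hd, hmin⟩ := hcomp.exists_isMinOn ⟨b, hab.le, hbc.le⟩ hf.continuousOn
  have hdb : f d ≤ f b := hmin ⟨hab.le, hbc.le⟩
  have hda : a < d := lt_of_le_of_ne hd.1 (fun h => by rw [← h] at hdb; linarith)
  have hdc : d < c := lt_of_le_of_ne hd.2 (fun h => by rw [h] at hdb; linarith)
  refine ⟨d, hda, hdc, ?_⟩
  filter_upwards [Ioo_mem_nhds hda hdc] with y hy
  exact hmin ⟨hy.1.le, hy.2.le⟩

end Pool.Agent.V11300.PR
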