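import Pool.Agent.V11300.PR.Renewal

set_option linter.unusedSectionVars false

namespace Pool.Agent.V11300.PR

open MeasureTheory Filter Topology

section Pre

variable {α : Type*}

/-- The first `n` letters. -/
def pre (x : ℕ → α) (n : ℕ) : List α := List.ofFn (fun i : Fin n => x i)

lemma pre_length (x : ℕ → α) (n : ℕ) : (pre x n).length = n := by simp [pre]

lemma pre_take (x : ℕ → α) {m n : ℕ} (h : m ≤ n) : (pre x n).take m = pre x m := by
  apply List.ext_getElem
  · simp [pre, h]
  · intro i h1 h2
    simp [pre]

lemma endsAt_iff (T : List α) (x : ℕ → α) (n : ℕ) : EndsAt T x n ↔ T <:+ pre x n := by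
  rw [List.suffix_iff_eq_drop, pre_length]
  constructor
  · rintro ⟨h1, h2⟩
    apply List.ext_getElem
    · simp [pre]; omega
    · intro i h3 h4
      rw [List.getElem_drop]
      simp only [pre, List.getElem_ofFn]
      exact (h2 i h3).symm
  · intro h
    have hlen := congrArg List.length h
    rw [List.length_drop, pre_length] at hlen
    refine ⟨by omega, fun i hi => ?_⟩
    have h5 : T[i] = ((pre x n).drop (n - T.length))[i]'(by
      rw [List.length_drop, pre_length]; omega) := by
      congr 1
    rw [h5, List.getElem_drop]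
    simp [pre]

lemma infix_pre_iff (T : List α) (x : ℕ → α) (n : ℕ) :
    T <:+: pre x n ↔ ∃ m ≤ n, EndsAt T x m := by
  constructor
  · rintro ⟨s, t, hst⟩
    have hlen := congrArg List.length hst
    simp only [List.length_append, pre_length] at hlen
    refine ⟨(s ++ T).length, by rw [List.length_append]; omega, ?_⟩
    rw [endsAt_iff, ← pre_take x (n := n) (by rw [List.length_append]; omega), ← hst,
      List.take_append_of_le_length le_rfl, List.take_length]
    exact List.suffix_append _ _
  · rintro ⟨m, hm, h⟩
    rw [endsAt_iff, ← pre_take x hm] at h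
    exact h.isInfix.trans (List.take_prefix _ _).isInfix

lemma lt_tau_iff (T : List α) (x : ℕ → α) (n : ℕ) :
    (n : ℕ∞) < tau T x ↔ ¬ T <:+: pre x n := by
  rw [infix_pre_iff]
  unfold tau
  have h1 : (n : ℕ∞) < ⨅ (m : ℕ) (_ : EndsAt T x m), (m : ℕ∞) ↔
      ((n : ℕ∞) + 1 ≤ ⨅ (m : ℕ) (_ : EndsAt T x m), (m : ℕ∞)) := by
    rw [ENat.add_one_le_iff (ENat.natCast_ne_top n)]
  rw [h1]
  simp only [le_iInf_iff]
  constructor
  · rintro h ⟨m, hm, he⟩
    have := h m he
    have h2 : n + 1 ≤ m := by exact_mod_cast this
    omega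
  · intro h m he
    have h2 : n + 1 ≤ m := by
      by_contra hcon
      exact h ⟨m, by omega, he⟩
    exact_mod_cast h2

end Pre

section Cyl

variable {α : Type*} [Fintype α]

lemma Ex_eq_sum (p : α → ℝ) (n : ℕ) (F : List α → ℝ) :
    Ex p n F = ∑ f : Fin n → α, (∏ i, p (f i)) * F (List.ofFn f) := by
  classical
  induction n generalizing F with
  | zero => simp [Ex]
  | succ n ih =>
    simp only [Ex]
    rw [← (Fin.consEquiv (fun _ : Fin (n + 1) => α)).sum_comp, Fintype.sum_prod_type]
    refine Finset.sum_congr rfl fun a _ => ?_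
    rw [ih, Finset.mul_sum]
    refine Finset.sum_congr rfl fun f _ => ?_
    simp [Fin.consEquiv, Fin.prod_univ_succ, List.ofFn_succ]
    ring

variable [MeasurableSpace α] [MeasurableSingletonClass α]

lemma letterLaw_singleton (v : ProbVec α) (a : α) :
    letterLaw v {a} = ENNReal.ofReal (v.p a) := by
  classical
  simp only [letterLaw, Measure.finsetSum_apply, Measure.smul_apply, smul_eq_mul,
    Measure.dirac_apply' _ (measurableSet_singleton a)]
  rw [Finset.sum_eq_single a]
  · simp
  · intro b _ hb; simp [hb]
  · intro h; exact absurd (Finset.mem_univ a) h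

lemma source_cyl (v : ProbVec α) (n : ℕ) (f : Fin n → α) :
    (source v).real {x | ∀ i : Fin n, x i = f i} = ∏ i, v.p (f i) := by
  classical
  rcases isEmpty_or_nonempty α with hα | hα
  · exact absurd (v.sum_eq) (by simp)
  obtain ⟨a0⟩ := hα
  let g : ℕ → α := fun i => if h : i < n then f ⟨i, h⟩ else a0
  have hset : {x : ℕ → α | ∀ i : Fin n, x i = f i} =
      Set.pi (Finset.range n : Set ℕ) (fun i => ({g i} : Set α)) := by
    ext x
    simp only [Set.mem_ofPred_eq, Set.mem_pi, Finset.coe_range, Set.mem_Iio,
      Set.mem_singleton_iff]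
    constructor
    · intro h i hi
      simp only [g, hi, dif_pos]
      exact h ⟨i, hi⟩
    · intro h i
      have := h i i.2
      simpa [g] using this
  rw [hset, Measure.real, source, Measure.infinitePi_pi]
  · simp only [letterLaw_singleton]
    rw [ENNReal.toReal_prod, ← Fin.prod_univ_eq_prod_range
      (fun i => (ENNReal.ofReal (v.p (g i))).toReal) n]
    refine Finset.prod_congr rfl fun i _ => ?_
    simp [g, ENNReal.toReal_ofReal (v.nonneg _)]
  · intro i _; exact measurableSet_singleton _

lemma measurable_pre (n : ℕ) (s : Set (List α)) : MeasurableSet {x : ℕ → α | pre x n ∈ s} := by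
  classical
  have : {x : ℕ → α | pre x n ∈ s} =
      ⋃ f ∈ {f : Fin n → α | List.ofFn f ∈ s}, {x : ℕ → α | ∀ i : Fin n, x i = f i} := by
    ext x
    simp only [Set.mem_ofPred_eq, Set.mem_iUnion, exists_prop]
    constructor
    · intro h; exact ⟨fun i => x i, h, fun i => rfl⟩
    · rintro ⟨f, hf, hx⟩
      have : pre x n = List.ofFn f := by
        unfold pre; congr 1; funext i; exact hx i
      rw [this]; exact hf
  rw [this]
  refine MeasurableSet.biUnion (Set.to_countable _) fun f _ => ?_
  have : {x : ℕ → α | ∀ i : Fin n, x i = f i} = ⋂ i : Fin n, (fun x : ℕ → α => x i) ⁻¹' {f i} := by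
    ext x; simp
  rw [this]
  exact MeasurableSet.iInter fun i => (measurable_pi_apply _) (measurableSet_singleton _)

lemma source_pre (v : ProbVec α) (n : ℕ) (Q : List α → Prop) [DecidablePred Q] :
    (source v).real {x | Q (pre x n)} = Ex v.p n (fun w => if Q w then 1 else 0) := by
  classical
  rw [Ex_eq_sum]
  have h1 : {x : ℕ → α | Q (pre x n)} =
      ⋃ f ∈ (Finset.univ.filter (fun f : Fin n → α => Q (List.ofFn f))),
        {x : ℕ → α | ∀ i : Fin n, x i = f i} := by
    ext x
    simp only [Set.mem_ofPred_eq, Finset.mem_filter, Finset.mem_univ, true_and, Set.mem_iUnion,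
      exists_prop]
    constructor
    · intro h; exact ⟨fun i => x i, h, fun i => rfl⟩
    · rintro ⟨f, hf, hx⟩
      have : pre x n = List.ofFn f := by
        unfold pre; congr 1; funext i; exact hx i
      rw [this]; exact hf
  rw [h1, measureReal_biUnion_finset]
  · rw [Finset.sum_filter]
    refine Finset.sum_congr rfl fun f _ => ?_
    rw [source_cyl]
    split_ifs <;> simp
  · intro f _ g _ hfg
    rw [Function.onFun, Set.disjoint_left]
    intro x hx hy
    apply hfg
    funext i
    exact (hx i).symm.trans (hy i)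
  · intro f _
    have : {x : ℕ → α | ∀ i : Fin n, x i = f i} = ⋂ i : Fin n, (fun x : ℕ → α => x i) ⁻¹' {f i} := by
      ext x; simp
    rw [this]
    exact MeasurableSet.iInter fun i => (measurable_pi_apply _) (measurableSet_singleton _)

variable [DecidableEq α]

/-- `P(τ_T > n) = S(n)`. -/
lemma prob_lt_tau (v : ProbVec α) (T : List α) (n : ℕ) :
    (source v).real {x | (n : ℕ∞) < tau T x} = surv v.p T n := by
  have : {x : ℕ → α | (n : ℕ∞) < tau T x} = {x | ¬ T <:+: pre x n} := by
    ext x; exact lt_tau_iff T x n
  rw [this, source_pre v n (fun w => ¬ T <:+: w)]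
  refine Ex_congr _ _ _ _ fun w _ => ?_
  unfold av; split_ifs <;> simp_all

lemma measurable_lt_tau (T : List α) (n : ℕ) :
    MeasurableSet {x : ℕ → α | (n : ℕ∞) < tau T x} := by
  have : {x : ℕ → α | (n : ℕ∞) < tau T x} = {x | pre x n ∈ {w | ¬ T <:+: w}} := by
    ext x; exact lt_tau_iff T x n
  rw [this]; exact measurable_pre n _

lemma tau_eq_set (T : List α) (n : ℕ) :
    {x : ℕ → α | tau T x = ((n + 1 : ℕ) : ℕ∞)} =
      {x | (n : ℕ∞) < tau T x} \ {x | ((n + 1 : ℕ) : ℕ∞) < tau T x} := by
  ext x
  simp only [Set.mem_ofPred_eq, Set.mem_sdiff, not_lt]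
  constructor
  · intro h
    rw [h]
    exact ⟨by exact_mod_cast Nat.lt_succ_self n, le_rfl⟩
  · rintro ⟨h1, h2⟩
    apply le_antisymm h2
    have : ((n + 1 : ℕ) : ℕ∞) = (n : ℕ∞) + 1 := by push_cast; rfl
    rw [this]
    exact (ENat.add_one_le_iff (ENat.natCast_ne_top n)).mpr h1

lemma measurable_tau_eq (T : List α) (n : ℕ) :
    MeasurableSet {x : ℕ → α | tau T x = ((n + 1 : ℕ) : ℕ∞)} := by
  rw [tau_eq_set]
  exact (measurable_lt_tau T n).diff (measurable_lt_tau T (n + 1))

lemma prob_tau_eq (v : ProbVec α) (T : List α) (n : ℕ) :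
    (source v).real {x | tau T x = ((n + 1 : ℕ) : ℕ∞)} = surv v.p T n - surv v.p T (n + 1) := by
  rw [tau_eq_set, measureReal_sdiff, prob_lt_tau, prob_lt_tau]
  · intro x hx
    simp only [Set.mem_ofPred_eq] at hx ⊢
    refine lt_trans ?_ hx
    exact_mod_cast Nat.lt_succ_self n
  · exact measurable_lt_tau T (n + 1)

/-- The Casorati form of the race. -/
noncomputable def cas (p : α → ℝ) (A B : List α) (n : ℕ) : ℝ :=
  surv p A n * surv p B (n + 1) - surv p A (n + 1) * surv p B n

lemma sum_race (p : α → ℝ) (A B : List α) (N : ℕ) :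
    ∑ n ∈ Finset.range N, (surv p A n - surv p A (n + 1)) * surv p B (n + 1) +
      (1 / 2) * ∑ n ∈ Finset.range N,
        (surv p A n - surv p A (n + 1)) * (surv p B n - surv p B (n + 1)) =
      (1 / 2) * (surv p A 0 * surv p B 0 - surv p A N * surv p B N) +
        (1 / 2) * ∑ n ∈ Finset.range N, cas p A B n := by
  induction N with
  | zero => simp
  | succ N ih =>
    simp only [Finset.sum_range_succ]
    unfold cas at ih ⊢
    linarith [ih]

theorem winProb_tendsto (v : ProbVec α) (hv : ∀ a, 0 < v.p a) (A B : List α) (hA : A ≠ [])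
    (hB : B ≠ []) :
    Tendsto (fun N => ∑ n ∈ Finset.range N, cas v.p A B n) atTop
      (𝓝 (2 * winProb v A B - 1)) := by
  classical
  set μ := source v with hμ
  -- truncated events
  have hLT : ∀ N : ℕ, |(μ.prod μ).real {z | tau A z.1 < tau B z.2} -
      ∑ n ∈ Finset.range N, (surv v.p A n - surv v.p A (n + 1)) * surv v.p B (n + 1)| ≤
      surv v.p A N := by
    intro N
    set U : Set ((ℕ → α) × (ℕ → α)) := ⋃ n ∈ Finset.range N,
      ({x | tau A x = ((n + 1 : ℕ) : ℕ∞)} ×ˢ {y | ((n + 1 : ℕ) : ℕ∞) < tau B y}) with hU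
    have hUm : (μ.prod μ).real U =
        ∑ n ∈ Finset.range N, (surv v.p A n - surv v.p A (n + 1)) * surv v.p B (n + 1) := by
      rw [hU, measureReal_biUnion_finset]
      · refine Finset.sum_congr rfl fun n _ => ?_
        rw [measureReal_prod_prod, prob_tau_eq, prob_lt_tau]
      · intro i _ j _ hij
        rw [Function.onFun, Set.disjoint_left]
        rintro z ⟨h1, _⟩ ⟨h2, _⟩
        simp only [Set.mem_ofPred_eq] at h1 h2
        rw [h1] at h2
        apply hij
        have : i + 1 = j + 1 := by exact_mod_cast h2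
        omega
      · intro n _
        exact (measurable_tau_eq A n).prod (measurable_lt_tau B (n + 1))
    have hsub1 : U ⊆ {z | tau A z.1 < tau B z.2} := by
      intro z hz
      simp only [hU, Set.mem_iUnion, Set.mem_prod, Set.mem_ofPred_eq, exists_prop] at hz
      obtain ⟨n, _, h1, h2⟩ := hz
      simp only [Set.mem_ofPred_eq]
      rw [h1]; exact h2
    have hsub2 : {z | tau A z.1 < tau B z.2} ⊆
        U ∪ ({x | (N : ℕ∞) < tau A x} ×ˢ (Set.univ : Set (ℕ → α))) := by
      intro z hz
      simp only [Set.mem_ofPred_eq] at hz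
      by_cases hN : (N : ℕ∞) < tau A z.1
      · right; exact ⟨hN, Set.mem_univ _⟩
      · left
        rw [not_lt] at hN
        have hfin : tau A z.1 ≠ ⊤ := fun h => by
          rw [h] at hN; exact absurd hN (by simp)
        obtain ⟨m, hm⟩ := ENat.ne_top_iff_exists.mp hfin
        have hm0 : m ≠ 0 := by
          intro h0
          subst h0
          have : (0 : ℕ∞) < tau A z.1 := by
            have := (lt_tau_iff A z.1 0).mpr (by
              intro h
              have := h.length_le
              simp [pre] at this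
              exact hA this)
            simpa using this
          rw [← hm] at this
          simp at this
        obtain ⟨n, rfl⟩ := Nat.exists_eq_succ_of_ne_zero hm0
        simp only [hU, Set.mem_iUnion, Set.mem_prod, Set.mem_ofPred_eq, exists_prop,
          Finset.mem_range]
        refine ⟨n, ?_, hm.symm, ?_⟩
        · rw [← hm] at hN
          have : n.succ ≤ N := by exact_mod_cast hN
          omega
        · have : ((n + 1 : ℕ) : ℕ∞) = tau A z.1 := hm
          rw [this]; exact hz
    have hle1 : (μ.prod μ).real U ≤ (μ.prod μ).real {z | tau A z.1 < tau B z.2} :=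
      measureReal_mono hsub1
    have hle2 : (μ.prod μ).real {z | tau A z.1 < tau B z.2} ≤
        (μ.prod μ).real U + surv v.p A N := by
      refine (measureReal_mono hsub2).trans ((measureReal_union_le _ _).trans ?_)
      rw [measureReal_prod_prod, prob_lt_tau]
      simp
    rw [← hUm, abs_le]
    constructor <;> linarith [surv_nonneg (fun a => (hv a).le) A N]
  have hEQ : ∀ N : ℕ, |(μ.prod μ).real {z | tau A z.1 = tau B z.2} -
      ∑ n ∈ Finset.range N,
        (surv v.p A n - surv v.p A (n + 1)) * (surv v.p B n - surv v.p B (n + 1))| ≤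
      surv v.p A N := by
    intro N
    set U : Set ((ℕ → α) × (ℕ → α)) := ⋃ n ∈ Finset.range N,
      ({x | tau A x = ((n + 1 : ℕ) : ℕ∞)} ×ˢ {y | tau B y = ((n + 1 : ℕ) : ℕ∞)}) with hU
    have hUm : (μ.prod μ).real U =
        ∑ n ∈ Finset.range N,
          (surv v.p A n - surv v.p A (n + 1)) * (surv v.p B n - surv v.p B (n + 1)) := by
      rw [hU, measureReal_biUnion_finset]
      · refine Finset.sum_congr rfl fun n _ => ?_
        rw [measureReal_prod_prod, prob_tau_eq, prob_tau_eq]
      · intro i _ j _ hij
        rw [Function.onFun, Set.disjoint_left]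
        rintro z ⟨h1, _⟩ ⟨h2, _⟩
        simp only [Set.mem_ofPred_eq] at h1 h2
        rw [h1] at h2
        apply hij
        have : i + 1 = j + 1 := by exact_mod_cast h2
        omega
      · intro n _
        exact (measurable_tau_eq A n).prod (measurable_tau_eq B n)
    have hsub1 : U ⊆ {z | tau A z.1 = tau B z.2} := by
      intro z hz
      simp only [hU, Set.mem_iUnion, Set.mem_prod, Set.mem_ofPred_eq, exists_prop] at hz
      obtain ⟨n, _, h1, h2⟩ := hz
      simp only [Set.mem_ofPred_eq]
      rw [h1, h2]
    have hsub2 : {z | tau A z.1 = tau B z.2} ⊆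
        U ∪ ({x | (N : ℕ∞) < tau A x} ×ˢ (Set.univ : Set (ℕ → α))) := by
      intro z hz
      simp only [Set.mem_ofPred_eq] at hz
      by_cases hN : (N : ℕ∞) < tau A z.1
      · right; exact ⟨hN, Set.mem_univ _⟩
      · left
        rw [not_lt] at hN
        have hfin : tau A z.1 ≠ ⊤ := fun h => by
          rw [h] at hN; exact absurd hN (by simp)
        obtain ⟨m, hm⟩ := ENat.ne_top_iff_exists.mp hfin
        have hm0 : m ≠ 0 := by
          intro h0
          subst h0
          have : (0 : ℕ∞) < tau A z.1 := by
            have := (lt_tau_iff A z.1 0).mpr (by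
              intro h
              have := h.length_le
              simp [pre] at this
              exact hA this)
            simpa using this
          rw [← hm] at this
          simp at this
        obtain ⟨n, rfl⟩ := Nat.exists_eq_succ_of_ne_zero hm0
        simp only [hU, Set.mem_iUnion, Set.mem_prod, Set.mem_ofPred_eq, exists_prop,
          Finset.mem_range]
        refine ⟨n, ?_, hm.symm, ?_⟩
        · rw [← hm] at hN
          have : n.succ ≤ N := by exact_mod_cast hN
          omega
        · rw [← hz]; exact hm.symm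
    have hle1 : (μ.prod μ).real U ≤ (μ.prod μ).real {z | tau A z.1 = tau B z.2} :=
      measureReal_mono hsub1
    have hle2 : (μ.prod μ).real {z | tau A z.1 = tau B z.2} ≤
        (μ.prod μ).real U + surv v.p A N := by
      refine (measureReal_mono hsub2).trans ((measureReal_union_le _ _).trans ?_)
      rw [measureReal_prod_prod, prob_lt_tau]
      simp
    rw [← hUm, abs_le]
    constructor <;> linarith [surv_nonneg (fun a => (hv a).le) A N]
  have hA0 : surv v.p A 0 = 1 := surv_eq_one v.sum_eq A 0 (List.length_pos_of_ne_nil hA)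
  have hB0 : surv v.p B 0 = 1 := surv_eq_one v.sum_eq B 0 (List.length_pos_of_ne_nil hB)
  have key : ∀ N : ℕ, |∑ n ∈ Finset.range N, cas v.p A B n - (2 * winProb v A B - 1)| ≤
      4 * surv v.p A N := by
    intro N
    have h1 := hLT N
    have h2 := hEQ N
    have h3 := sum_race v.p A B N
    rw [hA0, hB0] at h3
    have h4 := surv_nonneg (fun a => (hv a).le) A N
    have h5 := surv_nonneg (fun a => (hv a).le) B N
    have h6 := surv_le_one (fun a => (hv a).le) v.sum_eq B N
    have h7 : surv v.p A N * surv v.p B N ≤ surv v.p A N := by nlinarith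
    have h8 : 0 ≤ surv v.p A N * surv v.p B N := mul_nonneg h4 h5
    unfold winProb
    rw [← hμ]
    rw [abs_le] at h1 h2 ⊢
    constructor <;> linarith [h1.1, h1.2, h2.1, h2.2]
  have hz := tendsto_surv hv v.sum_eq A hA
  rw [tendsto_iff_dist_tendsto_zero]
  refine squeeze_zero (fun _ => dist_nonneg) (fun N => ?_) (g := fun N => 4 * surv v.p A N) ?_
  · rw [Real.dist_eq]; exact key N
  · simpa using hz.const_mul 4

end Cyl

end Pool.Agent.V11300.PR
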