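import Pool.Agent.V11300.PR.Conway

set_option linter.unusedSectionVars false
set_option linter.unusedVariables false

/-!
# Comparison of two patterns with the same length and the same probability
-/

namespace Pool.Agent.V11300.PR

open Filter Topology Finset

section

variable {S T : ℕ → ℝ} {L : ℕ} {c c' : ℕ → ℝ} {ρ : ℝ}

/-- total variation of the two first passage laws -/
lemma tv_bound (h : SurvSys S L c ρ) (h' : SurvSys T L c' ρ) (hρ1 : ρ ≤ 1)
    (hsmall : ρ * L + 2 * (ρ * ∑ k ∈ range (L - 1), c k) ≤ 1 / 2) :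
    (Summable fun n => |(S n - S (n + 1)) - (T n - T (n + 1))|) ∧
    ∑' n, |(S n - S (n + 1)) - (T n - T (n + 1))| ≤
      4 * ρ * ∑ k ∈ range (L - 1), |c k - c' k| := by
  set d : ℕ → ℝ := fun n => (S n - S (n + 1)) - (T n - T (n + 1)) with hd
  set D : ℕ → ℝ := fun n => S n - T n with hD
  set β : ℝ := ∑ k ∈ range (L - 1), c k with hβ
  set δ : ℝ := ∑ k ∈ range (L - 1), |c k - c' k| with hδ
  have hdD : ∀ n, d n = D n - D (n + 1) := fun n => by simp only [hd, hD]; ring
  have hDsum : Summable fun n => |D n| := (h.summ.sub h'.summ).abs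
  have hDsumk : ∀ k, Summable fun n => |D (n + k)| := fun k => (summable_nat_add_iff k).mpr hDsum
  have hfS := h.summ_f 0
  have hfT := h'.summ_f 0
  simp only [Nat.add_zero] at hfS hfT
  have hdsum : Summable fun n => |d n| := (hfS.sub hfT).abs
  have hdsumk : ∀ k, Summable fun n => |d (n + k)| := fun k => (summable_nat_add_iff k).mpr hdsum
  refine ⟨hdsum, ?_⟩
  set V : ℝ := ∑' n, |d n| with hV
  set Z : ℝ := ∑' n, |D n| with hZ
  have hρ0 := h.ρpos
  have hLpos := h.Lpos
  have hβ0 : 0 ≤ β := Finset.sum_nonneg fun k _ => h.cnonneg k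
  have hδ0 : 0 ≤ δ := Finset.sum_nonneg fun k _ => abs_nonneg _
  have hD0 : ∀ n, n < L → D n = 0 := fun n hn => by
    simp only [hD]; rw [h.one n hn, h'.one n hn, sub_self]
  have hd0 : ∀ n, n + 1 < L → d n = 0 := fun n hn => by
    rw [hdD, hD0 n (by omega), hD0 (n + 1) hn, sub_self]
  have hVk : ∀ k, ∑' n, |d (n + k)| ≤ V := by
    intro k
    have := hdsum.sum_add_tsum_nat_add k
    have h1 : 0 ≤ ∑ i ∈ range k, |d i| := Finset.sum_nonneg fun i _ => abs_nonneg _
    linarith
  have hVtop : ∑' n, |d (n + (L - 1))| = V := by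
    have := hdsum.sum_add_tsum_nat_add (L - 1)
    have h1 : ∑ i ∈ range (L - 1), |d i| = 0 :=
      Finset.sum_eq_zero fun i hi => by
        rw [hd0 i (by rw [mem_range] at hi; omega), abs_zero]
    linarith
  have hZk : ∀ k, k ≤ L → ∑' n, |D (n + k)| = Z := by
    intro k hk
    have := hDsum.sum_add_tsum_nat_add k
    have h1 : ∑ i ∈ range k, |D i| = 0 :=
      Finset.sum_eq_zero fun i hi => by
        rw [hD0 i (by rw [mem_range] at hi; omega), abs_zero]
    linarith
  -- the input terms
  set inp : ℕ → ℝ := fun n => ρ * ∑ k ∈ range (L - 1),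
    (c k * |d (n + k)| + |c k - c' k| * (T (n + k) - T (n + k + 1))) with hinp
  have hinpsum : Summable inp := by
    refine Summable.mul_left ρ (summable_sum fun k _ => ?_)
    exact ((hdsumk k).mul_left _).add ((h'.summ_f k).mul_left _)
  have hinple : ∑' n, inp n ≤ ρ * β * V + ρ * δ := by
    simp only [hinp]
    rw [tsum_mul_left, Summable.tsum_finsetSum (fun k _ =>
      ((hdsumk k).mul_left _).add ((h'.summ_f k).mul_left _))]
    have h1 : ∀ k ∈ range (L - 1),
        ∑' n, (c k * |d (n + k)| + |c k - c' k| * (T (n + k) - T (n + k + 1))) ≤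
          c k * V + |c k - c' k| := by
      intro k _
      rw [((hdsumk k).mul_left _).tsum_add ((h'.summ_f k).mul_left _), tsum_mul_left,
        tsum_mul_left]
      have h2 := mul_le_mul_of_nonneg_left (hVk k) (h.cnonneg k)
      have h3 := mul_le_mul_of_nonneg_left (h'.tsum_f_shift_le k) (abs_nonneg (c k - c' k))
      linarith
    have h4 := Finset.sum_le_sum h1
    rw [Finset.sum_add_distrib, ← Finset.sum_mul] at h4
    have h5 := mul_le_mul_of_nonneg_left h4 hρ0.le
    linarith
  have hmain : ∀ n, |d (n + (L - 1)) - ρ * D n| ≤ inp n := by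
    intro n
    have e1 := h.rec_eq n
    have e2 := h'.rec_eq n
    have hLe : L = (L - 1) + 1 := by omega
    rw [hLe, Finset.sum_range_succ, h.top] at e1
    rw [hLe, Finset.sum_range_succ, h'.top] at e2
    have e3 : d (n + (L - 1)) - ρ * D n = -(ρ * ∑ k ∈ range (L - 1),
        (c k * d (n + k) + (c k - c' k) * (T (n + k) - T (n + k + 1)))) := by
      have e4 : ∑ k ∈ range (L - 1),
          (c k * d (n + k) + (c k - c' k) * (T (n + k) - T (n + k + 1))) =
          ∑ k ∈ range (L - 1), c k * (S (n + k) - S (n + k + 1)) -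
          ∑ k ∈ range (L - 1), c' k * (T (n + k) - T (n + k + 1)) := by
        rw [← Finset.sum_sub_distrib]
        refine Finset.sum_congr rfl fun k _ => ?_
        simp only [hd]; ring
      rw [e4]
      have e5 : ρ * ρ⁻¹ = 1 := mul_inv_cancel₀ hρ0.ne'
      simp only [hd, hD]
      have e6 : S (n + (L - 1)) - S (n + (L - 1) + 1) =
          ρ * (S n - ∑ k ∈ range (L - 1), c k * (S (n + k) - S (n + k + 1))) := by
        rw [e1]
        linear_combination (-(S (n + (L - 1)) - S (n + (L - 1) + 1))) * e5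
      have e7 : T (n + (L - 1)) - T (n + (L - 1) + 1) =
          ρ * (T n - ∑ k ∈ range (L - 1), c' k * (T (n + k) - T (n + k + 1))) := by
        rw [e2]
        linear_combination (-(T (n + (L - 1)) - T (n + (L - 1) + 1))) * e5
      rw [e6, e7]
      ring
    rw [e3, abs_neg, abs_mul, abs_of_pos hρ0]
    refine mul_le_mul_of_nonneg_left ?_ hρ0.le
    refine (Finset.abs_sum_le_sum_abs _ _).trans (Finset.sum_le_sum fun k _ => ?_)
    refine (abs_add_le _ _).trans ?_
    rw [abs_mul, abs_mul, abs_of_nonneg (h.cnonneg k), abs_of_nonneg (h'.f_nonneg _)]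
  -- telescoping
  have htel : ∀ n m, D n = D (n + m) + ∑ i ∈ range m, d (n + i) := by
    intro n m
    induction m with
    | zero => simp
    | succ m ih =>
      rw [Finset.sum_range_succ, hdD (n + m), show n + (m + 1) = n + m + 1 by ring]
      linarith
  have hstep : ∀ n, |D (n + L)| ≤ (1 - ρ) * |D (n + (L - 1))| +
      ρ * ∑ i ∈ range (L - 1), |d (n + i)| + inp n := by
    intro n
    have e1 : D (n + L) = D (n + (L - 1)) - d (n + (L - 1)) := by
      rw [hdD, show n + (L - 1) + 1 = n + L by omega]; ring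
    have e2 := htel n (L - 1)
    have e3 : D (n + L) = (1 - ρ) * D (n + (L - 1)) - ρ * ∑ i ∈ range (L - 1), d (n + i) -
        (d (n + (L - 1)) - ρ * D n) := by
      rw [e1, e2]; ring
    have e4 : |∑ i ∈ range (L - 1), d (n + i)| ≤ ∑ i ∈ range (L - 1), |d (n + i)| :=
      Finset.abs_sum_le_sum_abs _ _
    rw [e3]
    have h1 := abs_sub ((1 - ρ) * D (n + (L - 1)) - ρ * ∑ i ∈ range (L - 1), d (n + i))
      (d (n + (L - 1)) - ρ * D n)
    have h2 := abs_sub ((1 - ρ) * D (n + (L - 1))) (ρ * ∑ i ∈ range (L - 1), d (n + i))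
    rw [abs_mul, abs_mul, abs_of_nonneg (by linarith : 0 ≤ 1 - ρ), abs_of_pos hρ0] at h2
    have h3 := mul_le_mul_of_nonneg_left e4 hρ0.le
    have h4 := hmain n
    linarith
  have hsumd : Summable fun n => ∑ i ∈ range (L - 1), |d (n + i)| :=
    summable_sum fun i _ => hdsumk i
  have hsumdle : ∑' n, ∑ i ∈ range (L - 1), |d (n + i)| ≤ L * V := by
    rw [Summable.tsum_finsetSum (fun i _ => hdsumk i)]
    have h1 : ∑ i ∈ range (L - 1), ∑' n, |d (n + i)| ≤ ∑ i ∈ range (L - 1), V :=
      Finset.sum_le_sum fun i _ => hVk i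
    rw [Finset.sum_const, card_range, nsmul_eq_mul] at h1
    have hV0 : 0 ≤ V := tsum_nonneg fun n => abs_nonneg _
    have h2 : ((L - 1 : ℕ) : ℝ) * V ≤ L * V := by
      apply mul_le_mul_of_nonneg_right _ hV0
      exact_mod_cast Nat.sub_le L 1
    linarith
  have hZineq : Z ≤ (1 - ρ) * Z + ρ * (L * V) + (ρ * β * V + ρ * δ) := by
    have h1 : Z ≤ ∑' n, ((1 - ρ) * |D (n + (L - 1))| +
        ρ * ∑ i ∈ range (L - 1), |d (n + i)| + inp n) := by
      rw [← hZk L le_rfl]
      exact (hDsumk L).tsum_le_tsum hstep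
        ((((hDsumk (L - 1)).mul_left _).add (hsumd.mul_left _)).add hinpsum)
    rw [(((hDsumk (L - 1)).mul_left _).add (hsumd.mul_left _)).tsum_add hinpsum,
      ((hDsumk (L - 1)).mul_left _).tsum_add (hsumd.mul_left _), tsum_mul_left, tsum_mul_left,
      hZk (L - 1) (by omega)] at h1
    have h2 := mul_le_mul_of_nonneg_left hsumdle hρ0.le
    linarith
  have hVineq : V ≤ ρ * Z + (ρ * β * V + ρ * δ) := by
    have h1 : ∀ n, |d (n + (L - 1))| ≤ ρ * |D n| + inp n := by
      intro n
      have h2 := hmain n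
      have h3 := abs_sub_abs_le_abs_sub (d (n + (L - 1))) (ρ * D n)
      rw [abs_mul, abs_of_pos hρ0] at h3
      linarith
    have h4 : V ≤ ∑' n, (ρ * |D n| + inp n) := by
      rw [← hVtop]
      exact (hdsumk (L - 1)).tsum_le_tsum h1 ((hDsum.mul_left _).add hinpsum)
    rw [(hDsum.mul_left _).tsum_add hinpsum, tsum_mul_left] at h4
    linarith
  have hV0 : 0 ≤ V := tsum_nonneg fun n => abs_nonneg _
  have h9 : (ρ * L + 2 * (ρ * β)) * V ≤ 1 / 2 * V := mul_le_mul_of_nonneg_right hsmall hV0
  nlinarith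

/-- Second order comparison of patterns of the same length and probability. -/
theorem adv_neg_of_refined (h : SurvSys S L c ρ) (h' : SurvSys T L c' ρ) (hρ1 : ρ ≤ 1)
    (hsmall : ρ * L + 2 * (ρ * ∑ k ∈ range (L - 1), c k) ≤ 1 / 2)
    (hE : ρ * ∑ k ∈ range L, c k ≤ 2) (hE' : ρ * ∑ k ∈ range L, c' k ≤ 2)
    (hgap : 34 * L * ρ * ∑ k ∈ range (L - 1), |c k - c' k| <
      ∑ k ∈ range L, c k - ∑ k ∈ range L, c' k) : adv S T < 0 := by
  obtain ⟨hdsum, hV⟩ := tv_bound h h' hρ1 hsmall
  set V : ℝ := ∑' n, |(S n - S (n + 1)) - (T n - T (n + 1))| with hVdef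
  set δ : ℝ := ∑ k ∈ range (L - 1), |c k - c' k| with hδ
  have hρ0 := h.ρpos
  have hLpos := h.Lpos
  have hδ0 : 0 ≤ δ := Finset.sum_nonneg fun k _ => abs_nonneg _
  have hV0 : 0 ≤ V := tsum_nonneg fun n => abs_nonneg _
  have hδ' : ∑ k ∈ range L, |c k - c' k| = δ := by
    have hLe : L = (L - 1) + 1 := by omega
    rw [hLe, Finset.sum_range_succ, h.top, h'.top, sub_self, abs_zero, add_zero]
  have hek : ∀ j, |ek S T j - ek T S j| ≤ 2 * (ρ * V) := by
    intro j
    unfold ek
    rw [← (summ_ek h h' j).tsum_sub (summ_ek h' h j)]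
    have hs1 : Summable fun n => |(S (n + j) - S (n + j + 1)) - (T (n + j) - T (n + j + 1))| :=
      (summable_nat_add_iff (f := fun n => |(S n - S (n + 1)) - (T n - T (n + 1))|) j).mpr hdsum
    have hs1le : ∑' n, |(S (n + j) - S (n + j + 1)) - (T (n + j) - T (n + j + 1))| ≤ V := by
      have := hdsum.sum_add_tsum_nat_add j
      have h1 : 0 ≤ ∑ i ∈ range j, |(S i - S (i + 1)) - (T i - T (i + 1))| :=
        Finset.sum_nonneg fun i _ => abs_nonneg _
      linarith
    have hpt : ∀ n, |(S (n + j) - S (n + j + 1)) * (T n - T (n + 1)) -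
        (T (n + j) - T (n + j + 1)) * (S n - S (n + 1))| ≤
        ρ * |(S (n + j) - S (n + j + 1)) - (T (n + j) - T (n + j + 1))| +
        ρ * |(S n - S (n + 1)) - (T n - T (n + 1))| := by
      intro n
      have e : (S (n + j) - S (n + j + 1)) * (T n - T (n + 1)) -
          (T (n + j) - T (n + j + 1)) * (S n - S (n + 1)) =
          (T n - T (n + 1)) * ((S (n + j) - S (n + j + 1)) - (T (n + j) - T (n + j + 1))) -
          (T (n + j) - T (n + j + 1)) * ((S n - S (n + 1)) - (T n - T (n + 1))) := by ring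
      rw [e]
      refine (abs_sub _ _).trans ?_
      rw [abs_mul, abs_mul, abs_of_nonneg (h'.f_nonneg n), abs_of_nonneg (h'.f_nonneg (n + j))]
      have h1 := mul_le_mul_of_nonneg_right (h'.f_le n)
        (abs_nonneg ((S (n + j) - S (n + j + 1)) - (T (n + j) - T (n + j + 1))))
      have h2 := mul_le_mul_of_nonneg_right (h'.f_le (n + j))
        (abs_nonneg ((S n - S (n + 1)) - (T n - T (n + 1))))
      linarith
    have hsR := (hs1.mul_left ρ).add (hdsum.mul_left ρ)
    have h3 := (summ_ek h h' j).sub (summ_ek h' h j)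
    calc |∑' n, ((S (n + j) - S (n + j + 1)) * (T n - T (n + 1)) -
          (T (n + j) - T (n + j + 1)) * (S n - S (n + 1)))| ≤
        ∑' n, |(S (n + j) - S (n + j + 1)) * (T n - T (n + 1)) -
          (T (n + j) - T (n + j + 1)) * (S n - S (n + 1))| := by
          have := norm_tsum_le_tsum_norm h3.norm
          simpa [Real.norm_eq_abs] using this
      _ ≤ ∑' n, (ρ * |(S (n + j) - S (n + j + 1)) - (T (n + j) - T (n + j + 1))| +
          ρ * |(S n - S (n + 1)) - (T n - T (n + 1))|) := h3.abs.tsum_le_tsum hpt hsR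
      _ = ρ * ∑' n, |(S (n + j) - S (n + j + 1)) - (T (n + j) - T (n + j + 1))| + ρ * V := by
          rw [(hs1.mul_left ρ).tsum_add (hdsum.mul_left ρ), tsum_mul_left, tsum_mul_left]
      _ ≤ 2 * (ρ * V) := by nlinarith [mul_le_mul_of_nonneg_left hs1le hρ0.le]
  by_contra hcon
  push Not at hcon
  rw [adv_eq h h'] at hcon
  have hsum := Gk_zero_add h h'
  have h0 := ek_nonneg h h' 0
  have h0' := ek_le h h' 0
  have hc := conway h h'
  -- the two combinations
  have hplus : ∀ k ∈ range L, (c k - c' k) - |c k - c' k| * (2 * L * ρ) ≤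
      (c k - c' k) * (Gk S T k + Gk T S k) := by
    intro k hk
    rw [mem_range] at hk
    have e1 := Gk_eq h h' hk
    have e2 := Gk_eq h' h hk
    have l1 : 0 ≤ ∑ j ∈ range k, ek S T (j + 1) := Finset.sum_nonneg fun j _ => ek_nonneg h h' _
    have l2 : 0 ≤ ∑ j ∈ range k, ek T S (j + 1) := Finset.sum_nonneg fun j _ => ek_nonneg h' h _
    have l3 : ∑ j ∈ range k, ek S T (j + 1) ≤ k * ρ := by
      have := Finset.sum_le_sum (s := range k) (fun j _ => ek_le h h' (j + 1))
      rwa [Finset.sum_const, card_range, nsmul_eq_mul] at this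
    have l4 : ∑ j ∈ range k, ek T S (j + 1) ≤ k * ρ := by
      have := Finset.sum_le_sum (s := range k) (fun j _ => ek_le h' h (j + 1))
      rwa [Finset.sum_const, card_range, nsmul_eq_mul] at this
    have hkL : (k : ℝ) + 1 ≤ L := by exact_mod_cast hk
    have hν0 : 0 ≤ Gk S T k + Gk T S k - 1 := by linarith
    have hν1 : Gk S T k + Gk T S k - 1 ≤ 2 * L * ρ := by
      have : ((k : ℝ) + 1) * ρ ≤ L * ρ := mul_le_mul_of_nonneg_right hkL hρ0.le
      nlinarith
    have h5 : -(|c k - c' k| * (2 * L * ρ)) ≤ (c k - c' k) * (Gk S T k + Gk T S k - 1) := by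
      have h6 : |(c k - c' k) * (Gk S T k + Gk T S k - 1)| ≤ |c k - c' k| * (2 * L * ρ) := by
        rw [abs_mul, abs_of_nonneg hν0]
        exact mul_le_mul_of_nonneg_left hν1 (abs_nonneg _)
      exact (abs_le.mp h6).1
    linarith
  have hminus : ∀ k ∈ range L, -((c k + c' k) * (2 * L * (ρ * V))) ≤
      (c k + c' k) * (Gk S T k - Gk T S k) := by
    intro k hk
    rw [mem_range] at hk
    have e1 := Gk_eq h h' hk
    have e2 := Gk_eq h' h hk
    have h5 : |∑ j ∈ range k, (ek S T (j + 1) - ek T S (j + 1))| ≤ 2 * L * (ρ * V) := by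
      refine (Finset.abs_sum_le_sum_abs _ _).trans ?_
      have h6 := Finset.sum_le_sum (s := range k) (fun j _ => hek (j + 1))
      rw [Finset.sum_const, card_range, nsmul_eq_mul] at h6
      have hkL : (k : ℝ) ≤ L := by exact_mod_cast hk.le
      have h7 : (k : ℝ) * (2 * (ρ * V)) ≤ L * (2 * (ρ * V)) :=
        mul_le_mul_of_nonneg_right hkL (by positivity)
      linarith
    rw [Finset.sum_sub_distrib] at h5
    have h6 := (abs_le.mp h5).1
    have h7 : -(2 * L * (ρ * V)) ≤ Gk S T k - Gk T S k := by linarith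
    have h8 := mul_le_mul_of_nonneg_left h7 (add_nonneg (h.cnonneg k) (h'.cnonneg k))
    linarith
  have hP := Finset.sum_le_sum hplus
  have hM := Finset.sum_le_sum hminus
  rw [Finset.sum_sub_distrib, Finset.sum_sub_distrib, ← Finset.sum_mul, hδ'] at hP
  rw [Finset.sum_neg_distrib, ← Finset.sum_mul, Finset.sum_add_distrib] at hM
  have hcomb : ∑ k ∈ range L, (c k - c' k) * (Gk S T k + Gk T S k) +
      ∑ k ∈ range L, (c k + c' k) * (Gk S T k - Gk T S k) = 0 := by
    rw [← Finset.sum_add_distrib]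
    have : ∀ k ∈ range L, (c k - c' k) * (Gk S T k + Gk T S k) +
        (c k + c' k) * (Gk S T k - Gk T S k) = 2 * (c k * Gk S T k) - 2 * (c' k * Gk T S k) :=
      fun k _ => by ring
    rw [Finset.sum_congr rfl this, Finset.sum_sub_distrib, ← Finset.mul_sum, ← Finset.mul_sum, hc,
      sub_self]
  have hEE : (∑ k ∈ range L, c k + ∑ k ∈ range L, c' k) * (2 * L * (ρ * V)) ≤ 8 * L * V := by
    have e : (∑ k ∈ range L, c k + ∑ k ∈ range L, c' k) * (2 * L * (ρ * V)) =
        (ρ * ∑ k ∈ range L, c k + ρ * ∑ k ∈ range L, c' k) * (2 * L * V) := by ring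
    rw [e]
    have h1 : ρ * ∑ k ∈ range L, c k + ρ * ∑ k ∈ range L, c' k ≤ 4 := by linarith
    have h2 : (0:ℝ) ≤ 2 * L * V := by positivity
    nlinarith [mul_le_mul_of_nonneg_right h1 h2]
  have hLV : 8 * (L : ℝ) * V ≤ 32 * L * ρ * δ := by
    have : (0:ℝ) ≤ L := Nat.cast_nonneg _
    nlinarith [mul_le_mul_of_nonneg_left hV (by positivity : (0:ℝ) ≤ 8 * L)]
  nlinarith

/-- Patterns with the same data have the same law. -/
theorem surv_eq_of_same (h : SurvSys S L c ρ) (h' : SurvSys T L c' ρ)
    (hc : ∀ k < L, c k = c' k) : S = T := by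
  have key : ∀ N, ∀ n < N, S n = T n := by
    intro N
    induction N with
    | zero => intro n hn; omega
    | succ N ih =>
      intro n hn
      rcases Nat.lt_or_ge n N with h1 | h1
      · exact ih n h1
      · have hnN : n = N := by omega
        subst hnN
        rcases Nat.lt_or_ge n L with h2 | h2
        · rw [h.one n h2, h'.one n h2]
        · obtain ⟨m, hm⟩ : ∃ m, n = m + L := ⟨n - L, by omega⟩
          have hLpos := h.Lpos
          have e1 := h.rec_eq m
          have e2 := h'.rec_eq m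
          have hLe : L = (L - 1) + 1 := by omega
          rw [hLe, Finset.sum_range_succ, h.top] at e1
          rw [hLe, Finset.sum_range_succ, h'.top] at e2
          have e3 : ∑ k ∈ range (L - 1), c k * (S (m + k) - S (m + k + 1)) =
              ∑ k ∈ range (L - 1), c' k * (T (m + k) - T (m + k + 1)) := by
            refine Finset.sum_congr rfl fun k hk => ?_
            rw [mem_range] at hk
            rw [hc k (by omega), ih (m + k) (by omega), ih (m + k + 1) (by omega)]
          rw [e3, ih m (by omega)] at e1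
          have e4 : ρ⁻¹ * (S (m + (L - 1)) - S (m + (L - 1) + 1)) =
              ρ⁻¹ * (T (m + (L - 1)) - T (m + (L - 1) + 1)) := by linarith
          have e5 := mul_left_cancel₀ (inv_ne_zero h.ρpos.ne') e4
          rw [ih (m + (L - 1)) (by omega), show m + (L - 1) + 1 = n by omega] at e5
          linarith
  funext n
  exact key (n + 1) n (Nat.lt_succ_self n)

end

end Pool.Agent.V11300.PR
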