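import Pool.Agent.V11300.PR.Basic

set_option linter.unusedSectionVars false

namespace Pool.Agent.V11300.PR

variable {α : Type*} [Fintype α] [DecidableEq α]

lemma infix_take_mono {T w : List α} {m n : ℕ} (hmn : m ≤ n) (h : T <:+: w.take m) :
    T <:+: w.take n := by
  refine h.trans ?_
  have : w.take m = (w.take n).take m := by rw [List.take_take, Nat.min_eq_left hmn]
  rw [this]
  exact (List.take_prefix _ _).isInfix

lemma av_nonneg (T w : List α) : 0 ≤ av T w := by unfold av; split_ifs <;> norm_num

lemma av_le_one (T w : List α) : av T w ≤ 1 := by unfold av; split_ifs <;> norm_num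

lemma av_anti {T w : List α} {m n : ℕ} (hmn : m ≤ n) : av T (w.take n) ≤ av T (w.take m) := by
  unfold av
  split_ifs with h1 h2
  · norm_num
  · norm_num
  · rename_i h2; exact absurd (infix_take_mono hmn h2) h1
  · norm_num

lemma suffix_of_first {T w : List α} {m : ℕ} (h1 : T <:+: w.take (m + 1))
    (h2 : ¬ T <:+: w.take m) : T <:+ w.take (m + 1) := by
  obtain ⟨s, t, hst⟩ := h1
  rcases List.eq_nil_or_concat t with rfl | ⟨t', a, rfl⟩
  · exact ⟨s, by simpa using hst⟩
  · exfalso
    apply h2
    refine ⟨s, t', ?_⟩
    by_cases hm : m < w.length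
    · have : w.take (m + 1) = w.take m ++ [w[m]] := by
        rw [List.take_succ_eq_append_getElem hm]
      rw [this] at hst
      have h3 : (s ++ T ++ t') ++ [a] = w.take m ++ [w[m]] := by
        rw [← hst]; simp
      exact (List.append_inj' h3 rfl).1
    · exfalso
      apply h2
      have e1 : w.take (m + 1) = w := List.take_of_length_le (by omega)
      have e2 : w.take m = w := List.take_of_length_le (by omega)
      rw [e2]
      rw [e1] at hst
      exact ⟨s, _, hst⟩

/-- Pointwise form of the renewal identity. -/
lemma renewal_pointwise (T : List α) (hT : T ≠ []) (n : ℕ) (w : List α)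
    (hw : w.length = n + T.length) :
    av T (w.take n) * (if w.drop n = T then (1:ℝ) else 0) =
      ∑ k ∈ (Finset.Icc 1 T.length).filter (fun k => T.take k = T.drop (T.length - k)),
        (av T (w.take (n + k - 1)) - av T (w.take (n + k))) *
          (if w.drop (n + k) = T.drop k then (1:ℝ) else 0) := by
  have hTpos : 0 < T.length := List.length_pos_of_ne_nil hT
  by_cases hL : ¬ T <:+: w.take n ∧ w.drop n = T
  · obtain ⟨h1, h2⟩ := hL
    have hex : ∃ m, T <:+: w.take m := by
      refine ⟨w.length, ?_⟩
      rw [List.take_length, ← List.take_append_drop n w, h2]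
      exact (List.suffix_append _ _).isInfix
    classical
    set m := Nat.find hex with hm
    have hm1 : T <:+: w.take m := Nat.find_spec hex
    have hm2 : ∀ j < m, ¬ T <:+: w.take j := fun j hj => Nat.find_min hex hj
    have hnm : n < m := by
      by_contra hcon
      exact h1 (infix_take_mono (not_lt.mp hcon) hm1)
    have hmle : m ≤ n + T.length := by
      apply Nat.find_min' hex
      rw [List.take_of_length_le (by omega), ← List.take_append_drop n w, h2]
      exact (List.suffix_append _ _).isInfix
    have hsuf : T <:+ w.take m := by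
      obtain ⟨j, hj⟩ : ∃ j, m = j + 1 := ⟨m - 1, by omega⟩
      rw [hj]
      exact suffix_of_first (hj ▸ hm1) (hm2 j (by omega))
    have htake : w.take m = w.take n ++ T.take (m - n) := by
      conv_lhs => rw [← List.take_append_drop n w, h2]
      rw [List.take_append]
      have hlen : (w.take n).length = n := by rw [List.length_take]; omega
      rw [List.take_of_length_le (by omega), hlen]
    have hmem : m - n ∈ (Finset.Icc 1 T.length).filter
        (fun k => T.take k = T.drop (T.length - k)) := by
      rw [Finset.mem_filter, Finset.mem_Icc]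
      refine ⟨⟨by omega, by omega⟩, ?_⟩
      have hs1 : T.take (m - n) <:+ w.take m := by rw [htake]; exact List.suffix_append _ _
      have hs2 : T.take (m - n) <:+ T := by
        apply List.suffix_of_suffix_length_le hs1 hsuf
        rw [List.length_take]; omega
      have := List.suffix_iff_eq_drop.mp hs2
      rw [List.length_take, Nat.min_eq_left (by omega)] at this
      exact this
    rw [Finset.sum_eq_single (m - n)]
    · rw [if_pos h2]
      have e1 : av T (w.take n) = 1 := by simp [av, h1]
      have e2 : av T (w.take (n + (m - n) - 1)) = 1 := by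
        have : ¬ T <:+: w.take (n + (m - n) - 1) := hm2 _ (by omega)
        simp [av, this]
      have e3 : av T (w.take (n + (m - n))) = 0 := by
        have : T <:+: w.take (n + (m - n)) := by
          rw [show n + (m - n) = m by omega]; exact hm1
        simp [av, this]
      have e4 : w.drop (n + (m - n)) = T.drop (m - n) := by
        rw [← List.drop_drop, h2]
      rw [e1, e2, e3, if_pos e4]; norm_num
    · intro k hk hkm
      rw [Finset.mem_filter, Finset.mem_Icc] at hk
      have : av T (w.take (n + k - 1)) - av T (w.take (n + k)) = 0 := by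
        rcases lt_or_gt_of_ne (show n + k ≠ m by omega) with hlt | hgt
        · have a1 : ¬ T <:+: w.take (n + k - 1) := hm2 _ (by omega)
          have a2 : ¬ T <:+: w.take (n + k) := hm2 _ hlt
          simp [av, a1, a2]
        · have a1 : T <:+: w.take (n + k - 1) := infix_take_mono (by omega) hm1
          have a2 : T <:+: w.take (n + k) := infix_take_mono (by omega) hm1
          simp [av, a1, a2]
      rw [this, zero_mul]
    · intro hcon; exact absurd hmem hcon
  · have hzero : av T (w.take n) * (if w.drop n = T then (1:ℝ) else 0) = 0 := by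
      unfold av
      by_cases h2 : w.drop n = T
      · have h1 : T <:+: w.take n := by
          by_contra h1; exact hL ⟨h1, h2⟩
        simp [h1]
      · simp [h2]
    rw [hzero]
    symm
    refine Finset.sum_eq_zero fun k hk => ?_
    rw [Finset.mem_filter, Finset.mem_Icc] at hk
    obtain ⟨⟨hk1, hk2⟩, hk3⟩ := hk
    by_contra hne
    have hd : w.drop (n + k) = T.drop k := by
      by_contra hcon; apply hne; rw [if_neg hcon, mul_zero]
    have ha : ¬ T <:+: w.take (n + k - 1) ∧ T <:+: w.take (n + k) := by
      by_contra hcon
      apply hne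
      have : av T (w.take (n + k - 1)) - av T (w.take (n + k)) = 0 := by
        by_cases a1 : T <:+: w.take (n + k - 1)
        · have a2 : T <:+: w.take (n + k) := infix_take_mono (by omega) a1
          simp [av, a1, a2]
        · have a2 : ¬ T <:+: w.take (n + k) := fun a2 => hcon ⟨a1, a2⟩
          simp [av, a1, a2]
      rw [this, zero_mul]
    apply hL
    refine ⟨fun h => ha.1 (infix_take_mono (by omega) h), ?_⟩
    obtain ⟨j, hj⟩ : ∃ j, n + k = j + 1 := ⟨n + k - 1, by omega⟩
    have hsuf : T <:+ w.take (n + k) := by
      rw [hj]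
      refine suffix_of_first (hj ▸ ha.2) ?_
      have := ha.1
      rwa [show n + k - 1 = j by omega] at this
    have h5 : (w.take (n + k)).drop n = T.take k := by
      obtain ⟨s, hs⟩ := hsuf
      have hlen : s.length + T.length = n + k := by
        have := congrArg List.length hs
        rw [List.length_append, List.length_take] at this
        omega
      rw [← hs, List.drop_append, List.drop_eq_nil_of_le (by omega), List.nil_append, hk3]
      congr 1
      omega
    calc w.drop n = ((w.take (n + k)) ++ w.drop (n + k)).drop n := by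
          rw [List.take_append_drop]
      _ = (w.take (n + k)).drop n ++ w.drop (n + k) := by
          rw [List.drop_append]
          congr 1
          rw [List.length_take]
          have : n - min (n + k) w.length = 0 := by omega
          rw [this, List.drop_zero]
      _ = T.take k ++ T.drop k := by rw [h5, hd]
      _ = T := List.take_append_drop _ _

lemma Ex_take (p : α → ℝ) (hp : ∑ a, p a = 1) (m n : ℕ) (F : List α → ℝ) :
    Ex p (m + n) (fun w => F (w.take m)) = Ex p m F := by
  rw [Ex_add]
  refine Ex_congr _ _ _ _ fun u hu => ?_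
  have : Ex p n (fun w => F ((u ++ w).take m)) = Ex p n (fun _ => F u) := by
    refine Ex_congr _ _ _ _ fun w _ => ?_
    rw [List.take_append_of_le_length (by omega), List.take_of_length_le (by omega)]
  rw [this, Ex_const hp]

/-- The renewal recursion: `P(T) S(n) = ∑_k P(T_{k+1} ⋯ T_L) (S(n+k-1) - S(n+k))`, the sum being
over the lengths `k` of the borders of `T` (with `k = |T|` included). -/
theorem surv_renewal (p : α → ℝ) (hp : ∑ a, p a = 1) (T : List α) (hT : T ≠ []) (n : ℕ) :
    wt p T * surv p T n =
      ∑ k ∈ (Finset.Icc 1 T.length).filter (fun k => T.take k = T.drop (T.length - k)),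
        wt p (T.drop k) * (surv p T (n + k - 1) - surv p T (n + k)) := by
  have h := Ex_congr p (n + T.length)
    (fun w => av T (w.take n) * (if w.drop n = T then (1:ℝ) else 0))
    (fun w => ∑ k ∈ (Finset.Icc 1 T.length).filter (fun k => T.take k = T.drop (T.length - k)),
        (av T (w.take (n + k - 1)) - av T (w.take (n + k))) *
          (if w.drop (n + k) = T.drop k then (1:ℝ) else 0))
    (fun w hw => renewal_pointwise T hT n w hw)
  rw [Ex_sum] at h
  have hl : Ex p (n + T.length)
      (fun w => av T (w.take n) * (if w.drop n = T then (1:ℝ) else 0)) =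
      wt p T * surv p T n := by
    rw [Ex_add]
    have : Ex p n (fun u => Ex p T.length (fun w =>
        av T ((u ++ w).take n) * (if (u ++ w).drop n = T then (1:ℝ) else 0))) =
        Ex p n (fun u => av T u * wt p T) := by
      refine Ex_congr _ _ _ _ fun u hu => ?_
      rw [← Ex_single, ← Ex_const_mul]
      refine Ex_congr _ _ _ _ fun w hw => ?_
      rw [List.take_append_of_le_length (by omega), List.take_of_length_le (by omega),
        List.drop_append_of_le_length (by omega), List.drop_eq_nil_of_le (by omega)]
      simp
    rw [this, Ex_mul_const]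
    unfold surv; ring
  rw [hl] at h
  rw [h]
  refine Finset.sum_congr rfl fun k hk => ?_
  rw [Finset.mem_filter, Finset.mem_Icc] at hk
  obtain ⟨⟨hk1, hk2⟩, hk3⟩ := hk
  have e : n + T.length = (n + k) + (T.drop k).length := by rw [List.length_drop]; omega
  rw [e, Ex_add]
  have : Ex p (n + k) (fun u => Ex p (T.drop k).length (fun w =>
      (av T ((u ++ w).take (n + k - 1)) - av T ((u ++ w).take (n + k))) *
        (if (u ++ w).drop (n + k) = T.drop k then (1:ℝ) else 0))) =
      Ex p (n + k) (fun u => (av T (u.take (n + k - 1)) - av T u) * wt p (T.drop k)) := by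
    refine Ex_congr _ _ _ _ fun u hu => ?_
    rw [← Ex_single, ← Ex_const_mul]
    refine Ex_congr _ _ _ _ fun w hw => ?_
    rw [List.take_append_of_le_length (by omega), List.take_append_of_le_length (by omega),
      List.take_of_length_le (show u.length ≤ n + k by omega),
      List.drop_append_of_le_length (by omega), List.drop_eq_nil_of_le (by omega)]
    simp
  rw [this, Ex_mul_const, Ex_sub]
  have h6 : Ex p (n + k) (fun u => av T (u.take (n + k - 1))) = surv p T (n + k - 1) := by
    obtain ⟨j, hj⟩ : ∃ j, n + k = j + 1 := ⟨n + k - 1, by omega⟩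
    rw [hj, show j + 1 - 1 = j by omega]
    exact Ex_take p hp j 1 (av T)
  rw [h6]
  unfold surv
  ring

/-! ### Elementary properties of the survival sequence -/

lemma surv_nonneg {p : α → ℝ} (hp : ∀ a, 0 ≤ p a) (T : List α) (n : ℕ) : 0 ≤ surv p T n :=
  Ex_nonneg hp _ _ fun _ _ => av_nonneg _ _

lemma surv_le_one {p : α → ℝ} (hp : ∀ a, 0 ≤ p a) (hs : ∑ a, p a = 1) (T : List α) (n : ℕ) :
    surv p T n ≤ 1 := by
  have := Ex_mono hp n (av T) (fun _ => 1) (fun _ _ => av_le_one _ _)
  rwa [Ex_const hs] at this

lemma surv_eq_one {p : α → ℝ} (hs : ∑ a, p a = 1) (T : List α) (n : ℕ) (hn : n < T.length) :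
    surv p T n = 1 := by
  have : surv p T n = Ex p n (fun _ => 1) := by
    refine Ex_congr _ _ _ _ fun w hw => ?_
    have : ¬ T <:+: w := fun h => by have := h.length_le; omega
    simp [av, this]
  rw [this, Ex_const hs]

lemma surv_anti {p : α → ℝ} (hp : ∀ a, 0 ≤ p a) (hs : ∑ a, p a = 1) (T : List α) :
    Antitone (surv p T) := by
  refine antitone_nat_of_succ_le fun n => ?_
  have h1 : surv p T n = Ex p (n + 1) (fun w => av T (w.take n)) :=
    (Ex_take p hs n 1 (av T)).symm
  rw [h1]
  refine Ex_mono hp _ _ _ fun w hw => ?_
  have := av_anti (T := T) (w := w) (Nat.le_succ n)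
  rwa [List.take_of_length_le (show w.length ≤ n.succ by omega)] at this

lemma surv_step {p : α → ℝ} (hp : ∀ a, 0 ≤ p a) (hs : ∑ a, p a = 1) (T : List α) (n : ℕ) :
    surv p T (n + T.length) ≤ surv p T n * (1 - wt p T) := by
  have : surv p T n * (1 - wt p T) = Ex p (n + T.length)
      (fun w => av T (w.take n) * (1 - (if w.drop n = T then (1:ℝ) else 0))) := by
    rw [Ex_add]
    have h2 : Ex p n (fun u => Ex p T.length (fun w =>
        av T ((u ++ w).take n) * (1 - (if (u ++ w).drop n = T then (1:ℝ) else 0)))) =
        Ex p n (fun u => av T u * (1 - wt p T)) := by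
      refine Ex_congr _ _ _ _ fun u hu => ?_
      have h3 : av T u * (1 - wt p T) = Ex p T.length
          (fun w => av T u * (1 - (if w = T then (1:ℝ) else 0))) := by
        rw [Ex_const_mul, Ex_sub, Ex_const hs, Ex_single]
      rw [h3]
      refine Ex_congr _ _ _ _ fun w hw => ?_
      rw [List.take_append_of_le_length (by omega), List.take_of_length_le (by omega),
        List.drop_append_of_le_length (by omega), List.drop_eq_nil_of_le (by omega)]
      simp
    rw [h2, Ex_mul_const]; rfl
  rw [this]
  refine Ex_mono hp _ _ _ fun w hw => ?_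
  by_cases h1 : T <:+: w
  · have : av T w = 0 := by simp [av, h1]
    rw [this]
    refine mul_nonneg (av_nonneg _ _) ?_
    split_ifs <;> norm_num
  · have h2 : ¬ T <:+: w.take n := fun h => h1 (h.trans (List.take_prefix _ _).isInfix)
    have h3 : w.drop n ≠ T := fun h => h1 (by rw [← h]; exact (List.drop_suffix _ _).isInfix)
    simp [av, h1, h2, h3]

lemma wt_nonneg {p : α → ℝ} (hp : ∀ a, 0 ≤ p a) (T : List α) : 0 ≤ wt p T := by
  induction T with
  | nil => simp [wt]
  | cons a T ih => simpa [wt] using mul_nonneg (hp a) ih

lemma wt_pos {p : α → ℝ} (hp : ∀ a, 0 < p a) (T : List α) : 0 < wt p T := by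
  induction T with
  | nil => simp [wt]
  | cons a T ih => simpa [wt] using mul_pos (hp a) ih

lemma surv_mul_le {p : α → ℝ} (hp : ∀ a, 0 ≤ p a) (hs : ∑ a, p a = 1) (T : List α)
    (hw : wt p T ≤ 1) (k : ℕ) : surv p T (k * T.length) ≤ (1 - wt p T) ^ k := by
  induction k with
  | zero => simpa using surv_le_one hp hs T 0
  | succ k ih =>
    rw [show (k + 1) * T.length = k * T.length + T.length by ring, pow_succ]
    exact (surv_step hp hs T _).trans (mul_le_mul_of_nonneg_right ih (by linarith))

lemma wt_le_one {p : α → ℝ} (hp : ∀ a, 0 ≤ p a) (hs : ∑ a, p a = 1) (T : List α) :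
    wt p T ≤ 1 := by
  have h := surv_step hp hs T 0
  by_contra hcon
  push Not at hcon
  have h2 : surv p T 0 * (1 - wt p T) ≤ 0 :=
    mul_nonpos_of_nonneg_of_nonpos (surv_nonneg hp T 0) (by linarith)
  rcases Nat.eq_zero_or_pos T.length with h0 | h0
  · have : T = [] := List.length_eq_zero_iff.mp h0
    subst this
    simp [wt] at hcon
  · have h3 := surv_eq_one hs T 0 h0
    have h4 := surv_nonneg hp T (0 + T.length)
    rw [h3, one_mul] at h
    linarith

lemma tendsto_surv {p : α → ℝ} (hp : ∀ a, 0 < p a) (hs : ∑ a, p a = 1) (T : List α)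
    (hT : T ≠ []) : Filter.Tendsto (surv p T) Filter.atTop (nhds 0) := by
  have hp' : ∀ a, 0 ≤ p a := fun a => (hp a).le
  have hw0 := wt_pos hp T
  have hw1 := wt_le_one hp' hs T
  have hL : 0 < T.length := List.length_pos_of_ne_nil hT
  have h1 : Filter.Tendsto (fun n : ℕ => (1 - wt p T) ^ (n / T.length)) Filter.atTop (nhds 0) := by
    refine (tendsto_pow_atTop_nhds_zero_of_lt_one (by linarith) (by linarith)).comp ?_
    exact Nat.tendsto_div_const_atTop hL.ne'
  refine squeeze_zero (fun n => surv_nonneg hp' T n) (fun n => ?_) h1
  refine le_trans (surv_anti hp' hs T (Nat.div_mul_le_self n T.length)) ?_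
  exact surv_mul_le hp' hs T hw1 _

end Pool.Agent.V11300.PR
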