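import Mathlib

set_option linter.unusedSectionVars false
set_option linter.unusedVariables false

/-!
# Two-valued letter laws: the means as functions of the parameter, and a generic parameter
-/

namespace Pool.Agent.V11300.PR

open Finset MeasureTheory

/-- the two letter probabilities -/
noncomputable def q (s θ : ℝ) (b : Bool) : ℝ := if b then (1 + θ) / s else (1 - θ) / s

/-- probability of a word -/
noncomputable def wB (s θ : ℝ) (w : List Bool) : ℝ := (w.map (q s θ)).prod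

noncomputable def CC (s θ : ℝ) (w : List Bool) (B : Finset ℕ) : ℝ :=
  ∑ k ∈ B, wB s θ (w.drop (k + 1))

noncomputable def ee (s θ : ℝ) (w : List Bool) (B : Finset ℕ) : ℝ :=
  ∑ k ∈ B, (wB s θ (w.take (k + 1)))⁻¹

lemma wB_nil (s θ : ℝ) : wB s θ [] = 1 := by simp [wB]

lemma wB_cons (s θ : ℝ) (b : Bool) (w : List Bool) : wB s θ (b :: w) = q s θ b * wB s θ w := by
  simp [wB]

lemma wB_append (s θ : ℝ) (u w : List Bool) : wB s θ (u ++ w) = wB s θ u * wB s θ w := by
  simp [wB]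

lemma q_pos {s θ : ℝ} (hs : 0 < s) (h0 : 0 ≤ θ) (h1 : θ ≤ 1 / 2) (b : Bool) : 0 < q s θ b := by
  unfold q; split_ifs
  · exact div_pos (by linarith) hs
  · exact div_pos (by linarith) hs

lemma q_le {s θ : ℝ} (hs : 0 < s) (h0 : 0 ≤ θ) (h1 : θ ≤ 1 / 2) (b : Bool) :
    q s θ b ≤ 3 / (2 * s) := by
  unfold q
  split_ifs
  · rw [div_le_div_iff₀ hs (by positivity)]; nlinarith
  · rw [div_le_div_iff₀ hs (by positivity)]; nlinarith

lemma wB_pos {s θ : ℝ} (hs : 0 < s) (h0 : 0 ≤ θ) (h1 : θ ≤ 1 / 2) (w : List Bool) :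
    0 < wB s θ w := by
  induction w with
  | nil => simp [wB_nil]
  | cons b w ih => rw [wB_cons]; exact mul_pos (q_pos hs h0 h1 b) ih

lemma wB_le {s θ : ℝ} (hs : 0 < s) (h0 : 0 ≤ θ) (h1 : θ ≤ 1 / 2) (w : List Bool) :
    wB s θ w ≤ (3 / (2 * s)) ^ w.length := by
  induction w with
  | nil => simp [wB_nil]
  | cons b w ih =>
    rw [wB_cons, List.length_cons, pow_succ, mul_comm ((3 / (2 * s)) ^ w.length)]
    exact mul_le_mul (q_le hs h0 h1 b) ih (wB_pos hs h0 h1 w).le (by positivity)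

lemma wB_eq_count (s θ : ℝ) (w : List Bool) :
    wB s θ w = ((1 + θ) / s) ^ w.count true * ((1 - θ) / s) ^ w.count false := by
  induction w with
  | nil => simp [wB_nil]
  | cons b w ih =>
    rw [wB_cons, ih]
    cases b
    · simp [q, pow_succ]; ring
    · simp [q, pow_succ]; ring

lemma ee_eq {s θ : ℝ} (hs : 0 < s) (h0 : 0 ≤ θ) (h1 : θ ≤ 1 / 2) (w : List Bool)
    (B : Finset ℕ) : ee s θ w B = CC s θ w B / wB s θ w := by
  unfold ee CC
  rw [Finset.sum_div]
  refine Finset.sum_congr rfl fun k _ => ?_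
  have h2 : wB s θ w = wB s θ (w.take (k + 1)) * wB s θ (w.drop (k + 1)) := by
    rw [← wB_append, List.take_append_drop]
  have h3 := (wB_pos hs h0 h1 (w.take (k + 1))).ne'
  have h4 := (wB_pos hs h0 h1 (w.drop (k + 1))).ne'
  rw [h2]
  field_simp

lemma geom_le {x : ℝ} (h0 : 0 ≤ x) (h1 : x ≤ 1 / 4) (n : ℕ) :
    ∑ j ∈ range n, x ^ j ≤ 1 + 2 * x := by
  have h2 := geom_sum_eq (show x ≠ 1 by linarith) n
  rw [h2, div_le_iff_of_neg (by linarith)]
  have h3 : 0 ≤ x ^ n := by positivity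
  nlinarith

lemma CC_ge_one {s θ : ℝ} (hs : 0 < s) (h0 : 0 ≤ θ) (h1 : θ ≤ 1 / 2) {w : List Bool}
    {B : Finset ℕ} (hw : 0 < w.length) (hB : w.length - 1 ∈ B) : 1 ≤ CC s θ w B := by
  have h2 : wB s θ (w.drop (w.length - 1 + 1)) ≤ CC s θ w B := by
    refine Finset.single_le_sum (f := fun k => wB s θ (w.drop (k + 1)))
      (fun k _ => (wB_pos hs h0 h1 _).le) hB
  rwa [Nat.sub_add_cancel hw, List.drop_length, wB_nil] at h2

lemma CC_le {s θ : ℝ} (hs : 6 ≤ s) (h0 : 0 ≤ θ) (h1 : θ ≤ 1 / 2) {w : List Bool}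
    {B : Finset ℕ} (hB : B ⊆ range w.length) : CC s θ w B ≤ 1 + 3 / s := by
  have hs0 : 0 < s := by linarith
  set x : ℝ := 3 / (2 * s) with hx
  have hx0 : 0 ≤ x := by positivity
  have hx1 : x ≤ 1 / 4 := by rw [hx, div_le_div_iff₀ (by positivity) (by norm_num)]; linarith
  have h2 : CC s θ w B ≤ ∑ k ∈ range w.length, x ^ (w.length - 1 - k) := by
    calc CC s θ w B ≤ ∑ k ∈ B, x ^ (w.length - 1 - k) := by
          refine Finset.sum_le_sum fun k _ => ?_
          have h3 := wB_le hs0 h0 h1 (w.drop (k + 1))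
          rw [List.length_drop] at h3
          rwa [show w.length - 1 - k = w.length - (k + 1) by omega]
      _ ≤ _ := Finset.sum_le_sum_of_subset_of_nonneg hB (fun k _ _ => by positivity)
  rw [Finset.sum_range_reflect (fun j => x ^ j) w.length] at h2
  refine h2.trans ((geom_le hx0 hx1 _).trans ?_)
  have : 2 * x = 3 / s := by rw [hx]; field_simp
  linarith

lemma wB_lip {s θ θ' : ℝ} (hs : 0 < s) (h0 : 0 ≤ θ) (h1 : θ' ≤ 1 / 2) (hθ : θ ≤ θ')
    (w : List Bool) : |wB s θ' w - wB s θ w| ≤ (3 / s) ^ w.length * (θ' - θ) := by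
  have hθ0 : θ ≤ 1 / 2 := hθ.trans h1
  have hθ1 : 0 ≤ θ' := h0.trans hθ
  have hΔ : 0 ≤ θ' - θ := by linarith
  induction w with
  | nil => simpa [wB_nil] using hΔ
  | cons b w ih =>
    rw [wB_cons, wB_cons, List.length_cons]
    have e : q s θ' b * wB s θ' w - q s θ b * wB s θ w =
        (q s θ' b - q s θ b) * wB s θ' w + q s θ b * (wB s θ' w - wB s θ w) := by ring
    have h2 : |q s θ' b - q s θ b| ≤ (θ' - θ) / s := by
      unfold q
      split_ifs
      · have : (1 + θ') / s - (1 + θ) / s = (θ' - θ) / s := by ring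
        rw [this, abs_of_nonneg (by positivity)]
      · have : (1 - θ') / s - (1 - θ) / s = -((θ' - θ) / s) := by ring
        rw [this, abs_neg, abs_of_nonneg (by positivity)]
    have h3 : wB s θ' w ≤ (3 / s) ^ w.length := by
      refine (wB_le hs hθ1 h1 w).trans ?_
      refine pow_le_pow_left₀ (by positivity) ?_ _
      rw [div_le_div_iff₀ (by positivity) hs]; nlinarith
    have h4 := q_le hs h0 hθ0 b
    have h5 := (q_pos hs h0 hθ0 b).le
    have h6 := (wB_pos hs hθ1 h1 w).le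
    have hA : |(q s θ' b - q s θ b) * wB s θ' w| ≤ (θ' - θ) / s * (3 / s) ^ w.length := by
      rw [abs_mul, abs_of_nonneg h6]
      exact mul_le_mul h2 h3 h6 (by positivity)
    have hB : |q s θ b * (wB s θ' w - wB s θ w)| ≤
        3 / (2 * s) * ((3 / s) ^ w.length * (θ' - θ)) := by
      rw [abs_mul, abs_of_nonneg h5]
      exact mul_le_mul h4 ih (abs_nonneg _) (by positivity)
    rw [e]
    refine (abs_add_le _ _).trans ((add_le_add hA hB).trans ?_)
    have h7 : 0 ≤ (3 / s) ^ w.length * (θ' - θ) / s := by positivity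
    have h8 : (3 / s) ^ (w.length + 1) * (θ' - θ) = 3 * ((3 / s) ^ w.length * (θ' - θ) / s) := by
      rw [pow_succ]; field_simp
    have h9 : (θ' - θ) / s * (3 / s) ^ w.length = (3 / s) ^ w.length * (θ' - θ) / s := by
      field_simp
    have h10 : 3 / (2 * s) * ((3 / s) ^ w.length * (θ' - θ)) =
        (3 / 2) * ((3 / s) ^ w.length * (θ' - θ) / s) := by field_simp
    rw [h8, h9, h10]
    linarith

lemma CC_lip {s θ θ' : ℝ} (hs : 12 ≤ s) (h0 : 0 ≤ θ) (h1 : θ' ≤ 1 / 2) (hθ : θ ≤ θ')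
    {w : List Bool} {B : Finset ℕ} (hB : B ⊆ range w.length) :
    |CC s θ' w B - CC s θ w B| ≤ 6 / s * (θ' - θ) := by
  have hs0 : 0 < s := by linarith
  have hΔ : 0 ≤ θ' - θ := by linarith
  have hx1 : 3 / s ≤ 1 / 4 := by rw [div_le_div_iff₀ hs0 (by norm_num)]; linarith
  unfold CC
  rw [← Finset.sum_sub_distrib]
  refine (Finset.abs_sum_le_sum_abs _ _).trans ?_
  have h2 : ∑ k ∈ B, |wB s θ' (w.drop (k + 1)) - wB s θ (w.drop (k + 1))| ≤
      ∑ k ∈ range w.length, |wB s θ' (w.drop (k + 1)) - wB s θ (w.drop (k + 1))| :=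
    Finset.sum_le_sum_of_subset_of_nonneg hB (fun k _ _ => abs_nonneg _)
  refine h2.trans ?_
  rcases Nat.eq_zero_or_pos w.length with hL | hL
  · rw [hL]; simp; positivity
  · obtain ⟨n, hn⟩ : ∃ n, w.length = n + 1 := ⟨w.length - 1, by omega⟩
    rw [hn, Finset.sum_range_succ]
    have h3 : w.drop (n + 1) = [] := by rw [← hn]; exact List.drop_length
    rw [h3, wB_nil, wB_nil, sub_self, abs_zero, add_zero]
    have h4 : ∑ k ∈ range n, |wB s θ' (w.drop (k + 1)) - wB s θ (w.drop (k + 1))| ≤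
        ∑ k ∈ range n, (3 / s) * (3 / s) ^ (n - 1 - k) * (θ' - θ) := by
      refine Finset.sum_le_sum fun k hk => ?_
      rw [mem_range] at hk
      have h5 := wB_lip hs0 h0 h1 hθ (w.drop (k + 1))
      rw [List.length_drop, hn, show n + 1 - (k + 1) = (n - 1 - k) + 1 by omega, pow_succ] at h5
      linarith
    refine h4.trans ?_
    rw [← Finset.sum_mul, ← Finset.mul_sum, Finset.sum_range_reflect (fun j => (3 / s) ^ j) n]
    refine mul_le_mul_of_nonneg_right ?_ hΔ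
    have h6 := geom_le (by positivity : (0:ℝ) ≤ 3 / s) hx1 n
    have h7 : (3 / s) * ∑ j ∈ range n, (3 / s) ^ j ≤ (3 / s) * 2 := by
      refine mul_le_mul_of_nonneg_left ?_ (by positivity)
      linarith
    have h8 : (3 / s) * 2 = 6 / s := by ring
    linarith

lemma ee_pos {s θ : ℝ} (hs : 0 < s) (h0 : 0 ≤ θ) (h1 : θ ≤ 1 / 2) {w : List Bool}
    {B : Finset ℕ} (hw : 0 < w.length) (hB : w.length - 1 ∈ B) : 0 < ee s θ w B := by
  rw [ee_eq hs h0 h1]
  exact div_pos (lt_of_lt_of_le one_pos (CC_ge_one hs h0 h1 hw hB)) (wB_pos hs h0 h1 w)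

/-- monotonicity of the quotient of two means -/
lemma ratio_mono {s θ θ' : ℝ} (hs : 1000 ≤ s) (h0 : 0 ≤ θ) (h1 : θ' ≤ 1 / 2) (hθ : θ ≤ θ')
    {w w' : List Bool} {B B' : Finset ℕ} (hw : 0 < w.length) (hw' : 0 < w'.length)
    (hB : B ⊆ range w.length) (hB' : B' ⊆ range w'.length)
    (hB1 : w.length - 1 ∈ B) (hB1' : w'.length - 1 ∈ B')
    (hct : w'.count true < w.count true) (hcf : w.count false < w'.count false) :
    ee s θ' w B * ee s θ w' B' ≤ (1 - (θ' - θ) / 2) * (ee s θ w B * ee s θ' w' B') := by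
  have hs0 : 0 < s := by linarith
  have hθ0 : θ ≤ 1 / 2 := hθ.trans h1
  have hθ1 : 0 ≤ θ' := h0.trans hθ
  set Δ : ℝ := θ' - θ with hΔdef
  have hΔ : 0 ≤ Δ := by simp only [hΔdef]; linarith
  have hΔ1 : Δ ≤ 1 / 2 := by simp only [hΔdef]; linarith
  rw [ee_eq hs0 hθ1 h1, ee_eq hs0 h0 hθ0, ee_eq hs0 h0 hθ0, ee_eq hs0 hθ1 h1]
  have p1 := wB_pos hs0 h0 hθ0 w
  have p2 := wB_pos hs0 hθ1 h1 w
  have p3 := wB_pos hs0 h0 hθ0 w'
  have p4 := wB_pos hs0 hθ1 h1 w'
  -- (i)
  have hW : wB s θ w * wB s θ' w' ≤ (1 - Δ) * (wB s θ' w * wB s θ w') := by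
    obtain ⟨x, hx⟩ : ∃ x, w.count true = w'.count true + (x + 1) :=
      ⟨w.count true - w'.count true - 1, by omega⟩
    obtain ⟨y, hy⟩ : ∃ y, w'.count false = w.count false + (y + 1) :=
      ⟨w'.count false - w.count false - 1, by omega⟩
    rw [wB_eq_count, wB_eq_count s θ' w', wB_eq_count s θ' w, wB_eq_count s θ w', hx, hy]
    set u : ℝ := (1 + θ) / s with hu
    set u₁ : ℝ := (1 + θ') / s with hu1
    set v : ℝ := (1 - θ) / s with hv
    set v₁ : ℝ := (1 - θ') / s with hv1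
    have hu0 : 0 < u := div_pos (by linarith) hs0
    have hu10 : 0 < u₁ := div_pos (by linarith) hs0
    have hv0 : 0 < v := div_pos (by linarith) hs0
    have hv10 : 0 < v₁ := div_pos (by linarith) hs0
    have huu : u ≤ u₁ := div_le_div_of_nonneg_right (by linarith) hs0.le
    have hvv : v₁ ≤ v := div_le_div_of_nonneg_right (by linarith) hs0.le
    have hvΔ : v₁ ≤ (1 - Δ) * v := by
      have e1 : v₁ = v - Δ / s := by simp only [hv, hv1, hΔdef]; ring
      have e2 : v ≤ 1 / s := div_le_div_of_nonneg_right (by linarith) hs0.le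
      rw [e1]
      have e3 : Δ * v ≤ Δ * (1 / s) := mul_le_mul_of_nonneg_left e2 hΔ
      have e4 : Δ * (1 / s) = Δ / s := by ring
      linarith
    have hkey : u ^ (x + 1) * v₁ ^ (y + 1) ≤ (1 - Δ) * (u₁ ^ (x + 1) * v ^ (y + 1)) := by
      have a1 : u ^ (x + 1) ≤ u₁ ^ (x + 1) := pow_le_pow_left₀ hu0.le huu _
      have a2 : v₁ ^ (y + 1) ≤ (1 - Δ) * v ^ (y + 1) := by
        rw [pow_succ, pow_succ]
        have a3 : v₁ ^ y ≤ v ^ y := pow_le_pow_left₀ hv10.le hvv _
        calc v₁ ^ y * v₁ ≤ v ^ y * ((1 - Δ) * v) :=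
              mul_le_mul a3 hvΔ hv10.le (by positivity)
          _ = (1 - Δ) * (v ^ y * v) := by ring
      calc u ^ (x + 1) * v₁ ^ (y + 1) ≤ u₁ ^ (x + 1) * ((1 - Δ) * v ^ (y + 1)) :=
            mul_le_mul a1 a2 (by positivity) (by positivity)
        _ = _ := by ring
    have hcommon : 0 ≤ u ^ w'.count true * v ^ w.count false *
        (u₁ ^ w'.count true * v₁ ^ w.count false) := by positivity
    have := mul_le_mul_of_nonneg_left hkey hcommon
    calc u ^ (w'.count true + (x + 1)) * v ^ w.count false *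
          (u₁ ^ w'.count true * v₁ ^ (w.count false + (y + 1))) =
        u ^ w'.count true * v ^ w.count false * (u₁ ^ w'.count true * v₁ ^ w.count false) *
          (u ^ (x + 1) * v₁ ^ (y + 1)) := by rw [pow_add, pow_add]; ring
      _ ≤ _ := this
      _ = _ := by rw [pow_add u₁, pow_add v]; ring
  -- (ii)
  have c1 := CC_ge_one hs0 h0 hθ0 hw hB1
  have c2 := CC_ge_one hs0 hθ1 h1 hw' hB1'
  have c3 := CC_ge_one hs0 h0 hθ0 hw' hB1'
  have c4 := CC_ge_one hs0 hθ1 h1 hw hB1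
  have l1 := (abs_le.mp (CC_lip (show (12:ℝ) ≤ s by linarith) h0 h1 hθ hB)).2
  have l2 := (abs_le.mp (CC_lip (show (12:ℝ) ≤ s by linarith) h0 h1 hθ hB')).1
  rw [← hΔdef] at l1 l2
  have hεs : 6 / s * Δ ≤ Δ / 100 := by
    have : 6 / s ≤ 1 / 100 := by rw [div_le_div_iff₀ hs0 (by norm_num)]; linarith
    nlinarith
  have m1 : CC s θ' w B ≤ (1 + Δ / 100) * CC s θ w B := by nlinarith
  have m2 : CC s θ w' B' ≤ (1 + Δ / 100) * CC s θ' w' B' := by nlinarith
  have hC : CC s θ' w B * CC s θ w' B' ≤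
      (1 + Δ / 100) ^ 2 * (CC s θ w B * CC s θ' w' B') := by
    calc CC s θ' w B * CC s θ w' B' ≤ ((1 + Δ / 100) * CC s θ w B) *
          ((1 + Δ / 100) * CC s θ' w' B') := mul_le_mul m1 m2 (by linarith) (by positivity)
      _ = _ := by ring
  have hnum : (1 - Δ) * (1 + Δ / 100) ^ 2 ≤ 1 - Δ / 2 := by nlinarith [sq_nonneg Δ]
  rw [div_mul_div_comm, div_mul_div_comm, ← mul_div_assoc, div_le_div_iff₀ (by positivity)
    (by positivity)]
  have hCC0 : 0 ≤ CC s θ w B * CC s θ' w' B' := by positivity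
  calc CC s θ' w B * CC s θ w' B' * (wB s θ w * wB s θ' w') ≤
      ((1 + Δ / 100) ^ 2 * (CC s θ w B * CC s θ' w' B')) *
        ((1 - Δ) * (wB s θ' w * wB s θ w')) :=
        mul_le_mul hC hW (by positivity) (by positivity)
    _ = ((1 - Δ) * (1 + Δ / 100) ^ 2) * ((CC s θ w B * CC s θ' w' B') *
        (wB s θ' w * wB s θ w')) := by ring
    _ ≤ (1 - Δ / 2) * ((CC s θ w B * CC s θ' w' B') * (wB s θ' w * wB s θ w')) :=
        mul_le_mul_of_nonneg_right hnum (by positivity)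
    _ = _ := by ring

end Pool.Agent.V11300.PR
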